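import Pool.Agent.H918R5.Stubs

set_option autoImplicit false

open MeasureTheory Topology Filter

namespace Pool.Agent.H918R5

theorem t_CMP : StCMP := by
  intro F K J _ _ f σ τ hσ hτ h0
  rw [induced_iInf]
  congr 1
  funext j
  have h1 : @IsTopologicalAddGroup F (σ j) _ := by

    exact @IsTopologicalRing.to_topologicalAddGroup F _ (σ j) (hσ j).toIsTopologicalRing
  have h2 : @IsTopologicalAddGroup K (τ j) _ := by

    exact @IsTopologicalRing.to_topologicalAddGroup K _ (τ j) (hτ j).toIsTopologicalRing
  have h3 : @IsTopologicalAddGroup F ((τ j).induced f) _ := by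
    let _ := τ j
    exact topologicalAddGroup_induced f
  refine @IsTopologicalAddGroup.ext F _ (σ j) ((τ j).induced f) h1 h3 ?_
  rw [h0 j, @nhds_induced _ _ (τ j) f 0, map_zero]

end Pool.Agent.H918R5
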