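import Pool.Agent.H918R5.Stubs

/-!
# Counting lemma `StCNT`

If every point of a probability space has at most `d` indices `i` with `ω ∈ A i`, `φ i ω ∈ E`, with
`φ i` measure preserving and preserving `A i`, then the sum of the measures of `E ∩ A i` is at most
`d`, so by the Borel-Cantelli lemma almost every point of `E` is in finitely many `A i` only.
-/

set_option autoImplicit false

open MeasureTheory Topology Filter

namespace Pool.Agent.H918R5

theorem t_CNT : StCNT := by
  intro Ω _ μ _ φ A E d hE hφ hA hφA hinf hcard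
  classical
  have hB : ∀ i, MeasurableSet (φ i ⁻¹' (E ∩ A i)) := fun i =>
    (hφ i).measurable (hE.inter (hA i))
  have hsum : ∑' i, μ (E ∩ A i) ≤ (d : ENNReal) := by
    calc ∑' i, μ (E ∩ A i) = ∑' i, μ (φ i ⁻¹' (E ∩ A i)) := by
          refine tsum_congr fun i => ?_
          exact ((hφ i).measure_preimage (hE.inter (hA i)).nullMeasurableSet).symm
      _ = ∑' i, ∫⁻ ω, (φ i ⁻¹' (E ∩ A i)).indicator 1 ω ∂μ := by
          refine tsum_congr fun i => ?_
          rw [lintegral_indicator_one (hB i)]
      _ = ∫⁻ ω, ∑' i, (φ i ⁻¹' (E ∩ A i)).indicator 1 ω ∂μ := by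
          rw [lintegral_tsum]
          intro i
          exact (measurable_one.indicator (hB i)).aemeasurable
      _ ≤ ∫⁻ _, (d : ENNReal) ∂μ := by
          refine lintegral_mono fun ω => ?_
          rw [ENNReal.tsum_eq_iSup_sum]
          refine iSup_le fun s => ?_
          have h1 : ∑ i ∈ s, (φ i ⁻¹' (E ∩ A i)).indicator (1 : Ω → ENNReal) ω
              = ((s.filter fun i => ω ∈ φ i ⁻¹' (E ∩ A i)).card : ENNReal) := by
            rw [Finset.card_eq_sum_ones, Finset.sum_filter]
            push_cast
            refine Finset.sum_congr rfl fun i _ => ?_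
            by_cases h : ω ∈ φ i ⁻¹' (E ∩ A i)
            · rw [Set.indicator_of_mem h, if_pos h]; rfl
            · rw [Set.indicator_of_notMem h, if_neg h]
          rw [h1]
          have h2 := hcard ω (s.filter fun i => ω ∈ φ i ⁻¹' (E ∩ A i)) (by
            intro i hi
            obtain ⟨_, h3⟩ := Finset.mem_filter.1 hi
            exact ⟨(hφA i ω).1 h3.2, h3.1⟩)
          exact_mod_cast h2
      _ = d := by simp
  have hfin : ∀ᵐ ω ∂μ, {i : ℕ | ω ∈ E ∩ A i}.Finite :=
    ae_finite_setOf_mem (ne_top_of_le_ne_top (ENNReal.natCast_ne_top d) hsum)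
  have hE0 : ∀ᵐ ω ∂μ, ω ∉ E := by
    filter_upwards [hinf, hfin] with ω h1 h2 h3
    refine h1 (h2.subset fun i hi => ?_)
    exact ⟨h3, hi⟩
  have h4 := (ae_iff.1 hE0)
  simpa using h4

end Pool.Agent.H918R5
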