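import Pool.Agent.H918R5.Stubs

/-!
# Continuity of a path for the supremum of field topologies
-/

set_option autoImplicit false

open MeasureTheory Topology Filter

namespace Pool.Agent.H918R5

namespace CTPaux

theorem single (K : Type) [Field K] [TopologicalSpace K] [IsTopologicalDivisionRing K]
    (γ : TI → K) (h : ∀ t : TI, ∀ S ∈ 𝓝 (0 : K), ∀ᶠ s in 𝓝 t, γ s - γ t ∈ S) :
    Continuous γ := by
  rw [continuous_iff_continuousAt]
  intro t
  have h1 : Tendsto (fun s => γ s - γ t) (𝓝 t) (𝓝 0) := by
    intro S hS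
    exact h t S hS
  have h2 : Tendsto (fun s => γ s - γ t + γ t) (𝓝 t) (𝓝 (0 + γ t)) :=
    h1.add tendsto_const_nhds
  simpa [ContinuousAt] using h2

end CTPaux

theorem t_CTP : StCTP := by
  intro K J _ τ hτ γ h
  rw [continuous_iInf_rng]
  intro j
  exact @CTPaux.single K _ (τ j) (hτ j) γ (h j)

end Pool.Agent.H918R5
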