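import Pool.Agent.H918R5.Stubs

/-!
# EV0: zero, negation, nonvanishing for almost everywhere evaluations (helper546)
-/

set_option autoImplicit false

open MeasureTheory Topology Filter

namespace Pool.Agent.H918R5

theorem t_EV0 : StEV0 := by
  intro K M Ω _ _ _ _ μ _ v
  have h0 : ∀ᵐ ω ∂μ, v.e 0 ω = 0 := by
    filter_upwards [v.add 0 0] with ω h
    rw [add_zero] at h
    exact left_eq_add.mp h
  refine ⟨h0, ?_, ?_⟩
  · intro z
    filter_upwards [h0, v.add z (-z)] with ω h1 h2
    rw [add_neg_cancel, h1] at h2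
    exact (neg_eq_of_add_eq_zero_right h2.symm).symm
  · intro z hz
    filter_upwards [v.mul z z⁻¹, v.one] with ω h1 h2
    rw [mul_inv_cancel₀ hz, h2] at h1
    have hne : v.e z ω ≠ 0 := by
      intro h
      rw [h, zero_mul] at h1
      exact one_ne_zero h1
    exact ⟨hne, (inv_eq_of_mul_eq_one_right h1.symm).symm⟩

end Pool.Agent.H918R5
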