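import Pool.Agent.H918R5.Stubs

/-! Task EVA: evaluations from homomorphisms of a domain. -/

set_option autoImplicit false

open MeasureTheory Topology Filter

namespace Pool.Agent.H918R5

namespace EVA

/-- numerator -/
noncomputable def nm {R : Type} [CommRing R] [IsDomain R] (z : FractionRing R) : R :=
  (IsLocalization.sec (nonZeroDivisors R) z).1

/-- denominator -/
noncomputable def dn {R : Type} [CommRing R] [IsDomain R] (z : FractionRing R) : R :=
  ((IsLocalization.sec (nonZeroDivisors R) z).2 : R)

theorem spec {R : Type} [CommRing R] [IsDomain R] (z : FractionRing R) :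
    z * algebraMap R (FractionRing R) (dn z) = algebraMap R (FractionRing R) (nm z) :=
  IsLocalization.sec_spec (nonZeroDivisors R) z

theorem dn_ne {R : Type} [CommRing R] [IsDomain R] (z : FractionRing R) : dn z ≠ 0 :=
  nonZeroDivisors.ne_zero (IsLocalization.sec (nonZeroDivisors R) z).2.2

theorem inj {R : Type} [CommRing R] [IsDomain R] {x y : R}
    (h : algebraMap R (FractionRing R) x = algebraMap R (FractionRing R) y) : x = y :=
  IsFractionRing.injective R (FractionRing R) h

theorem add_id {R : Type} [CommRing R] [IsDomain R] (z w : FractionRing R) :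
    nm (z + w) * (dn z * dn w) = dn (z + w) * (nm z * dn w + nm w * dn z) := by
  apply inj
  simp only [map_mul, map_add, ← spec]
  ring

theorem mul_id {R : Type} [CommRing R] [IsDomain R] (z w : FractionRing R) :
    nm (z * w) * (dn z * dn w) = dn (z * w) * (nm z * nm w) := by
  apply inj
  simp only [map_mul, ← spec]
  ring

theorem one_id {R : Type} [CommRing R] [IsDomain R] :
    nm (1 : FractionRing R) = dn (1 : FractionRing R) := by
  apply inj
  rw [← spec, one_mul]

theorem map_id' {R : Type} [CommRing R] [IsDomain R] (p : R) :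
    nm (algebraMap R (FractionRing R) p) = p * dn (algebraMap R (FractionRing R) p) := by
  apply inj
  rw [← spec, map_mul]

theorem meas_aux {M Ω : Type} [Field M] [UniformSpace M]
    [IsUniformAddGroup M] [IsTopologicalDivisionRing M] [FirstCountableTopology M] [T2Space M]
    [MeasurableSpace Ω] (μ : Measure Ω) (f g : Ω → M)
    (hf : StronglyMeasurable f) (hg : StronglyMeasurable g) (h0 : ∀ᵐ ω ∂μ, g ω ≠ 0)
    (U : Set M) (hU : IsOpen U) : NullMeasurableSet {ω | f ω * (g ω)⁻¹ ∈ U} μ := by
  have hfg : StronglyMeasurable (fun ω => (f ω, g ω)) := hf.prodMk hg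
  haveI : (uniformity M).IsCountablyGenerated := IsUniformAddGroup.uniformity_countably_generated
  letI : MeasurableSpace (M × M) := borel (M × M)
  haveI : BorelSpace (M × M) := ⟨rfl⟩
  have hS : IsOpen {x : M × M | x.2 ≠ 0 ∧ x.1 * x.2⁻¹ ∈ U} := by
    have ho : IsOpen {x : M × M | x.2 ≠ 0} := isOpen_ne.preimage continuous_snd
    have hc : ContinuousOn (fun x : M × M => x.1 * x.2⁻¹) {x : M × M | x.2 ≠ 0} :=
      continuousOn_fst.mul (continuousOn_snd.inv₀ (fun x hx => hx))
    exact hc.isOpen_inter_preimage ho hU
  have hm := hfg.measurable hS.measurableSet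
  refine hm.nullMeasurableSet.congr ?_
  rw [Filter.eventuallyEq_set]
  filter_upwards [h0] with ω hω
  constructor
  · intro h
    exact h.2
  · intro h
    exact ⟨hω, h⟩

end EVA

theorem t_EVA : StEVA := by
  intro R M Ω _ _ _ _ _ _ _ _ _ μ _ ψ hm h0
  have hd : ∀ z : FractionRing R, ∀ᵐ ω ∂μ, ψ ω (EVA.dn z) ≠ 0 := fun z => h0 _ (EVA.dn_ne z)
  refine ⟨{ e := fun z ω => ψ ω (EVA.nm z) * (ψ ω (EVA.dn z))⁻¹
            add := ?_
            mul := ?_
            one := ?_
            meas := ?_ }, ?_⟩
  · intro z w
    filter_upwards [hd z, hd w, hd (z + w)] with ω h1 h2 h3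
    have h := congrArg (ψ ω) (EVA.add_id z w)
    simp only [map_mul, map_add] at h
    field_simp
    linear_combination h
  · intro z w
    filter_upwards [hd z, hd w, hd (z * w)] with ω h1 h2 h3
    have h := congrArg (ψ ω) (EVA.mul_id z w)
    simp only [map_mul] at h
    field_simp
    linear_combination h
  · filter_upwards [hd 1] with ω h1
    rw [EVA.one_id, mul_inv_cancel₀ h1]
  · intro z U hU
    exact EVA.meas_aux μ _ _ (hm _) (hm _) (hd z) U hU
  · intro p
    filter_upwards [hd (algebraMap R (FractionRing R) p)] with ω h1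
    show ψ ω (EVA.nm _) * (ψ ω (EVA.dn _))⁻¹ = ψ ω p
    rw [EVA.map_id', map_mul, mul_assoc, mul_inv_cancel₀ h1, mul_one]

end Pool.Agent.H918R5
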