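import Pool.Agent.H918R5.Stubs

set_option autoImplicit false

open MeasureTheory Topology Filter

namespace Pool.Agent.H918R5

theorem t_HIT : StHIT := by
  intro a δ hδ h0 h1
  set B : Set ℝ := Set.Ico (a - δ) (a + δ) with hB
  have hBm : MeasurableSet B := measurableSet_Ico
  have hnu : nu B = ENNReal.ofReal (2 * δ) := by
    unfold nu
    rw [Measure.restrict_apply hBm]
    have h2 : B ∩ Set.Ioc 0 1 = B := by
      apply Set.inter_eq_left.2
      intro x hx
      exact ⟨by linarith [hx.1], by linarith [hx.2]⟩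
    rw [h2, hB, Real.volume_Ico]
    congr 1
    ring
  have hpos : ENNReal.ofReal (2 * δ) ≠ 0 := by
    rw [Ne, ENNReal.ofReal_eq_zero, not_le]
    linarith
  have hr : nu Bᶜ < 1 := by
    rw [prob_compl_eq_one_sub hBm, hnu]
    exact ENNReal.sub_lt_self ENNReal.one_ne_top one_ne_zero hpos
  have hN : ∀ m : ℕ, mu {ω | ∀ i, m ≤ i → ω i ∉ B} = 0 := by
    intro m
    have h2 : ∀ k : ℕ, mu {ω | ∀ i, m ≤ i → ω i ∉ B} ≤ (nu Bᶜ) ^ k := by
      intro k
      have h3 : {ω : Om | ∀ i, m ≤ i → ω i ∉ B} ⊆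
          Set.pi (Finset.Ico m (m + k) : Finset ℕ) (fun _ => Bᶜ) := by
        intro ω hω i hi
        rw [Finset.mem_coe, Finset.mem_Ico] at hi
        exact hω i hi.1
      refine (measure_mono h3).trans (le_of_eq ?_)
      unfold mu
      rw [Measure.infinitePi_pi _ (fun i _ => hBm.compl), Finset.prod_const, Nat.card_Ico,
        Nat.add_sub_cancel_left]
    have h4 : Tendsto (fun k : ℕ => (nu Bᶜ) ^ k) atTop (𝓝 0) :=
      ENNReal.tendsto_pow_atTop_nhds_zero_of_lt_one hr
    exact le_antisymm (ge_of_tendsto' h4 h2) bot_le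
  have h5 : ∀ᵐ ω ∂mu, ∀ m : ℕ, ¬ ∀ i, m ≤ i → ω i ∉ B := by
    rw [ae_all_iff]
    intro m
    rw [ae_iff]
    simp only [not_not]
    exact hN m
  filter_upwards [h5] with ω hω
  rw [← Nat.frequently_atTop_iff_infinite, frequently_atTop]
  intro m
  have h6 := hω m
  push Not at h6
  obtain ⟨i, hi, hiB⟩ := h6
  exact ⟨i, hi, hiB.1, hiB.2⟩

end Pool.Agent.H918R5
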