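import Pool.Agent.H918R5.Stubs

/-!
# IND: induced field topologies
-/

set_option autoImplicit false

open MeasureTheory Topology Filter

namespace Pool.Agent.H918R5

namespace IND

theorem aux {F M : Type} [Field F] [Field M] [TopologicalSpace M]
    [IsTopologicalDivisionRing M] [TopologicalSpace F] (f : F →+* M)
    (hf : Topology.IsInducing f) : IsTopologicalDivisionRing F := by
  have hfc : Continuous f := hf.continuous
  have h1 : IsTopologicalRing F :=
    { continuous_add := by
        rw [hf.continuous_iff]
        have h : (f ∘ fun p : F × F => p.1 + p.2) = fun p : F × F => f p.1 + f p.2 := by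
          funext p; exact map_add f _ _
        rw [h]
        exact (hfc.comp continuous_fst).add (hfc.comp continuous_snd)
      continuous_mul := by
        rw [hf.continuous_iff]
        have h : (f ∘ fun p : F × F => p.1 * p.2) = fun p : F × F => f p.1 * f p.2 := by
          funext p; exact map_mul f _ _
        rw [h]
        exact (hfc.comp continuous_fst).mul (hfc.comp continuous_snd)
      continuous_neg := by
        rw [hf.continuous_iff]
        have h : (f ∘ fun p : F => -p) = fun p : F => -f p := by
          funext p; exact map_neg f _
        rw [h]
        exact hfc.neg }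
  exact
    { toIsTopologicalRing := h1
      continuousAt_inv₀ := by
        intro x hx
        rw [hf.continuousAt_iff]
        have h : (f ∘ fun p : F => p⁻¹) = fun p : F => (f p)⁻¹ := by
          funext p; exact map_inv₀ f _
        show ContinuousAt (f ∘ fun p : F => p⁻¹) x
        rw [h]
        exact (hfc.continuousAt).inv₀ ((map_ne_zero f).2 hx) }

end IND

/-- **IND** -/
theorem t_IND : StIND := by
  intro F M _ _ _ _ f
  refine ⟨?_, ?_⟩
  · exact @IND.aux F M _ _ _ _ (TopologicalSpace.induced f inferInstance) f (@Topology.IsInducing.mk _ _ (_) _ _ rfl)
  · rw [nhds_induced, map_zero]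

end Pool.Agent.H918R5
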