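import Pool.Agent.H918R5.Stubs

set_option autoImplicit false

open MeasureTheory Topology Filter

namespace Pool.Agent.H918R5

theorem t_INF : StINF := by
  intro K J _ τ h
  have hadd : @ContinuousAdd K (⨅ j, τ j) _ := continuousAdd_iInf fun j => by
    letI := τ j
    haveI := h j
    infer_instance
  have hmul : @ContinuousMul K (⨅ j, τ j) _ := continuousMul_iInf fun j => by
    letI := τ j
    haveI := h j
    infer_instance
  have hneg : @ContinuousNeg K (⨅ j, τ j) _ := continuousNeg_iInf fun j => by
    letI := τ j
    haveI := h j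
    infer_instance
  have hinv : ∀ x : K, x ≠ 0 → @ContinuousAt K K (⨅ j, τ j) (⨅ j, τ j) Inv.inv x := by
    intro x hx
    unfold ContinuousAt
    rw [nhds_iInf, nhds_iInf]
    refine tendsto_iInf.2 fun j => ?_
    have h1 : @ContinuousAt K K (τ j) (τ j) Inv.inv x := by
      letI := τ j
      haveI := h j
      exact continuousAt_inv₀ hx
    exact Tendsto.mono_left h1 (iInf_le _ j)
  letI := (⨅ j, τ j)
  haveI := hadd
  haveI := hmul
  haveI := hneg
  haveI : IsTopologicalRing K := {}
  exact { continuousAt_inv₀ := fun x hx => hinv x hx }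

end Pool.Agent.H918R5
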