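import Pool.Agent.H918R5.Stubs

/-!
# Connected topological fields: assembly (helper918)
-/

set_option autoImplicit false

open MeasureTheory Topology Filter

namespace Pool.Agent.H918R5

theorem t_MAIN (hSEQ : StSEQ) (hPTH : StPTH) (hMEA : StMEA) (hNV2 : StNV2) (hTOP : StTOP)
    (hEVA : StEVA) (hINF : StINF) (hCON : StCON) (hCMP : StCMP) (hCTP : StCTP) (hT2 : StT2)
    (hIND : StIND) : StMAIN := by
  intro F _ tF J _ M _ _ _ _ _ _ _ hne f hF
  classical
  choose c hc using fun j => hSEQ (M j) (hne j)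
  let R : Type := MvPolynomial TI F
  let K : Type := FractionRing R
  let ψ : ∀ j, Om → R →+* M j := fun j ω =>
    MvPolynomial.eval₂Hom (f j) (fun i : TI => X (c j) (i : ℝ) ω)
  have hψ : ∀ j ω (p : R), ψ j ω p =
      MvPolynomial.eval (fun i : TI => X (c j) (i : ℝ) ω) (MvPolynomial.map (f j) p) := by
    intro j ω p
    rw [MvPolynomial.eval_map]; rfl
  have hsm : ∀ j (p : R), StronglyMeasurable (fun ω => ψ j ω p) := by
    intro j p
    simp only [hψ]
    exact (hMEA (M j) (c j) (hc j)).2 TI (fun i => (i : ℝ)) (MvPolynomial.map (f j) p)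
  have hnz : ∀ j (p : R), p ≠ 0 → ∀ᵐ ω ∂mu, ψ j ω p ≠ 0 := by
    intro j p hp
    simp only [hψ]
    apply hNV2 (M j) (c j) (hc j)
    intro h0
    exact hp (MvPolynomial.map_injective (f j) (f j).injective (by rw [h0, map_zero]))
  choose v hv using fun j => hEVA R (M j) Om mu (ψ j) (hsm j) (hnz j)
  choose τ hτ hτ0 using fun j => hTOP K (M j) Om mu (v j)
  have hdiv : @IsTopologicalDivisionRing K _ (⨅ j, τ j) := hINF K J τ hτ
  let g : F →+* K := (algebraMap R K).comp MvPolynomial.C
  have hg : ∀ j (a : F), ∀ᵐ ω ∂mu, (v j).e (g a) ω = f j a := by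
    intro j a
    filter_upwards [hv j (MvPolynomial.C a)] with ω hω
    show (v j).e (algebraMap R K (MvPolynomial.C a)) ω = f j a
    rw [hω]
    show MvPolynomial.eval₂Hom (f j) (fun i : TI => X (c j) (i : ℝ) ω) (MvPolynomial.C a) = f j a
    simp
  -- neighbourhoods of zero
  have hmem : ∀ j (a : F) (U : Set (M j)) (ε : ℝ), 0 < ε → f j a ∈ U → g a ∈ (v j).W U ε := by
    intro j a U ε hε ha
    show mu {ω | (v j).e (g a) ω ∉ U} < ENNReal.ofReal ε
    have : mu {ω | (v j).e (g a) ω ∉ U} = 0 := by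
      rw [measure_eq_zero_iff_ae_notMem]
      filter_upwards [hg j a] with ω hω
      simp only [Set.mem_ofPred_eq, not_not]
      rw [hω]; exact ha
    rw [this]; simpa using hε
  have hmem1 : ∀ j (a : F) (U : Set (M j)), g a ∈ (v j).W U 1 → f j a ∈ U := by
    intro j a U ha
    by_contra hU
    have h1 : mu {ω | (v j).e (g a) ω ∉ U} < ENNReal.ofReal 1 := ha
    have h2 : mu {ω | (v j).e (g a) ω ∉ U} = 1 := by
      rw [← measure_univ (μ := mu)]
      apply measure_congr
      filter_upwards [hg j a] with ω hω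
      apply propext
      constructor
      · intro _; trivial
      · intro _
        show (v j).e (g a) ω ∉ U
        rw [hω]; exact hU
    rw [h2] at h1; simp at h1
  have hcomap : ∀ j, @nhds F (TopologicalSpace.induced (f j) inferInstance) 0 =
      Filter.comap g (@nhds K (τ j) 0) := by
    intro j
    rw [(hIND F (M j) (f j)).2]
    ext S
    constructor
    · rintro ⟨U, hU, hUS⟩
      refine ⟨(v j).W U 1, (hτ0 j _).2 ⟨U, hU, 1, one_pos, subset_rfl⟩, ?_⟩
      intro a ha
      exact hUS (hmem1 j a U ha)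
    · rintro ⟨T, hT, hTS⟩
      obtain ⟨U, hU, ε, hε, hW⟩ := (hτ0 j T).1 hT
      refine ⟨U, hU, ?_⟩
      intro a ha
      exact hTS (hW (hmem j a U ε hε ha))
  have htop : tF = TopologicalSpace.induced g (⨅ j, τ j) := by
    have h1 := hCMP F K J g (fun j => TopologicalSpace.induced (f j) inferInstance) τ
      (fun j => (hIND F (M j) (f j)).1) hτ hcomap
    rw [← h1]; exact hF
  -- the path
  let γ : TI → K := fun t => algebraMap R K (MvPolynomial.X t)
  have hγc : @Continuous TI K _ (⨅ j, τ j) γ := by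
    apply hCTP K J τ hτ γ
    intro j t S hS
    obtain ⟨U, hU, ε, hε, hW⟩ := (hτ0 j S).1 hS
    have h1 := hPTH (M j) (c j) (hc j) U hU ε hε (t : ℝ)
    have h2 := (continuous_subtype_val.tendsto t).eventually h1
    filter_upwards [h2] with s hs
    apply hW
    show mu {ω | (v j).e (γ s - γ t) ω ∉ U} < ENNReal.ofReal ε
    refine lt_of_le_of_lt (le_of_eq ?_) hs
    apply measure_congr
    filter_upwards [hv j (MvPolynomial.X s - MvPolynomial.X t)] with ω hω
    have e1 : γ s - γ t = algebraMap R K (MvPolynomial.X s - MvPolynomial.X t) := by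
      rw [map_sub]
    have e2 : ψ j ω (MvPolynomial.X s - MvPolynomial.X t) =
        X (c j) (s : ℝ) ω - X (c j) (t : ℝ) ω := by
      show MvPolynomial.eval₂Hom (f j) (fun i : TI => X (c j) (i : ℝ) ω)
        (MvPolynomial.X s - MvPolynomial.X t) = _
      rw [map_sub]; simp
    apply propext
    show (v j).e (γ s - γ t) ω ∉ U ↔ X (c j) (s : ℝ) ω - X (c j) (t : ℝ) ω ∉ U
    rw [e1, hω, e2]
  have hγn : ∃ s t, γ s ≠ γ t := by
    refine ⟨⟨1 / 4, by norm_num, by norm_num⟩, ⟨1 / 2, by norm_num, by norm_num⟩, ?_⟩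
    intro h
    have h1 := IsFractionRing.injective R K h
    have h2 := MvPolynomial.X_injective h1
    have h3 := congrArg Subtype.val h2
    norm_num at h3
  have ht2 : @T2Space K (⨅ j, τ j) := by
    apply @hT2 K _ (⨅ j, τ j) hdiv
    obtain ⟨j⟩ := (inferInstance : Nonempty J)
    refine ⟨(v j).W {(1 : M j)}ᶜ 1, ?_, ?_⟩
    · have h1 : (v j).W {(1 : M j)}ᶜ 1 ∈ @nhds K (τ j) 0 :=
        (hτ0 j _).2 ⟨{1}ᶜ, isOpen_compl_singleton.mem_nhds (by simp), 1, one_pos, subset_rfl⟩
      exact nhds_mono (iInf_le τ j) h1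
    · intro h
      have h2 := hmem1 j 1 {1}ᶜ (by rw [map_one]; exact h)
      simp at h2
  refine ⟨K, inferInstance, ⨅ j, τ j, hdiv, ht2, @hCON K _ (⨅ j, τ j) hdiv γ hγc hγn, g, ?_⟩
  letI : TopologicalSpace K := ⨅ j, τ j
  exact ⟨⟨htop⟩, g.injective⟩

end Pool.Agent.H918R5
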