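import Pool.Agent.H918R5.Stubs

set_option autoImplicit false

open MeasureTheory Topology Filter

namespace Pool.Agent.H918R5

theorem t_MEA (hS : StSUM) : StMEA := by
  intro M _ _ _ _ _ _ _ c hc
  have : (uniformity M).IsCountablyGenerated := IsUniformAddGroup.uniformity_countably_generated
  have : TopologicalSpace.PseudoMetrizableSpace M := inferInstance
  have hX : ∀ t : ℝ, StronglyMeasurable (X c t) := by
    intro t
    have h1 : ∀ n : ℕ, StronglyMeasurable
        (fun ω : Om => ∑ i ∈ Finset.range n, (@ite M (ω i < t) (Classical.propDecidable _) (c i) 0)) := by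
      intro n
      refine Finset.stronglyMeasurable_fun_sum _ fun i _ => ?_
      refine StronglyMeasurable.ite ?_ stronglyMeasurable_const stronglyMeasurable_const
      exact measurableSet_lt (measurable_pi_apply i) measurable_const
    refine stronglyMeasurable_of_tendsto atTop h1 ?_
    rw [tendsto_pi_nhds]
    intro ω
    have h2 := (@(hS M c hc).1 (fun i => ω i < t) (fun i => Classical.propDecidable _))
    exact h2.hasSum.tendsto_sum_nat
  refine ⟨hX, ?_⟩
  intro ι t p
  induction p using MvPolynomial.induction_on with
  | C a =>
    simp only [MvPolynomial.eval_C]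
    exact stronglyMeasurable_const
  | add p q hp hq =>
    simp only [map_add]
    exact hp.add hq
  | mul_X p i hp =>
    simp only [map_mul, MvPolynomial.eval_X]
    exact hp.mul (hX (t i))

end Pool.Agent.H918R5
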