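import Pool.Agent.H918R5.Stubs

/-! Task NV1: nonzero polynomials in the path vanish almost nowhere (decreasing times). -/

set_option autoImplicit false

open MeasureTheory Topology Filter

namespace Pool.Agent.H918R5

namespace NV1

/-- the gap below the largest time -/
theorem exists_gap {n : ℕ} (t : Fin (n + 1) → TI) (ht : StrictAnti t) :
    ∃ δ : ℝ, 0 < δ ∧ δ < 1 / 8 ∧ ∀ i : Fin n, ((t i.succ : TI) : ℝ) ≤ (t 0 : ℝ) - δ := by
  cases n with
  | zero => exact ⟨1 / 16, by norm_num, by norm_num, fun i => i.elim0⟩
  | succ m =>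
    have h1 : ((t (Fin.succ 0) : TI) : ℝ) < (t 0 : ℝ) := ht (Fin.succ_pos 0)
    refine ⟨min (1 / 16) ((t 0 : ℝ) - (t (Fin.succ 0) : ℝ)), lt_min (by norm_num) (by linarith),
      lt_of_le_of_lt (min_le_left _ _) (by norm_num), fun i => ?_⟩
    have h2 : ((t i.succ : TI) : ℝ) ≤ (t (Fin.succ 0) : ℝ) :=
      ht.antitone (Fin.succ_le_succ_iff.2 (Fin.zero_le i))
    have h3 : min (1 / 16) ((t 0 : ℝ) - (t (Fin.succ 0) : ℝ)) ≤ (t 0 : ℝ) - (t (Fin.succ 0) : ℝ) :=
      min_le_right _ _
    linarith

end NV1

theorem t_NV1 (hE : StSWE) (hM : StMEA) (hP : StSWP) (hH : StHIT) (hC : StCNT) : StNV1 := by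
  intro M _ _ _ _ _ _ _ c hc n
  have hucg : (uniformity M).IsCountablyGenerated :=
    IsUniformAddGroup.uniformity_countably_generated
  have hmet : TopologicalSpace.MetrizableSpace M := UniformSpace.metrizableSpace
  induction n with
  | zero =>
    intro t _ p hp
    refine Filter.Eventually.of_forall fun ω => ?_
    have h1 := MvPolynomial.eq_C_of_isEmpty p
    intro h2
    apply hp
    rw [h1] at h2
    rw [MvPolynomial.eval_C] at h2
    rw [h1, h2, MvPolynomial.C_0]
  | succ n ih =>
    intro t ht p hp
    set P := MvPolynomial.finSuccEquiv M n p with hPdef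
    have hP0 : P ≠ 0 := by
      intro h
      apply hp
      exact (MvPolynomial.finSuccEquiv M n).injective (by rw [map_zero]; exact h)
    set q := P.leadingCoeff with hq
    have hq0 : q ≠ 0 := Polynomial.leadingCoeff_ne_zero.2 hP0
    have htail : StrictAnti (fun i : Fin n => t i.succ) := fun i j hij =>
      ht (Fin.succ_lt_succ_iff.2 hij)
    have hIH := ih (fun i => t i.succ) htail q hq0
    obtain ⟨δ, hδ0, hδ8, hδ⟩ := NV1.exists_gap t ht
    set a : ℝ := (t 0 : ℝ) with ha
    have ha1 : (1 / 4 : ℝ) ≤ a := (t 0).2.1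
    have ha2 : a ≤ (1 / 2 : ℝ) := (t 0).2.2
    have hma := hM M c hc
    set tl : Om → Fin n → M := fun ω i => X c (t i.succ : ℝ) ω with htl
    have hall : ∀ ω : Om, (fun i : Fin (n + 1) => X c (t i : ℝ) ω)
        = Fin.cons (X c a ω) (tl ω) := by
      intro ω
      funext i
      refine Fin.cases ?_ (fun j => ?_) i
      · rw [Fin.cons_zero]
      · rw [Fin.cons_succ]
    have hf1 : StronglyMeasurable (fun ω => MvPolynomial.eval (tl ω) q) :=
      hma.2 (Fin n) (fun i => (t i.succ : ℝ)) q
    have hf2 : StronglyMeasurable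
        (fun ω => MvPolynomial.eval (fun i : Fin (n + 1) => X c (t i : ℝ) ω) p) :=
      hma.2 (Fin (n + 1)) (fun i => (t i : ℝ)) p
    have hmE : MeasurableSet {ω : Om | MvPolynomial.eval (tl ω) q ≠ 0 ∧
        MvPolynomial.eval (fun i : Fin (n + 1) => X c (t i : ℝ) ω) p = 0} := by
      have e1 : MeasurableSet {ω : Om | MvPolynomial.eval (tl ω) q = 0} :=
        hf1.measurableSet_eq_fun stronglyMeasurable_const
      have e2 : MeasurableSet {ω : Om |
          MvPolynomial.eval (fun i : Fin (n + 1) => X c (t i : ℝ) ω) p = 0} :=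
        hf2.measurableSet_eq_fun stronglyMeasurable_const
      exact e1.compl.inter e2
    have hsw := hE M c hc a δ hδ0
    have hpres := hP a δ hδ0 (by linarith) (by linarith)
    have hinf := hH a δ hδ0 (by linarith) (by linarith)
    have hzero := hC Om mu (fun i => ph a δ i) (fun i => Hi a δ i) _ P.natDegree hmE
      (fun i => (hpres i).1) (fun i => (hpres i).2.1) (fun i ω => (hpres i).2.2 ω) hinf (by
      intro ω s hs
      rcases s.eq_empty_or_nonempty with rfl | ⟨i0, hi0⟩
      · simp
      classical
      have htlω : ∀ i, tl (ph a δ i ω) = tl ω := by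
        intro i
        funext j
        exact (hsw i ω).1 _ (hδ j)
      set Q : Polynomial M := P.map (MvPolynomial.eval (tl ω)) with hQ
      have hqω : MvPolynomial.eval (tl ω) q ≠ 0 := by
        have := (hs i0 hi0).2.1
        rw [htlω i0] at this
        exact this
      have hQ0 : Q ≠ 0 := by
        intro h
        have h1 : Q.coeff P.natDegree = MvPolynomial.eval (tl ω) q := by
          rw [hQ, Polynomial.coeff_map, hq]
          rfl
        rw [h, Polynomial.coeff_zero] at h1
        exact hqω h1.symm
      have hroot : ∀ i ∈ s, X c a (ph a δ i ω) ∈ Q.roots.toFinset := by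
        intro i hi
        rw [Multiset.mem_toFinset, Polynomial.mem_roots hQ0]
        have h1 := (hs i hi).2.2
        rw [hall, MvPolynomial.eval_eq_eval_mv_eval', htlω i] at h1
        exact h1
      have hinj : Set.InjOn (fun i => X c a (ph a δ i ω)) (s : Set ℕ) := by
        intro i hi j hj hij
        by_contra hne
        have hij' : X c a (ph a δ i ω) = X c a (ph a δ j ω) := hij
        have hcc := hc.2.2 i j hne
        rcases (hsw i ω).2 (hs i hi).1 with h1 | h1 <;>
          rcases (hsw j ω).2 (hs j hj).1 with h2 | h2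
        · rw [h1, h2] at hij'
          exact hcc.1 (add_left_cancel hij')
        · rw [h1, h2, sub_eq_add_neg] at hij'
          exact hcc.2 (add_left_cancel hij')
        · rw [h1, h2, sub_eq_add_neg] at hij'
          apply hcc.2
          rw [← add_left_cancel hij', neg_neg]
        · rw [h1, h2, sub_eq_add_neg, sub_eq_add_neg] at hij'
          exact hcc.1 (neg_injective (add_left_cancel hij'))
      calc s.card = (s.image (fun i => X c a (ph a δ i ω))).card :=
            (Finset.card_image_of_injOn hinj).symm
        _ ≤ Q.roots.toFinset.card := by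
            apply Finset.card_le_card
            intro x hx
            obtain ⟨i, hi, rfl⟩ := Finset.mem_image.1 hx
            exact hroot i hi
        _ ≤ Multiset.card Q.roots := Multiset.toFinset_card_le _
        _ ≤ Q.natDegree := Polynomial.card_roots' Q
        _ ≤ P.natDegree := Polynomial.natDegree_map_le)
    have hae : ∀ᵐ ω ∂mu, ¬ (MvPolynomial.eval (tl ω) q ≠ 0 ∧
        MvPolynomial.eval (fun i : Fin (n + 1) => X c (t i : ℝ) ω) p = 0) := by
      rw [ae_iff]
      simpa using hzero
    filter_upwards [hae, hIH] with ω h1 h2 h3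
    exact h1 ⟨h2, h3⟩

end Pool.Agent.H918R5
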