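import Pool.Agent.H918R5.Stubs

set_option autoImplicit false

open MeasureTheory Topology Filter

namespace Pool.Agent.H918R5

theorem t_NV2 (h : StNV1) : StNV2 := by
  intro M _ _ _ _ _ _ _ c hc p hp
  set s : Finset TI := p.vars with hs
  set e : Fin s.card ↪o TI := s.orderEmbOfFin rfl with he
  set t : Fin s.card → TI := fun i => e (Fin.rev i) with ht
  have hanti : StrictAnti t := by
    intro i j hij
    exact e.strictMono (Fin.rev_lt_rev.2 hij)
  have hinj : Function.Injective t := hanti.injective
  have hrange : (↑p.vars : Set TI) ⊆ Set.range t := by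
    intro x hx
    have h1 : x ∈ Set.range e := by
      rw [he, Finset.range_orderEmbOfFin]
      exact hx
    obtain ⟨i, hi⟩ := h1
    exact ⟨Fin.rev i, by rw [ht]; simp only [Fin.rev_rev]; exact hi⟩
  obtain ⟨q, hq⟩ := MvPolynomial.exists_rename_eq_of_vars_subset_range p t hinj hrange
  have hq0 : q ≠ 0 := by
    intro h0
    apply hp
    rw [← hq, h0, map_zero]
  have h2 := h M c hc s.card t hanti q hq0
  filter_upwards [h2] with ω hω
  rw [← hq, MvPolynomial.eval_rename]
  exact hω

end Pool.Agent.H918R5
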