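import Pool.Agent.H918R5.Stubs

set_option autoImplicit false

open MeasureTheory Topology Filter

namespace Pool.Agent.H918R5

namespace PTHaux

lemma mu_le (i : ℕ) (a b : ℝ) :
    mu ((fun ω : Om => ω i) ⁻¹' Set.Ico a b) ≤ ENNReal.ofReal (b - a) := by
  have h1 : MeasurePreserving (fun ω : Om => ω i) mu nu :=
    measurePreserving_eval_infinitePi (fun _ : ℕ => nu) i
  rw [h1.measure_preimage measurableSet_Ico.nullMeasurableSet]
  calc nu (Set.Ico a b) ≤ volume (Set.Ico a b) := Measure.restrict_apply_le _ _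
    _ = ENNReal.ofReal (b - a) := Real.volume_Ico

end PTHaux

theorem t_PTH (hS : StSUM) : StPTH := by
  intro M _ _ _ _ _ _ c hc U hU ε hε t
  obtain ⟨N, hN⟩ := (hS M c hc).2 U hU
  have hmain : ∀ s, mu {ω | X c s ω - X c t ω ∉ U} ≤ N * ENNReal.ofReal |s - t| := by
    intro s
    have hsub : {ω : Om | X c s ω - X c t ω ∉ U} ⊆
        ⋃ i ∈ Finset.range N, (fun ω : Om => ω i) ⁻¹' Set.Ico (min s t) (max s t) := by
      intro ω hω
      by_contra hcon
      apply hω
      unfold X
      refine @hN (fun i => ω i < s) (fun i => ω i < t) (fun _ => _) (fun _ => _) ?_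
      intro i hi
      have h2 : ¬ (min s t ≤ ω i ∧ ω i < max s t) := by
        intro h3
        apply hcon
        simp only [Set.mem_iUnion]
        exact ⟨i, Finset.mem_range.2 hi, h3⟩
      constructor
      · intro h3
        by_contra h4
        exact h2 ⟨(min_le_right _ _).trans (not_lt.1 h4), h3.trans_le (le_max_left _ _)⟩
      · intro h3
        by_contra h4
        exact h2 ⟨(min_le_left _ _).trans (not_lt.1 h4), h3.trans_le (le_max_right _ _)⟩
    calc mu {ω | X c s ω - X c t ω ∉ U}
        ≤ mu (⋃ i ∈ Finset.range N, (fun ω : Om => ω i) ⁻¹' Set.Ico (min s t) (max s t)) :=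
          measure_mono hsub
      _ ≤ ∑ i ∈ Finset.range N, mu ((fun ω : Om => ω i) ⁻¹' Set.Ico (min s t) (max s t)) :=
          measure_biUnion_finset_le _ _
      _ ≤ ∑ _i ∈ Finset.range N, ENNReal.ofReal |s - t| := by
          refine Finset.sum_le_sum fun i _ => ?_
          refine (PTHaux.mu_le i _ _).trans_eq ?_
          rw [max_sub_min_eq_abs']
      _ = N * ENNReal.ofReal |s - t| := by
          rw [Finset.sum_const, Finset.card_range, nsmul_eq_mul]
  have hη : 0 < ε / (N + 1) := by positivity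
  filter_upwards [Metric.ball_mem_nhds t hη] with s hs
  rw [Metric.mem_ball, Real.dist_eq] at hs
  refine (hmain s).trans_lt ?_
  rw [← ENNReal.ofReal_natCast, ← ENNReal.ofReal_mul (Nat.cast_nonneg N)]
  rw [ENNReal.ofReal_lt_ofReal_iff hε]
  have h5 : (0 : ℝ) ≤ N := Nat.cast_nonneg N
  have h6 : |s - t| * (N + 1) < ε := by
    rwa [lt_div_iff₀ (by positivity)] at hs
  nlinarith [abs_nonneg (s - t)]

end Pool.Agent.H918R5
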