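import Pool.Agent.H918R5.Stubs

set_option autoImplicit false

open MeasureTheory Topology Filter

namespace Pool.Agent.H918R5

namespace TSUM

theorem fin_sum {M : Type} [AddCommGroup M] (c : ℕ → M) (p : ℕ → Prop) [DecidablePred p]
    (s : Finset ℕ) : ∑ i ∈ s, (if p i then c i else 0) = ∑ i ∈ s.filter p, c i := by
  rw [Finset.sum_filter]

theorem fin_diff {M : Type} [AddCommGroup M] (c : ℕ → M) (p q : ℕ → Prop) [DecidablePred p]
    [DecidablePred q] (N : ℕ) (h : ∀ i < N, (p i ↔ q i)) (s : Finset ℕ) :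
    ∑ i ∈ s, ((if p i then c i else 0) - (if q i then c i else 0)) =
      ∑ i ∈ (s.filter (fun i => N ≤ i)).filter p, c i -
        ∑ i ∈ (s.filter (fun i => N ≤ i)).filter q, c i := by
  have h1 : ∀ i ∈ s, ((if p i then c i else 0) - (if q i then c i else 0)) =
      (if N ≤ i then (if p i then c i else 0) else 0) -
        (if N ≤ i then (if q i then c i else 0) else 0) := by
    intro i _
    by_cases hi : N ≤ i
    · rw [if_pos hi, if_pos hi]
    · rw [if_neg hi, if_neg hi]
      have h' := h i (not_le.1 hi)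
      by_cases hp : p i
      · rw [if_pos hp, if_pos (h'.1 hp), sub_self, sub_self]
      · rw [if_neg hp, if_neg (fun hq => hp (h'.2 hq))]
  rw [Finset.sum_congr rfl h1, Finset.sum_sub_distrib]
  simp only [Finset.sum_filter]

end TSUM

theorem t_SUM : StSUM := by
  intro M _ _ _ _ _ _ c hc
  have h1 : ∀ p : ℕ → Prop, ∀ [DecidablePred p], Summable (fun i => if p i then c i else 0) := by
    intro p _
    rw [summable_iff_vanishing]
    intro e he
    obtain ⟨N, hN⟩ := hc.1 e he
    refine ⟨Finset.range N, fun t ht => ?_⟩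
    rw [TSUM.fin_sum]
    refine hN _ fun i hi => ?_
    have hi' := (Finset.mem_filter.1 hi).1
    by_contra hlt
    exact (Finset.disjoint_left.1 ht hi') (Finset.mem_range.2 (not_le.1 hlt))
  refine ⟨h1, fun U hU => ?_⟩
  obtain ⟨U', hU', hcl, hsub⟩ := exists_mem_nhds_isClosed_subset hU
  obtain ⟨V, hV, hVV⟩ := exists_nhds_half_neg hU'
  obtain ⟨N, hN⟩ := hc.1 V hV
  refine ⟨N, ?_⟩
  intro p q _ _ hpq
  apply hsub
  have hs := (h1 p).hasSum.sub (h1 q).hasSum
  refine hcl.mem_of_tendsto hs (Filter.Eventually.of_forall fun s => ?_)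
  have e := TSUM.fin_diff c p q N hpq s
  show ∑ i ∈ s, ((if p i then c i else 0) - (if q i then c i else 0)) ∈ U'
  rw [e]
  refine hVV _ (hN _ fun i hi => ?_) _ (hN _ fun i hi => ?_)
  · exact (Finset.mem_filter.1 (Finset.mem_filter.1 hi).1).2
  · exact (Finset.mem_filter.1 (Finset.mem_filter.1 hi).1).2

end Pool.Agent.H918R5
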