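import Mathlib

/-!
# Embedding topological fields in connected topological fields: definitions and statements

`M` is a complete metrizable nondiscrete topological field.  `X c t ω = ∑ c i` over the `i` with
`ω i < t` is a path of random elements of `M`, continuous in measure.  Nonzero polynomials in the
`X c t` vanish almost nowhere, so the field of rational functions in variables indexed by the times
gets a field topology (convergence in measure) in which the variables form a path.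
-/

set_option autoImplicit false

open MeasureTheory Topology Filter

namespace Pool.Agent.H918R5

/-- sample space -/
abbrev Om : Type := ℕ → ℝ

/-- the uniform distribution on `(0, 1]` -/
noncomputable def nu : Measure ℝ := (volume : Measure ℝ).restrict (Set.Ioc 0 1)

instance : IsProbabilityMeasure nu := ⟨by simp [nu]⟩

/-- the product measure -/
noncomputable def mu : Measure Om := Measure.infinitePi (fun _ : ℕ => nu)

instance : IsProbabilityMeasure mu := by unfold mu; infer_instance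

/-- times -/
abbrev TI : Type := Set.Icc (1 / 4 : ℝ) (1 / 2)

section M

variable {M : Type} [Field M] [TopologicalSpace M]

/-- good sequences: all sums over finite sets of large indices are small, and the numbers
`c i, - c i` are different for different indices. -/
def Good (c : ℕ → M) : Prop :=
  (∀ U ∈ 𝓝 (0 : M), ∃ N : ℕ, ∀ s : Finset ℕ, (∀ i ∈ s, N ≤ i) → ∑ i ∈ s, c i ∈ U) ∧
  (∀ i, c i ≠ 0) ∧ (∀ i j, i ≠ j → c i ≠ c j ∧ c i ≠ - c j)

open Classical in
/-- the random path -/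
noncomputable def X (c : ℕ → M) (t : ℝ) (ω : Om) : M := ∑' i, if ω i < t then c i else 0

end M

/-- the interchange of `[a - δ, a)` and `[a, a + δ)` -/
noncomputable def sw (a δ x : ℝ) : ℝ :=
  if a - δ ≤ x ∧ x < a then x + δ else if a ≤ x ∧ x < a + δ then x - δ else x

/-- the interchange in the coordinate number `i` -/
noncomputable def ph (a δ : ℝ) (i : ℕ) (ω : Om) : Om := Function.update ω i (sw a δ (ω i))

/-- `ω i` is in the interval where something happens -/
def Hi (a δ : ℝ) (i : ℕ) : Set Om := {ω | a - δ ≤ ω i ∧ ω i < a + δ}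

/-! ## sequences and sums -/

def StSEQ : Prop := ∀ (M : Type) [Field M] [TopologicalSpace M] [IsTopologicalDivisionRing M]
  [FirstCountableTopology M] [T2Space M], (𝓝[≠] (0 : M)).NeBot → ∃ c : ℕ → M, Good c

/-- subsums converge and the tails are uniformly small -/
def StSUM : Prop := ∀ (M : Type) [Field M] [UniformSpace M] [IsUniformAddGroup M]
  [IsTopologicalDivisionRing M] [CompleteSpace M] [T2Space M] (c : ℕ → M), Good c →
  (∀ p : ℕ → Prop, ∀ [DecidablePred p], Summable (fun i => if p i then c i else 0)) ∧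
  ∀ U ∈ 𝓝 (0 : M), ∃ N : ℕ, ∀ (p q : ℕ → Prop) [DecidablePred p] [DecidablePred q],
    (∀ i < N, (p i ↔ q i)) →
    (∑' i, if p i then c i else 0) - (∑' i, if q i then c i else 0) ∈ U

/-- the path is continuous in measure -/
def StPTH : Prop := ∀ (M : Type) [Field M] [UniformSpace M] [IsUniformAddGroup M]
  [IsTopologicalDivisionRing M] [CompleteSpace M] [T2Space M] (c : ℕ → M), Good c →
  ∀ U ∈ 𝓝 (0 : M), ∀ ε : ℝ, 0 < ε → ∀ t : ℝ, ∀ᶠ s in 𝓝 t,
    mu {ω | X c s ω - X c t ω ∉ U} < ENNReal.ofReal ε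

/-- effect of an interchange -/
def StSWE : Prop := ∀ (M : Type) [Field M] [UniformSpace M] [IsUniformAddGroup M]
  [IsTopologicalDivisionRing M] [CompleteSpace M] [T2Space M] (c : ℕ → M), Good c →
  ∀ (a δ : ℝ), 0 < δ → ∀ (i : ℕ) (ω : Om),
    (∀ t : ℝ, t ≤ a - δ → X c t (ph a δ i ω) = X c t ω) ∧
    (ω ∈ Hi a δ i → X c a (ph a δ i ω) = X c a ω + c i ∨ X c a (ph a δ i ω) = X c a ω - c i)

/-- measurability of the path -/
def StMEA : Prop := ∀ (M : Type) [Field M] [UniformSpace M] [IsUniformAddGroup M]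
  [IsTopologicalDivisionRing M] [CompleteSpace M] [FirstCountableTopology M] [T2Space M]
  (c : ℕ → M), Good c → (∀ t : ℝ, StronglyMeasurable (X c t)) ∧
    ∀ (ι : Type) (t : ι → ℝ) (p : MvPolynomial ι M),
      StronglyMeasurable (fun ω => MvPolynomial.eval (fun i => X c (t i) ω) p)

/-! ## measure -/

def StSWP : Prop := ∀ (a δ : ℝ), 0 < δ → 0 < a - δ → a + δ < 1 → ∀ i : ℕ,
  MeasurePreserving (ph a δ i) mu mu ∧ MeasurableSet (Hi a δ i) ∧
    ∀ ω, ph a δ i ω ∈ Hi a δ i ↔ ω ∈ Hi a δ i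

/-- infinitely many hits -/
def StHIT : Prop := ∀ (a δ : ℝ), 0 < δ → 0 < a - δ → a + δ < 1 →
  ∀ᵐ ω ∂mu, {i : ℕ | ω ∈ Hi a δ i}.Infinite

/-- counting lemma -/
def StCNT : Prop := ∀ (Ω : Type) [MeasurableSpace Ω] (μ : Measure Ω) [IsProbabilityMeasure μ]
  (φ : ℕ → Ω → Ω) (A : ℕ → Set Ω) (E : Set Ω) (d : ℕ), MeasurableSet E →
  (∀ i, MeasurePreserving (φ i) μ μ) → (∀ i, MeasurableSet (A i)) →
  (∀ i ω, φ i ω ∈ A i ↔ ω ∈ A i) → (∀ᵐ ω ∂μ, {i : ℕ | ω ∈ A i}.Infinite) →
  (∀ (ω : Ω) (s : Finset ℕ), (∀ i ∈ s, ω ∈ A i ∧ φ i ω ∈ E) → s.card ≤ d) → μ E = 0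

/-- nonzero polynomials vanish almost nowhere (decreasing times) -/
def StNV1 : Prop := ∀ (M : Type) [Field M] [UniformSpace M] [IsUniformAddGroup M]
  [IsTopologicalDivisionRing M] [CompleteSpace M] [FirstCountableTopology M] [T2Space M]
  (c : ℕ → M), Good c → ∀ (n : ℕ) (t : Fin n → TI), StrictAnti t →
  ∀ p : MvPolynomial (Fin n) M, p ≠ 0 →
    ∀ᵐ ω ∂mu, MvPolynomial.eval (fun i => X c (t i : ℝ) ω) p ≠ 0

/-- nonzero polynomials vanish almost nowhere -/
def StNV2 : Prop := ∀ (M : Type) [Field M] [UniformSpace M] [IsUniformAddGroup M]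
  [IsTopologicalDivisionRing M] [CompleteSpace M] [FirstCountableTopology M] [T2Space M]
  (c : ℕ → M), Good c → ∀ p : MvPolynomial TI M, p ≠ 0 →
    ∀ᵐ ω ∂mu, MvPolynomial.eval (fun i : TI => X c (i : ℝ) ω) p ≠ 0

/-! ## topology -/

/-- almost everywhere evaluations of the field `K` in `M` -/
structure Ev (K M Ω : Type) [Field K] [Field M] [TopologicalSpace M] [MeasurableSpace Ω]
    (μ : Measure Ω) where
  /-- the evaluation -/
  e : K → Ω → M
  add : ∀ z w, ∀ᵐ ω ∂μ, e (z + w) ω = e z ω + e w ω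
  mul : ∀ z w, ∀ᵐ ω ∂μ, e (z * w) ω = e z ω * e w ω
  one : ∀ᵐ ω ∂μ, e 1 ω = 1
  meas : ∀ z, ∀ U : Set M, IsOpen U → NullMeasurableSet {ω | e z ω ∈ U} μ

/-- neighbourhoods of zero for convergence in measure -/
def Ev.W {K M Ω : Type} [Field K] [Field M] [TopologicalSpace M] [MeasurableSpace Ω]
    {μ : Measure Ω} (v : Ev K M Ω μ) (U : Set M) (ε : ℝ) : Set K :=
  {z | μ {ω | v.e z ω ∉ U} < ENNReal.ofReal ε}

/-- zero, negation, nonvanishing -/
def StEV0 : Prop := ∀ (K M Ω : Type) [Field K] [Field M] [TopologicalSpace M]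
  [MeasurableSpace Ω] (μ : Measure Ω) [IsProbabilityMeasure μ] (v : Ev K M Ω μ),
  (∀ᵐ ω ∂μ, v.e 0 ω = 0) ∧ (∀ z, ∀ᵐ ω ∂μ, v.e (-z) ω = - v.e z ω) ∧
  (∀ z, z ≠ 0 → ∀ᵐ ω ∂μ, v.e z ω ≠ 0 ∧ v.e z⁻¹ ω = (v.e z ω)⁻¹)

/-- tightness: multiplication by a fixed element -/
def StTIG : Prop := ∀ (K M Ω : Type) [Field K] [Field M] [TopologicalSpace M]
  [IsTopologicalDivisionRing M] [FirstCountableTopology M] [T2Space M]
  [MeasurableSpace Ω] (μ : Measure Ω) [IsProbabilityMeasure μ] (v : Ev K M Ω μ),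
  ∀ (z : K), ∀ V ∈ 𝓝 (0 : M), ∀ ε : ℝ, 0 < ε → ∃ U ∈ 𝓝 (0 : M),
    μ {ω | ¬ ∀ x ∈ U, v.e z ω * x ∈ V} < ENNReal.ofReal ε

/-- the topology of convergence in measure is a field topology -/
def StTOP : Prop := ∀ (K M Ω : Type) [Field K] [Field M] [TopologicalSpace M]
  [IsTopologicalDivisionRing M] [FirstCountableTopology M] [T2Space M]
  [MeasurableSpace Ω] (μ : Measure Ω) [IsProbabilityMeasure μ] (v : Ev K M Ω μ),
  ∃ τ : TopologicalSpace K, @IsTopologicalDivisionRing K _ τ ∧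
    ∀ S : Set K, S ∈ @nhds K τ 0 ↔ ∃ U ∈ 𝓝 (0 : M), ∃ ε : ℝ, 0 < ε ∧ v.W U ε ⊆ S

/-- evaluations from homomorphisms of a domain -/
def StEVA : Prop := ∀ (R M Ω : Type) [CommRing R] [IsDomain R] [Field M] [UniformSpace M]
  [IsUniformAddGroup M] [IsTopologicalDivisionRing M] [FirstCountableTopology M] [T2Space M]
  [MeasurableSpace Ω] (μ : Measure Ω) [IsProbabilityMeasure μ] (ψ : Ω → R →+* M),
  (∀ p : R, StronglyMeasurable (fun ω => ψ ω p)) → (∀ p : R, p ≠ 0 → ∀ᵐ ω ∂μ, ψ ω p ≠ 0) →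
  ∃ v : Ev (FractionRing R) M Ω μ, ∀ p : R, ∀ᵐ ω ∂μ, v.e (algebraMap R (FractionRing R) p) ω = ψ ω p

/-- suprema of field topologies -/
def StINF : Prop := ∀ (K J : Type) [Field K] (τ : J → TopologicalSpace K),
  (∀ j, @IsTopologicalDivisionRing K _ (τ j)) → @IsTopologicalDivisionRing K _ (⨅ j, τ j)

/-- connectedness from a path -/
def StCON : Prop := ∀ (K : Type) [Field K] [TopologicalSpace K] [IsTopologicalDivisionRing K]
  (γ : TI → K), Continuous γ → (∃ s t, γ s ≠ γ t) → ConnectedSpace K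

/-- comparison of the topologies of fields by neighbourhoods of zero -/
def StCMP : Prop := ∀ (F K J : Type) [Field F] [Field K] (f : F →+* K) (σ : J → TopologicalSpace F)
  (τ : J → TopologicalSpace K), (∀ j, @IsTopologicalDivisionRing F _ (σ j)) →
  (∀ j, @IsTopologicalDivisionRing K _ (τ j)) →
  (∀ j, @nhds F (σ j) 0 = Filter.comap f (@nhds K (τ j) 0)) →
  (⨅ j, σ j) = TopologicalSpace.induced f (⨅ j, τ j)

/-- continuity of a path for the supremum -/
def StCTP : Prop := ∀ (K J : Type) [Field K] (τ : J → TopologicalSpace K),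
  (∀ j, @IsTopologicalDivisionRing K _ (τ j)) → ∀ γ : TI → K,
  (∀ j, ∀ t : TI, ∀ S ∈ @nhds K (τ j) 0, ∀ᶠ s in 𝓝 t, γ s - γ t ∈ S) →
  @Continuous TI K _ (⨅ j, τ j) γ

/-- a field topology in which `1` is not infinitely near `0` is Hausdorff -/
def StT2 : Prop := ∀ (K : Type) [Field K] [TopologicalSpace K] [IsTopologicalDivisionRing K],
  (∃ S ∈ 𝓝 (0 : K), (1 : K) ∉ S) → T2Space K

/-- induced field topologies -/
def StIND : Prop := ∀ (F M : Type) [Field F] [Field M] [TopologicalSpace M]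
  [IsTopologicalDivisionRing M] (f : F →+* M),
  @IsTopologicalDivisionRing F _ (TopologicalSpace.induced f inferInstance) ∧
    @nhds F (TopologicalSpace.induced f inferInstance) 0 = Filter.comap f (𝓝 0)

/-- **the theorem** -/
def StMAIN : Prop := ∀ (F : Type) [Field F] [TopologicalSpace F] (J : Type) [Nonempty J]
  (M : J → Type) [∀ j, Field (M j)] [∀ j, UniformSpace (M j)] [∀ j, IsUniformAddGroup (M j)]
  [∀ j, IsTopologicalDivisionRing (M j)] [∀ j, CompleteSpace (M j)]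
  [∀ j, FirstCountableTopology (M j)] [∀ j, T2Space (M j)],
  (∀ j, (𝓝[≠] (0 : M j)).NeBot) → ∀ f : ∀ j, F →+* M j,
  (inferInstance : TopologicalSpace F) = ⨅ j, TopologicalSpace.induced (f j) inferInstance →
  ∃ (K : Type) (_ : Field K) (_ : TopologicalSpace K), IsTopologicalDivisionRing K ∧ T2Space K ∧
    ConnectedSpace K ∧ ∃ g : F →+* K, Topology.IsEmbedding g

end Pool.Agent.H918R5

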