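import Mathlib
import Pool.Agent.H918R5.Stubs

set_option autoImplicit false

open MeasureTheory Topology Filter

namespace Pool.Agent.H918R5

namespace SWE_

theorem sw_lt {a δ t x : ℝ} (hδ : 0 < δ) (ht : t ≤ a - δ) : sw a δ x < t ↔ x < t := by
  unfold sw
  split_ifs with h1 h2
  · constructor <;> intro h <;> linarith
  · constructor <;> intro h <;> linarith
  · rfl

theorem sw_low {a δ x : ℝ} (h1 : a - δ ≤ x) (h2 : x < a) : ¬ sw a δ x < a := by
  unfold sw
  rw [if_pos ⟨h1, h2⟩]
  linarith

theorem sw_high {a δ x : ℝ} (h1 : a ≤ x) (h2 : x < a + δ) : sw a δ x < a := by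
  unfold sw
  rw [if_neg (by rintro ⟨_, h⟩; linarith), if_pos ⟨h1, h2⟩]
  linarith

end SWE_

theorem t_SWE (hS : StSUM) : StSWE := by
  classical
  intro M _ _ _ _ _ _ c hc a δ hδ i ω
  refine ⟨?_, ?_⟩
  · intro t ht
    unfold X
    refine tsum_congr fun j => ?_
    have hiff : ph a δ i ω j < t ↔ ω j < t := by
      unfold ph
      by_cases hj : j = i
      · subst hj
        rw [Function.update_self]
        exact SWE_.sw_lt hδ ht
      · rw [Function.update_of_ne hj]
    simp only [hiff]
  · intro hi
    have hsum : ∀ ω' : Om, Summable (fun j => @ite M (ω' j < a) (Classical.propDecidable _) (c j) 0) :=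
      fun ω' => @(hS M c hc).1 (fun j => ω' j < a) (fun j => Classical.propDecidable _)
    have hdiff : X c a (ph a δ i ω) - X c a ω =
        (@ite M (ph a δ i ω i < a) (Classical.propDecidable _) (c i) 0) -
          (@ite M (ω i < a) (Classical.propDecidable _) (c i) 0) := by
      unfold X
      rw [← Summable.tsum_sub (hsum _) (hsum _)]
      refine tsum_eq_single i fun j hj => ?_
      have : ph a δ i ω j = ω j := by
        unfold ph
        rw [Function.update_of_ne hj]
      rw [this, sub_self]
    have hii : ph a δ i ω i = sw a δ (ω i) := by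
      unfold ph
      rw [Function.update_self]
    rw [hii] at hdiff
    obtain ⟨h1, h2⟩ := hi
    rcases lt_or_ge (ω i) a with h3 | h3
    · right
      rw [if_neg (SWE_.sw_low h1 h3), if_pos h3, zero_sub] at hdiff
      rw [sub_eq_iff_eq_add.1 hdiff]
      ring
    · left
      rw [if_pos (SWE_.sw_high h3 h2), if_neg (not_lt.2 h3), sub_zero] at hdiff
      rw [sub_eq_iff_eq_add.1 hdiff]
      ring

end Pool.Agent.H918R5
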