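import Pool.Agent.H918R5.Stubs

set_option autoImplicit false

open MeasureTheory Topology Filter

namespace Pool.Agent.H918R5

namespace SWP_

theorem sw_meas (a δ : ℝ) : Measurable (sw a δ) := by
  unfold sw
  refine Measurable.ite ?_ (by fun_prop) (Measurable.ite ?_ (by fun_prop) measurable_id)
  · exact measurableSet_Ico
  · exact measurableSet_Ico

theorem sw_vol (a δ : ℝ) (hδ : 0 < δ) : MeasurePreserving (sw a δ) (volume : Measure ℝ) volume := by
  refine ⟨sw_meas a δ, ?_⟩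
  ext S hS
  rw [Measure.map_apply (sw_meas a δ) hS]
  have hA : MeasurableSet (Set.Ico (a - δ) a) := measurableSet_Ico
  have hB : MeasurableSet (Set.Ico a (a + δ)) := measurableSet_Ico
  have e1 : (sw a δ ⁻¹' S) ∩ Set.Ico (a - δ) a = (fun x => x + δ) ⁻¹' (S ∩ Set.Ico a (a + δ)) := by
    ext x
    simp only [Set.mem_inter_iff, Set.mem_preimage, Set.mem_Ico]
    constructor
    · rintro ⟨h1, h2, h3⟩
      unfold sw at h1
      rw [if_pos ⟨h2, h3⟩] at h1
      exact ⟨h1, by linarith, by linarith⟩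
    · rintro ⟨h1, h2, h3⟩
      have h4 : a - δ ≤ x ∧ x < a := ⟨by linarith, by linarith⟩
      unfold sw
      rw [if_pos h4]
      exact ⟨h1, h4⟩
  have e2 : ((sw a δ ⁻¹' S) \ Set.Ico (a - δ) a) ∩ Set.Ico a (a + δ) =
      (fun x => x + (-δ)) ⁻¹' (S ∩ Set.Ico (a - δ) a) := by
    ext x
    simp only [Set.mem_inter_iff, Set.mem_diff, Set.mem_preimage, Set.mem_Ico]
    constructor
    · rintro ⟨⟨h1, h4⟩, h2, h3⟩
      unfold sw at h1
      rw [if_neg h4, if_pos ⟨h2, h3⟩] at h1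
      exact ⟨h1, by linarith, by linarith⟩
    · rintro ⟨h1, h2, h3⟩
      have h4 : a ≤ x ∧ x < a + δ := ⟨by linarith, by linarith⟩
      have h5 : ¬ (a - δ ≤ x ∧ x < a) := fun h => by linarith [h.2, h4.1]
      unfold sw
      rw [if_neg h5, if_pos h4]
      exact ⟨⟨h1, h5⟩, h4⟩
  have e3 : ((sw a δ ⁻¹' S) \ Set.Ico (a - δ) a) \ Set.Ico a (a + δ) =
      (S \ Set.Ico (a - δ) a) \ Set.Ico a (a + δ) := by
    ext x
    simp only [Set.mem_diff, Set.mem_preimage, Set.mem_Ico]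
    constructor
    · rintro ⟨⟨h1, h4⟩, h5⟩
      unfold sw at h1
      rw [if_neg h4, if_neg h5] at h1
      exact ⟨⟨h1, h4⟩, h5⟩
    · rintro ⟨⟨h1, h4⟩, h5⟩
      unfold sw
      rw [if_neg h4, if_neg h5]
      exact ⟨⟨h1, h4⟩, h5⟩
  have e4 : (S \ Set.Ico (a - δ) a) ∩ Set.Ico a (a + δ) = S ∩ Set.Ico a (a + δ) := by
    ext x
    simp only [Set.mem_diff, Set.mem_inter_iff, Set.mem_Ico]
    constructor
    · rintro ⟨⟨h1, h4⟩, h5⟩
      exact ⟨h1, h5⟩
    · rintro ⟨h1, h5⟩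
      exact ⟨⟨h1, fun h => by linarith [h.2, h5.1]⟩, h5⟩
  rw [← measure_inter_add_diff (sw a δ ⁻¹' S) hA,
    ← measure_inter_add_diff ((sw a δ ⁻¹' S) \ Set.Ico (a - δ) a) hB, e1, e2, e3,
    measure_preimage_add_right, measure_preimage_add_right,
    ← measure_inter_add_diff S hA, ← measure_inter_add_diff (S \ Set.Ico (a - δ) a) hB, e4]
  ring

theorem sw_pre (a δ : ℝ) (hδ : 0 < δ) (h0 : 0 < a - δ) (h1 : a + δ < 1) :
    sw a δ ⁻¹' Set.Ioc 0 1 = Set.Ioc 0 1 := by
  ext x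
  simp only [Set.mem_preimage, Set.mem_Ioc]
  unfold sw
  split_ifs with h2 h3
  · obtain ⟨h4, h5⟩ := h2
    exact ⟨fun _ => ⟨by linarith, by linarith⟩, fun _ => ⟨by linarith, by linarith⟩⟩
  · obtain ⟨h4, h5⟩ := h3
    exact ⟨fun _ => ⟨by linarith, by linarith⟩, fun _ => ⟨by linarith, by linarith⟩⟩
  · exact Iff.rfl

theorem sw_nu (a δ : ℝ) (hδ : 0 < δ) (h0 : 0 < a - δ) (h1 : a + δ < 1) :
    MeasurePreserving (sw a δ) nu nu := by
  have h := (sw_vol a δ hδ).restrict_preimage (measurableSet_Ioc (a := (0 : ℝ)) (b := 1))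
  rw [sw_pre a δ hδ h0 h1] at h
  exact h

theorem ph_eq (a δ : ℝ) (i : ℕ) : ph a δ i =
    fun (ω : Om) (j : ℕ) => (if j = i then sw a δ else id) (ω j) := by
  funext ω j
  unfold ph
  by_cases h : j = i
  · subst h
    simp
  · rw [Function.update_of_ne h, if_neg h]
    rfl

end SWP_

open SWP_ in
theorem t_SWP : StSWP := by
  intro a δ hδ h0 h1 i
  have hf : ∀ j : ℕ, Measurable ((if j = i then sw a δ else id : ℝ → ℝ)) := by
    intro j
    split_ifs
    · exact sw_meas a δ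
    · exact measurable_id
  refine ⟨?_, ?_, ?_⟩
  · rw [ph_eq]
    refine ⟨?_, ?_⟩
    · rw [measurable_pi_iff]
      intro j
      exact (hf j).comp (measurable_pi_apply j)
    · unfold mu
      rw [Measure.infinitePi_map_pi (μ := fun _ : ℕ => nu) (f := fun j => (if j = i then sw a δ else id : ℝ → ℝ)) hf]
      congr 1
      funext j
      split_ifs
      · exact (sw_nu a δ hδ h0 h1).map_eq
      · exact Measure.map_id
  · unfold Hi
    exact (measurable_pi_apply i) measurableSet_Ico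
  · intro ω
    unfold Hi ph
    simp only [Set.mem_setOf_eq, Function.update_self]
    unfold sw
    split_ifs with h2 h3
    · obtain ⟨h4, h5⟩ := h2
      exact ⟨fun _ => ⟨by linarith, by linarith⟩, fun _ => ⟨by linarith, by linarith⟩⟩
    · obtain ⟨h4, h5⟩ := h3
      exact ⟨fun _ => ⟨by linarith, by linarith⟩, fun _ => ⟨by linarith, by linarith⟩⟩
    · exact Iff.rfl

end Pool.Agent.H918R5
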