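import Pool.Agent.H918R5.Stubs

set_option autoImplicit false

open MeasureTheory Topology Filter

namespace Pool.Agent.H918R5

/-- a field topology in which `1` is not infinitely near `0` is Hausdorff -/
theorem t_T2 : StT2 := by
  intro K _ _ _ hS
  obtain ⟨S, hS, h1⟩ := hS
  refine IsTopologicalAddGroup.t2Space_of_zero_sep fun x hx => ?_
  refine ⟨(fun y => x⁻¹ * y) ⁻¹' S, ?_, ?_⟩
  · have hc : Tendsto (fun y : K => x⁻¹ * y) (𝓝 0) (𝓝 (x⁻¹ * 0)) :=
      (continuous_const.mul continuous_id).tendsto 0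
    rw [mul_zero] at hc
    exact hc hS
  · intro h
    apply h1
    have h2 : x⁻¹ * x ∈ S := h
    rwa [inv_mul_cancel₀ hx] at h2

end Pool.Agent.H918R5
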