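import Pool.Agent.H918R5.Stubs

set_option autoImplicit false

open MeasureTheory Topology Filter

namespace Pool.Agent.H918R5

theorem t_TIG : StTIG := by
  intro K M Ω _ _ _ _ _ _ _ μ _ v z V hV ε hε
  obtain ⟨U, hU⟩ := (𝓝 (0 : M)).exists_antitone_basis
  set O : ℕ → Set M := fun m => ⋃₀ {O | IsOpen O ∧ ∀ a ∈ O, ∀ x ∈ U m, a * x ∈ V} with hO
  have hOo : ∀ m, IsOpen (O m) := fun m => isOpen_sUnion fun O hO => hO.1
  have hOm : Monotone O := by
    intro m m' hmm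
    apply Set.sUnion_subset_sUnion
    rintro A ⟨h1, h2⟩
    exact ⟨h1, fun a ha x hx => h2 a ha x (hU.2 hmm hx)⟩
  have hOu : ∀ a : M, ∃ m, a ∈ O m := by
    intro a
    have hc : Tendsto (fun q : M × M => q.1 * q.2) (𝓝 (a, 0)) (𝓝 0) := by
      have h := (continuous_mul (M := M)).tendsto (a, 0)
      simpa using h
    have h1 : (fun q : M × M => q.1 * q.2) ⁻¹' V ∈ 𝓝 (a, (0 : M)) := hc hV
    rw [nhds_prod_eq, Filter.mem_prod_iff] at h1
    obtain ⟨A, hA, B, hB, hAB⟩ := h1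
    obtain ⟨m, hm⟩ := hU.1.mem_iff.1 hB
    refine ⟨m, interior A, ⟨isOpen_interior, fun a' ha' x hx => ?_⟩, mem_interior_iff_mem_nhds.2 hA⟩
    have : (a', x) ∈ A ×ˢ B := ⟨interior_subset ha', hm.2 hx⟩
    exact hAB this
  set S : ℕ → Set Ω := fun m => {ω | v.e z ω ∈ O m}ᶜ with hS
  have hSn : ∀ m, NullMeasurableSet (S m) μ := fun m => (v.meas z (O m) (hOo m)).compl
  have hSa : Antitone S := by
    intro m m' hmm ω hω h
    exact hω (hOm hmm h)
  have hSi : ⋂ m, S m = ∅ := by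
    rw [Set.eq_empty_iff_forall_notMem]
    intro ω hω
    obtain ⟨m, hm⟩ := hOu (v.e z ω)
    exact (Set.mem_iInter.1 hω m) hm
  have ht := tendsto_measure_iInter_atTop hSn hSa ⟨0, measure_ne_top μ _⟩
  rw [hSi, measure_empty] at ht
  have hε' : (0 : ENNReal) < ENNReal.ofReal ε := ENNReal.ofReal_pos.2 hε
  obtain ⟨m, hm⟩ := (ht.eventually (gt_mem_nhds hε')).exists
  refine ⟨U m, hU.1.mem_of_mem trivial, lt_of_le_of_lt (measure_mono ?_) hm⟩
  intro ω hω h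
  apply hω
  obtain ⟨A, ⟨-, h2⟩, h3⟩ := h
  exact fun x hx => h2 _ h3 x hx

end Pool.Agent.H918R5
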