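import Pool.Agent.H918R5.TSEQ
import Pool.Agent.H918R5.TSUM
import Pool.Agent.H918R5.TPTH
import Pool.Agent.H918R5.TSWE
import Pool.Agent.H918R5.TMEA
import Pool.Agent.H918R5.TSWP
import Pool.Agent.H918R5.THIT
import Pool.Agent.H918R5.TCNT
import Pool.Agent.H918R5.TNV1
import Pool.Agent.H918R5.TNV2
import Pool.Agent.H918R5.TEV0
import Pool.Agent.H918R5.TTIG
import Pool.Agent.H918R5.TTOP
import Pool.Agent.H918R5.TEVA
import Pool.Agent.H918R5.TINF
import Pool.Agent.H918R5.TCON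
import Pool.Agent.H918R5.TCMP
import Pool.Agent.H918R5.TCTP
import Pool.Agent.H918R5.TT2
import Pool.Agent.H918R5.TIND
import Pool.Agent.H918R5.TMAIN

/-!
# Connected topological fields: the first theorem
-/

set_option autoImplicit false

namespace Pool.Agent.H918R5

theorem main1 : StMAIN :=
  t_MAIN t_SEQ (t_PTH t_SUM) (t_MEA t_SUM)
    (t_NV2 (t_NV1 (t_SWE t_SUM) (t_MEA t_SUM) t_SWP t_HIT t_CNT)) (t_TOP t_EV0 t_TIG) t_EVA t_INF
    t_CON t_CMP t_CTP t_T2 t_IND

end Pool.Agent.H918R5
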