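import Pool.Agent.H918R5.StubsA

/-!
# Counting lemma, asymptotic version `StCNF`

`H N ω` is the number of `i < N` with `ω ∈ A i`.  The sum of the measures of `E N ∩ A i`, `i < N`,
is at most `d`, so `B * μ (E N ∩ {H N ≥ B}) ≤ d`, and `μ {H N < B}` tends to `0`.
-/

set_option autoImplicit false

open MeasureTheory Topology Filter

namespace Pool.Agent.H918R5

namespace CNFaux

/-- number of hits before time `N` -/
noncomputable def H {Ω : Type} (A : ℕ → Set Ω) (N : ℕ) (ω : Ω) : ENNReal :=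
  ∑ i ∈ Finset.range N, (A i).indicator (fun _ => (1 : ENNReal)) ω

lemma H_meas {Ω : Type} [MeasurableSpace Ω] (A : ℕ → Set Ω) (hA : ∀ i, MeasurableSet (A i))
    (N : ℕ) : Measurable (H A N) := by
  unfold H
  exact Finset.measurable_fun_sum _ fun i _ => measurable_const.indicator (hA i)

lemma H_mono {Ω : Type} (A : ℕ → Set Ω) (ω : Ω) : Monotone (fun N => H A N ω) := by
  intro N M hNM
  exact Finset.sum_le_sum_of_subset (Finset.range_subset_range.2 hNM)

lemma H_large {Ω : Type} (A : ℕ → Set Ω) (ω : Ω) (h : {i : ℕ | ω ∈ A i}.Infinite) (B : ℕ) :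
    ∃ N, (B : ENNReal) ≤ H A N ω := by
  obtain ⟨s, hs, hcard⟩ := h.exists_subset_card_eq B
  refine ⟨s.sup id + 1, ?_⟩
  have h1 : s ⊆ Finset.range (s.sup id + 1) := by
    intro i hi
    rw [Finset.mem_range, Nat.lt_succ_iff]
    exact Finset.le_sup (f := id) hi
  calc (B : ENNReal) = ∑ i ∈ s, (1 : ENNReal) := by
        rw [Finset.sum_const, hcard, nsmul_eq_mul, mul_one]
    _ = ∑ i ∈ s, (A i).indicator (fun _ => (1 : ENNReal)) ω := by
        refine Finset.sum_congr rfl fun i hi => ?_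
        have : ω ∈ A i := hs (Finset.mem_coe.2 hi)
        rw [Set.indicator_of_mem this]
    _ ≤ H A (s.sup id + 1) ω := Finset.sum_le_sum_of_subset h1

lemma H_tendsto {Ω : Type} [MeasurableSpace Ω] (μ : Measure Ω) [IsProbabilityMeasure μ]
    (A : ℕ → Set Ω) (hA : ∀ i, MeasurableSet (A i)) (hinf : ∀ᵐ ω ∂μ, {i : ℕ | ω ∈ A i}.Infinite)
    (B : ℕ) : Tendsto (fun N => μ {ω | H A N ω < B}) atTop (𝓝 0) := by
  have h1 : Tendsto (fun N => μ {ω | H A N ω < B}) atTop (𝓝 (μ (⋂ N, {ω | H A N ω < B}))) := by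
    refine tendsto_measure_iInter_atTop ?_ ?_ ⟨0, measure_ne_top _ _⟩
    · intro N
      exact (measurableSet_lt (H_meas A hA N) measurable_const).nullMeasurableSet
    · intro N M hNM ω hω
      exact lt_of_le_of_lt (H_mono A ω hNM) hω
  have h2 : μ (⋂ N, {ω | H A N ω < B}) = 0 := by
    refine measure_mono_null ?_ (ae_iff.1 hinf)
    intro ω hω hi
    obtain ⟨N, hN⟩ := H_large A ω hi B
    exact absurd (Set.mem_iInter.1 hω N) (not_lt.2 hN)
  rwa [h2] at h1

end CNFaux

open CNFaux

theorem t_CNF : StCNF := by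
  intro Ω _ μ _ φ A E d hE hφ hA hφA hinf hcard
  classical
  have hB : ∀ N i, MeasurableSet (φ i ⁻¹' (E N ∩ A i)) := fun N i =>
    (hφ i).measurable ((hE N).inter (hA i))
  have hsum : ∀ N, ∑ i ∈ Finset.range N, μ (E N ∩ A i) ≤ (d : ENNReal) := by
    intro N
    calc ∑ i ∈ Finset.range N, μ (E N ∩ A i)
        = ∑ i ∈ Finset.range N, μ (φ i ⁻¹' (E N ∩ A i)) := by
          refine Finset.sum_congr rfl fun i _ => ?_
          exact ((hφ i).measure_preimage ((hE N).inter (hA i)).nullMeasurableSet).symm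
      _ = ∑ i ∈ Finset.range N, ∫⁻ ω, (φ i ⁻¹' (E N ∩ A i)).indicator 1 ω ∂μ := by
          refine Finset.sum_congr rfl fun i _ => ?_
          rw [lintegral_indicator_one (hB N i)]
      _ = ∫⁻ ω, ∑ i ∈ Finset.range N, (φ i ⁻¹' (E N ∩ A i)).indicator 1 ω ∂μ := by
          rw [lintegral_finsetSum]
          intro i _
          exact measurable_one.indicator (hB N i)
      _ ≤ ∫⁻ _, (d : ENNReal) ∂μ := by
          refine lintegral_mono fun ω => ?_
          have h1 : ∑ i ∈ Finset.range N, (φ i ⁻¹' (E N ∩ A i)).indicator (1 : Ω → ENNReal) ω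
              = (((Finset.range N).filter fun i => ω ∈ φ i ⁻¹' (E N ∩ A i)).card : ENNReal) := by
            rw [Finset.card_eq_sum_ones, Finset.sum_filter]
            push_cast
            refine Finset.sum_congr rfl fun i _ => ?_
            by_cases h : ω ∈ φ i ⁻¹' (E N ∩ A i)
            · rw [Set.indicator_of_mem h, if_pos h]; rfl
            · rw [Set.indicator_of_notMem h, if_neg h]
          rw [h1]
          have h2 := hcard N ω ((Finset.range N).filter fun i => ω ∈ φ i ⁻¹' (E N ∩ A i)) (by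
            intro i hi
            obtain ⟨h4, h3⟩ := Finset.mem_filter.1 hi
            exact ⟨Finset.mem_range.1 h4, (hφA i ω).1 h3.2, h3.1⟩)
          have h5 : (((Finset.range N).filter fun i => ω ∈ φ i ⁻¹' (E N ∩ A i)).card : ENNReal)
              ≤ (d : ENNReal) := (Nat.cast_le (α := ENNReal)).2 h2
          exact h5
      _ = d := by simp
  have hmark : ∀ (N B : ℕ), (B : ENNReal) * μ (E N ∩ {ω | (B : ENNReal) ≤ H A N ω}) ≤ d := by
    intro N B
    have h1 : ∫⁻ ω, ∑ i ∈ Finset.range N, (E N ∩ A i).indicator (fun _ => (1 : ENNReal)) ω ∂μ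
        = ∑ i ∈ Finset.range N, μ (E N ∩ A i) := by
      rw [lintegral_finsetSum]
      · refine Finset.sum_congr rfl fun i _ => ?_
        rw [lintegral_indicator ((hE N).inter (hA i))]
        simp
      · intro i _
        exact measurable_const.indicator ((hE N).inter (hA i))
    have h2 : Measurable (fun ω => ∑ i ∈ Finset.range N,
        (E N ∩ A i).indicator (fun _ => (1 : ENNReal)) ω) :=
      Finset.measurable_fun_sum _ fun i _ => measurable_const.indicator ((hE N).inter (hA i))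
    have h3 := mul_meas_ge_le_lintegral (μ := μ) h2 (B : ENNReal)
    rw [h1] at h3
    refine le_trans (mul_le_mul_right ?_ _) (h3.trans (hsum N))
    refine measure_mono ?_
    rintro ω ⟨hω1, hω2⟩
    simp only [Set.mem_ofPred_eq] at hω2 ⊢
    refine hω2.trans (le_of_eq ?_)
    unfold H
    refine Finset.sum_congr rfl fun i _ => ?_
    by_cases h : ω ∈ A i
    · have h' : ω ∈ E N ∩ A i := ⟨hω1, h⟩
      rw [Set.indicator_of_mem h, Set.indicator_of_mem h']
    · rw [Set.indicator_of_notMem h, Set.indicator_of_notMem (fun h' => h h'.2)]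
  rw [ENNReal.tendsto_nhds_zero]
  intro ε hε
  have hε2 : 0 < ε / 2 := ENNReal.half_pos hε.ne'
  have hlim : Tendsto (fun n : ℕ => (d : ENNReal) * (n : ENNReal)⁻¹) atTop (𝓝 0) := by
    have := ENNReal.Tendsto.const_mul (a := (d : ENNReal)) ENNReal.tendsto_inv_nat_nhds_zero
      (Or.inr (ENNReal.natCast_ne_top d))
    rwa [mul_zero] at this
  obtain ⟨B, hB1, hB2⟩ := ((ENNReal.tendsto_nhds_zero.1 hlim (ε / 2) hε2).and
    (eventually_ge_atTop 1)).exists
  filter_upwards [ENNReal.tendsto_nhds_zero.1 (H_tendsto μ A hA hinf B) (ε / 2) hε2] with N hN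
  have hBne : (B : ENNReal) ≠ 0 := by
    exact_mod_cast (by omega : B ≠ 0)
  have h5 : μ (E N ∩ {ω | (B : ENNReal) ≤ H A N ω}) ≤ ε / 2 := by
    refine le_trans ?_ hB1
    rw [← div_eq_mul_inv, ENNReal.le_div_iff_mul_le (Or.inl hBne)
      (Or.inl (ENNReal.natCast_ne_top B)), mul_comm]
    exact hmark N B
  calc μ (E N) ≤ μ ((E N ∩ {ω | (B : ENNReal) ≤ H A N ω}) ∪ {ω | H A N ω < B}) := by
        refine measure_mono fun ω hω => ?_
        by_cases h : (B : ENNReal) ≤ H A N ω
        · exact Or.inl ⟨hω, h⟩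
        · exact Or.inr (not_le.1 h)
    _ ≤ μ (E N ∩ {ω | (B : ENNReal) ≤ H A N ω}) + μ {ω | H A N ω < B} := measure_union_le _ _
    _ ≤ ε / 2 + ε / 2 := add_le_add h5 hN
    _ = ε := ENNReal.add_halves ε

end Pool.Agent.H918R5
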