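import Pool.Agent.H918R5.StubsD

/-! DIS: discrete fields embed in complete metrizable nondiscrete fields (Laurent series). -/

set_option autoImplicit false

open MeasureTheory Topology Filter

namespace Pool.Agent.H918R5

namespace DIS

open LaurentSeries WithZero

variable (F : Type) [Field F]

theorem mem_nhds_iff (s : Set (LaurentSeries F)) : s ∈ 𝓝 (0 : LaurentSeries F) ↔
    ∃ n : ℕ, {x : LaurentSeries F | Valued.v x < (exp (-(n : ℤ)) : WithZero (Multiplicative ℤ))}
      ⊆ s := by
  rw [Valued.mem_nhds_zero]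
  constructor
  · rintro ⟨γ, hγ⟩
    set δ : WithZero (Multiplicative ℤ) := MonoidWithZeroHom.ValueGroup₀.embedding γ.1 with hδ
    have hδ0 : δ ≠ 0 := by
      rw [hδ]
      exact (map_ne_zero _).2 γ.ne_zero
    refine ⟨(-(log δ)).toNat, fun x hx => hγ ?_⟩
    change Valued.v.restrict x < _
    rw [Valuation.restrict_lt_iff_lt_embedding]
    refine lt_of_lt_of_le hx ?_
    rw [← hδ, ← exp_log hδ0, exp_le_exp]
    rw [exp_log hδ0]
    omega
  · rintro ⟨n, hn⟩
    have h1 := LaurentSeries.valuation_single_zpow F (n : ℤ)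
    have h2 : Valued.v.restrict (HahnSeries.single (n : ℤ) (1 : F) : LaurentSeries F) ≠ 0 := by
      rw [Ne, Valuation.restrict_eq_zero_iff, h1]
      exact exp_ne_zero
    refine ⟨Units.mk0 _ h2, fun x hx => hn ?_⟩
    change Valued.v x < _
    rw [← h1]
    exact Valuation.restrict_lt_iff _ |>.1 hx

theorem basis : (𝓝 (0 : LaurentSeries F)).HasBasis (fun _ : ℕ => True)
    (fun n => {x : LaurentSeries F |
      Valued.v x < (exp (-(n : ℤ)) : WithZero (Multiplicative ℤ))}) :=
  ⟨fun s => by rw [mem_nhds_iff]; simp⟩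

theorem firstCountable : FirstCountableTopology (LaurentSeries F) := by
  have : (𝓝 (0 : LaurentSeries F)).IsCountablyGenerated :=
    (basis F).isCountablyGenerated
  have := IsUniformAddGroup.uniformity_countably_generated (α := LaurentSeries F)
  exact UniformSpace.firstCountableTopology _

theorem neBot : (𝓝[≠] (0 : LaurentSeries F)).NeBot := by
  rw [(nhdsWithin_hasBasis (basis F) _).neBot_iff]
  intro n _
  refine ⟨(HahnSeries.single ((n + 1 : ℕ) : ℤ) (1 : F) : LaurentSeries F), ?_, ?_⟩
  · change Valued.v (HahnSeries.single ((n + 1 : ℕ) : ℤ) (1 : F) : LaurentSeries F) < _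
    rw [LaurentSeries.valuation_single_zpow, exp_lt_exp]
    push_cast
    omega
  · simp

end DIS

open DIS in
theorem t_DIS : StDIS := by
  intro F _
  refine ⟨LaurentSeries F, inferInstance, inferInstance, inferInstance, inferInstance,
    inferInstance, firstCountable F, inferInstance, neBot F, HahnSeries.C,
    {x : LaurentSeries F | Valued.v x < (WithZero.exp (-((1 : ℕ) : ℤ)) :
      WithZero (Multiplicative ℤ))}, (mem_nhds_iff F _).2 ⟨1, subset_rfl⟩, ?_⟩
  intro a ha
  have h1 := (LaurentSeries.valuation_le_iff_coeff_lt_eq_zero F (D := 1)).1 (le_of_lt ha) 0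
    (by norm_num)
  simpa using h1

end Pool.Agent.H918R5
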