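import Pool.Agent.H918R5.StubsA

/-! Task EAA: existence of the asymptotic evaluations. -/

set_option autoImplicit false

open MeasureTheory Topology Filter

namespace Pool.Agent.H918R5

namespace EAA

/-- numerator -/
noncomputable def nm {R : Type} [CommRing R] [IsDomain R] (z : FractionRing R) : R :=
  (IsLocalization.sec (nonZeroDivisors R) z).1

/-- denominator -/
noncomputable def dn {R : Type} [CommRing R] [IsDomain R] (z : FractionRing R) : R :=
  ((IsLocalization.sec (nonZeroDivisors R) z).2 : R)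

theorem spec {R : Type} [CommRing R] [IsDomain R] (z : FractionRing R) :
    z * algebraMap R (FractionRing R) (dn z) = algebraMap R (FractionRing R) (nm z) :=
  IsLocalization.sec_spec (nonZeroDivisors R) z

theorem dn_ne {R : Type} [CommRing R] [IsDomain R] (z : FractionRing R) : dn z ≠ 0 :=
  nonZeroDivisors.ne_zero (IsLocalization.sec (nonZeroDivisors R) z).2.2

theorem inj {R : Type} [CommRing R] [IsDomain R] {x y : R}
    (h : algebraMap R (FractionRing R) x = algebraMap R (FractionRing R) y) : x = y :=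
  IsFractionRing.injective R (FractionRing R) h

theorem add_id {R : Type} [CommRing R] [IsDomain R] (z w : FractionRing R) :
    nm (z + w) * (dn z * dn w) = dn (z + w) * (nm z * dn w + nm w * dn z) := by
  apply inj
  simp only [map_mul, map_add, ← spec]
  ring

theorem mul_id {R : Type} [CommRing R] [IsDomain R] (z w : FractionRing R) :
    nm (z * w) * (dn z * dn w) = dn (z * w) * (nm z * nm w) := by
  apply inj
  simp only [map_mul, ← spec]
  ring

theorem one_id {R : Type} [CommRing R] [IsDomain R] :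
    nm (1 : FractionRing R) = dn (1 : FractionRing R) := by
  apply inj
  rw [← spec, one_mul]

theorem map_id' {R : Type} [CommRing R] [IsDomain R] (p : R) :
    nm (algebraMap R (FractionRing R) p) = p * dn (algebraMap R (FractionRing R) p) := by
  apply inj
  rw [← spec, map_mul]

variable {F : Type} [Field F]

/-- the evaluation at the point `t ↦ ps c N (act ω t)` -/
noncomputable def ev (c : ℕ → F) (N : ℕ) (ω : Om) : MvPolynomial TI F →+* F :=
  MvPolynomial.eval (fun t : TI => ps c N (act ω (t : ℝ)))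

theorem ev_rename (c : ℕ → F) (N : ℕ) (ω : Om) (n : ℕ) (f : Fin n → TI)
    (p : MvPolynomial (Fin n) F) :
    ev c N ω (MvPolynomial.rename f p) =
      MvPolynomial.eval (fun j => ps c N (act ω (f j : ℝ))) p := by
  unfold ev
  rw [MvPolynomial.eval_rename]
  rfl

/-- finitely many values -/
theorem fin_range (c : ℕ → F) (N : ℕ) (p : MvPolynomial TI F) :
    (Set.range fun ω : Om => ev c N ω p).Finite := by
  classical
  obtain ⟨n, f, -, p', rfl⟩ := MvPolynomial.exists_fin_rename p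
  have h1 : {s : Fin n → Finset ℕ | ∀ j, s j ∈ ((Finset.range N).powerset : Set (Finset ℕ))}.Finite :=
    Set.Finite.pi' (fun _ => Finset.finite_toSet _)
  refine (h1.image (fun s => MvPolynomial.eval (fun j => ∑ i ∈ s j, c i) p')).subset ?_
  rintro _ ⟨ω, rfl⟩
  refine ⟨fun j => (Finset.range N).filter (fun i => i ∈ act ω (f j : ℝ)), ?_, ?_⟩
  · intro j
    simp only [Finset.mem_coe, Finset.mem_powerset]
    exact Finset.filter_subset _ _
  · simp only
    rw [ev_rename]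
    congr 1

theorem tend_sub {S A B C : ℕ → Set Om} (h : ∀ N, S N ⊆ A N ∪ B N ∪ C N)
    (hA : Tendsto (fun N => mu (A N)) atTop (𝓝 0)) (hB : Tendsto (fun N => mu (B N)) atTop (𝓝 0))
    (hC : Tendsto (fun N => mu (C N)) atTop (𝓝 0)) :
    Tendsto (fun N => mu (S N)) atTop (𝓝 0) := by
  have h1 : Tendsto (fun N => mu (A N) + mu (B N) + mu (C N)) atTop (𝓝 0) := by
    simpa using (hA.add hB).add hC
  refine tendsto_of_tendsto_of_tendsto_of_le_of_le tendsto_const_nhds h1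
    (fun N => bot_le) (fun N => ?_)
  calc mu (S N) ≤ mu (A N ∪ B N ∪ C N) := measure_mono (h N)
    _ ≤ mu (A N ∪ B N) + mu (C N) := measure_union_le _ _
    _ ≤ mu (A N) + mu (B N) + mu (C N) := by gcongr; exact measure_union_le _ _

variable [TopologicalSpace F] [IsTopologicalDivisionRing F]

theorem nh_add {V : Set F} (hV : V ∈ 𝓝 (0 : F)) : ∃ V' ∈ 𝓝 (0 : F), ∀ a ∈ V', ∀ b ∈ V',
    ∀ d ∈ V', ∀ e ∈ V', a + b + d + e ∈ V := by
  obtain ⟨V1, hV1, h1⟩ := exists_nhds_zero_half hV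
  obtain ⟨V2, hV2, h2⟩ := exists_nhds_zero_half hV1
  refine ⟨V2, hV2, fun a ha b hb d hd e he => ?_⟩
  rw [add_assoc]
  exact h1 _ (h2 a ha b hb) _ (h2 d hd e he)

theorem nh_mul2 {V : Set F} (hV : V ∈ 𝓝 (0 : F)) : ∃ V' ∈ 𝓝 (0 : F), ∀ a ∈ V', ∀ b ∈ V',
    a * b ∈ V := by
  have hc : Tendsto (fun q : F × F => q.1 * q.2) (𝓝 (0, 0)) (𝓝 0) := by
    have h := (continuous_mul (M := F)).tendsto (0, 0)
    simpa using h
  have h1 : (fun q : F × F => q.1 * q.2) ⁻¹' V ∈ 𝓝 ((0 : F), (0 : F)) := hc hV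
  rw [nhds_prod_eq, Filter.mem_prod_iff] at h1
  obtain ⟨A, hA, B, hB, hAB⟩ := h1
  refine ⟨A ∩ B, inter_mem hA hB, fun a ha b hb => ?_⟩
  exact hAB (show (a, b) ∈ A ×ˢ B from ⟨ha.1, hb.2⟩)

theorem nh_mul3 {V : Set F} (hV : V ∈ 𝓝 (0 : F)) : ∃ V' ∈ 𝓝 (0 : F),
    (∀ a ∈ V', ∀ b ∈ V', a * b ∈ V) ∧ ∀ a ∈ V', ∀ b ∈ V', ∀ d ∈ V', a * b * d ∈ V := by
  obtain ⟨V1, hV1, h1⟩ := nh_mul2 hV
  obtain ⟨V2, hV2, h2⟩ := nh_mul2 hV1
  refine ⟨V1 ∩ V2, inter_mem hV1 hV2, fun a ha b hb => h1 a ha.1 b hb.1, fun a ha b hb d hd => ?_⟩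
  exact h1 _ (h2 a ha.2 b hb.2) d hd.1

theorem nh_const {V : Set F} (hV : V ∈ 𝓝 (0 : F)) (a : F) : {x : F | a * x ∈ V} ∈ 𝓝 (0 : F) := by
  have hc : Tendsto (fun x : F => a * x) (𝓝 0) (𝓝 0) := by
    have h := (continuous_const_mul a).tendsto (0 : F)
    simpa using h
  exact hc hV

end EAA

theorem t_EAA (hS : StSEQA) (hN : StNZ2) : StEAA := by
  intro F _ _ _ _ _ _ hne
  obtain ⟨c, hc, had⟩ := hS F hne
  refine ⟨c, hc, ?_⟩
  have hnz : ∀ p : MvPolynomial TI F, p ≠ 0 →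
      Tendsto (fun N => mu {ω | EAA.ev c N ω p = 0}) atTop (𝓝 0) := hN F c hc.2.1 hc.2.2
  have hd : ∀ z : FractionRing (MvPolynomial TI F),
      Tendsto (fun N => mu {ω | EAA.ev c N ω (EAA.dn z) = 0}) atTop (𝓝 0) :=
    fun z => hnz _ (EAA.dn_ne z)
  have hlin : ∀ p : MvPolynomial TI F, ∀ V ∈ 𝓝 (0 : F), ∃ N0 : ℕ, ∀ N1 N : ℕ, N0 ≤ N1 → N1 ≤ N →
      ∀ ω : Om, EAA.ev c N ω p - EAA.ev c N1 ω p ∈ V ∧ (EAA.ev c N1 ω p ≠ 0 →
        EAA.ev c N ω p ≠ 0 ∧ (EAA.ev c N ω p)⁻¹ - (EAA.ev c N1 ω p)⁻¹ ∈ V) := by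
    intro p V hV
    obtain ⟨n, f, -, p', rfl⟩ := MvPolynomial.exists_fin_rename p
    obtain ⟨N0, hN0⟩ := had n p' V hV
    refine ⟨N0, fun N1 N h1 h2 ω => ?_⟩
    rw [EAA.ev_rename, EAA.ev_rename]
    exact hN0 N1 N h1 h2 (fun j => act ω (f j : ℝ))
  refine ⟨{ e := fun N z ω => EAA.ev c N ω (EAA.nm z) * (EAA.ev c N ω (EAA.dn z))⁻¹
            add := ?_
            mul := ?_
            one := ?_
            tig := ?_ }, ?_⟩
  · intro z w
    refine EAA.tend_sub (fun N ω hω => ?_) (hd z) (hd w) (hd (z + w))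
    by_contra hcon
    simp only [Set.mem_union, Set.mem_setOf_eq, not_or] at hcon hω
    obtain ⟨⟨h1, h2⟩, h3⟩ := hcon
    apply hω
    have h := congrArg (EAA.ev c N ω) (EAA.add_id z w)
    simp only [map_mul, map_add] at h
    field_simp
    linear_combination h
  · intro z w
    refine EAA.tend_sub (fun N ω hω => ?_) (hd z) (hd w) (hd (z * w))
    by_contra hcon
    simp only [Set.mem_union, Set.mem_setOf_eq, not_or] at hcon hω
    obtain ⟨⟨h1, h2⟩, h3⟩ := hcon
    apply hω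
    have h := congrArg (EAA.ev c N ω) (EAA.mul_id z w)
    simp only [map_mul] at h
    field_simp
    linear_combination h
  · refine EAA.tend_sub (fun N ω hω => ?_) (hd 1) (hd 1) (hd 1)
    by_contra hcon
    simp only [Set.mem_union, Set.mem_setOf_eq, not_or] at hcon hω
    apply hω
    rw [EAA.one_id, mul_inv_cancel₀ hcon.2]
  · intro z V hV ε hε
    obtain ⟨V2, hV2, hadd⟩ := EAA.nh_add hV
    obtain ⟨V1, hV1, hm2, hm3⟩ := EAA.nh_mul3 hV2
    obtain ⟨Na, hNa⟩ := hlin (EAA.nm z) V1 hV1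
    obtain ⟨Nb, hNb⟩ := hlin (EAA.dn z) V1 hV1
    have hε' : (0 : ENNReal) < ENNReal.ofReal ε := ENNReal.ofReal_pos.2 hε
    obtain ⟨Nc, hNc⟩ := eventually_atTop.1 ((hd z).eventually (gt_mem_nhds hε'))
    set N1 := max Na (max Nb Nc) with hN1
    have hfa := EAA.fin_range c N1 (EAA.nm z)
    have hfb := EAA.fin_range c N1 (EAA.dn z)
    set RA := Set.range fun ω : Om => EAA.ev c N1 ω (EAA.nm z) with hRA
    set RB := Set.range fun ω : Om => EAA.ev c N1 ω (EAA.dn z) with hRB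
    refine ⟨V1 ∩ ⋂ α ∈ RA, ⋂ β ∈ RB, ({x : F | α * x ∈ V1} ∩ {x : F | β⁻¹ * x ∈ V1} ∩
      {x : F | (α * β⁻¹) * x ∈ V2}), ?_, N1, ?_⟩
    · refine inter_mem hV1 ?_
      rw [Filter.biInter_mem hfa]
      intro α _
      rw [Filter.biInter_mem hfb]
      intro β _
      exact inter_mem (inter_mem (EAA.nh_const hV1 _) (EAA.nh_const hV1 _)) (EAA.nh_const hV2 _)
    · intro N hNN
      have hlt := hNc N1 (le_trans (le_max_right _ _) (le_max_right _ _))
      refine lt_of_le_of_lt (measure_mono ?_) hlt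
      intro ω hω
      by_contra hcon
      simp only [Set.mem_setOf_eq] at hcon hω
      apply hω
      intro x hx
      obtain ⟨hx1, hx2⟩ := hx
      simp only [Set.mem_iInter] at hx2
      obtain ⟨⟨hx3, hx4⟩, hx5⟩ := hx2 (EAA.ev c N1 ω (EAA.nm z)) ⟨ω, rfl⟩
        (EAA.ev c N1 ω (EAA.dn z)) ⟨ω, rfl⟩
      simp only [Set.mem_setOf_eq] at hx3 hx4 hx5
      have hv := (hNa N1 N (le_max_left _ _) hNN ω).1
      obtain ⟨-, hw⟩ := (hNb N1 N (le_trans (le_max_left _ _) (le_max_right _ _)) hNN ω).2 hcon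
      set α := EAA.ev c N1 ω (EAA.nm z)
      set β := (EAA.ev c N1 ω (EAA.dn z))⁻¹
      set v := EAA.ev c N ω (EAA.nm z) - α with hvdef
      set w := (EAA.ev c N ω (EAA.dn z))⁻¹ - β with hwdef
      have e1 : EAA.ev c N ω (EAA.nm z) = α + v := by rw [hvdef]; ring
      have e2 : (EAA.ev c N ω (EAA.dn z))⁻¹ = β + w := by rw [hwdef]; ring
      rw [e1, e2]
      have e3 : (α + v) * (β + w) * x = (α * β) * x + w * (α * x) + v * (β * x) + v * w * x := by
        ring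
      rw [e3]
      exact hadd _ hx5 _ (hm2 _ hw _ hx3) _ (hm2 _ hv _ hx4) _ (hm3 _ hv _ hw _ hx1)
  · intro p
    refine EAA.tend_sub (fun N ω hω => ?_) (hd (algebraMap (MvPolynomial TI F) _ p))
      (hd (algebraMap (MvPolynomial TI F) _ p)) (hd (algebraMap (MvPolynomial TI F) _ p))
    by_contra hcon
    simp only [Set.mem_union, Set.mem_setOf_eq, not_or] at hcon
    apply hω
    show EAA.ev c N ω (EAA.nm _) * (EAA.ev c N ω (EAA.dn _))⁻¹ = EAA.ev c N ω p
    rw [EAA.map_id', map_mul, mul_assoc, mul_inv_cancel₀ hcon.2, mul_one]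

end Pool.Agent.H918R5
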