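import Pool.Agent.H918R5.StubsA

/-!
# Countable topological fields: assembly (helper918)
-/

set_option autoImplicit false

open MeasureTheory Topology Filter

namespace Pool.Agent.H918R5

/-- rational functions in variables indexed by the times -/
abbrev KK (F : Type) [Field F] : Type := FractionRing (MvPolynomial TI F)

/-- constants -/
noncomputable def gg (F : Type) [Field F] : F →+* KK F :=
  (algebraMap (MvPolynomial TI F) (KK F)).comp MvPolynomial.C

/-- the path of the variables -/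
noncomputable def gam (F : Type) [Field F] (t : TI) : KK F :=
  algebraMap (MvPolynomial TI F) (KK F) (MvPolynomial.X t)

/-- a field topology which extends to the rational functions, such that the variables form a
continuous path -/
def ExtT (F : Type) [Field F] (σ : TopologicalSpace F) : Prop :=
  ∃ τ : TopologicalSpace (KK F), @IsTopologicalDivisionRing (KK F) _ τ ∧
    @nhds F σ 0 = Filter.comap (gg F) (@nhds (KK F) τ 0) ∧
    ∀ t : TI, ∀ S ∈ @nhds (KK F) τ 0, ∀ᶠ s in 𝓝 t, gam F s - gam F t ∈ S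

theorem ext_of_countable (hEAA : StEAA) (hTOA : StTOA) (hPTA : StPTA) (F : Type) [Field F]
    [Countable F] [TopologicalSpace F] [IsTopologicalDivisionRing F] [FirstCountableTopology F]
    [T2Space F] (hne : (𝓝[≠] (0 : F)).NeBot) : ExtT F inferInstance := by
  obtain ⟨c, hc, v, hv⟩ := hEAA F hne
  obtain ⟨τ, hτ, hτ0⟩ := hTOA (KK F) F Om mu v
  have hg : ∀ (a : F), Tendsto (fun N => mu {ω | v.e N (gg F a) ω ≠ a}) atTop (𝓝 0) := by
    intro a
    have h := hv (MvPolynomial.C a)
    simp only [MvPolynomial.eval_C] at h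
    exact h
  have hmem : ∀ (a : F) (U : Set F) (ε : ℝ), 0 < ε → a ∈ U → gg F a ∈ v.W U ε := by
    intro a U ε hε ha
    have h1 := (hg a).eventually (gt_mem_nhds (ENNReal.ofReal_pos.2 hε))
    obtain ⟨N0, hN0⟩ := Filter.eventually_atTop.1 h1
    refine ⟨N0, fun N hN => lt_of_le_of_lt (measure_mono ?_) (hN0 N hN)⟩
    intro ω hω heq
    apply hω
    show v.e N (gg F a) ω ∈ U
    rw [heq]; exact ha
  have hmem1 : ∀ (a : F) (U : Set F), gg F a ∈ v.W U (1 / 2) → a ∈ U := by
    intro a U ha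
    by_contra hU
    obtain ⟨N0, hN0⟩ := ha
    have h1 := (hg a).eventually (gt_mem_nhds (ENNReal.ofReal_pos.2 (by norm_num : (0 : ℝ) < 1 / 2)))
    obtain ⟨N1, hN1⟩ := Filter.eventually_atTop.1 h1
    have h2 := hN0 (max N0 N1) (le_max_left _ _)
    have h3 := hN1 (max N0 N1) (le_max_right _ _)
    have h4 : (Set.univ : Set Om) ⊆ {ω | v.e (max N0 N1) (gg F a) ω ∉ U} ∪
        {ω | v.e (max N0 N1) (gg F a) ω ≠ a} := by
      intro ω _
      by_cases h : v.e (max N0 N1) (gg F a) ω = a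
      · left
        show v.e (max N0 N1) (gg F a) ω ∉ U
        rw [h]; exact hU
      · right; exact h
    have h5 : mu (Set.univ : Set Om) < ENNReal.ofReal (1 / 2) + ENNReal.ofReal (1 / 2) :=
      lt_of_le_of_lt ((measure_mono h4).trans (measure_union_le _ _)) (ENNReal.add_lt_add h2 h3)
    rw [measure_univ, ← ENNReal.ofReal_add (by norm_num) (by norm_num)] at h5
    norm_num at h5
  refine ⟨τ, hτ, ?_, ?_⟩
  · ext S
    constructor
    · intro hS
      refine ⟨v.W S (1 / 2), (hτ0 _).2 ⟨S, hS, 1 / 2, by norm_num, subset_rfl⟩, ?_⟩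
      intro a ha
      exact hmem1 a S ha
    · rintro ⟨T, hT, hTS⟩
      obtain ⟨U, hU, ε, hε, hW⟩ := (hτ0 T).1 hT
      refine Filter.mem_of_superset hU ?_
      intro a ha
      exact hTS (hW (hmem a U ε hε ha))
  · intro t S hS
    obtain ⟨U, hU, ε, hε, hW⟩ := (hτ0 S).1 hS
    have h1 := hPTA F c hc U hU (ε / 2) (by positivity) (t : ℝ)
    have h2 := (continuous_subtype_val.tendsto t).eventually h1
    filter_upwards [h2] with s hs
    apply hW
    have h3 := (hv (MvPolynomial.X s - MvPolynomial.X t)).eventually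
      (gt_mem_nhds (ENNReal.ofReal_pos.2 (by positivity : 0 < ε / 2)))
    obtain ⟨N0, hN0⟩ := Filter.eventually_atTop.1 h3
    refine ⟨N0, fun N hN => ?_⟩
    have h4 := hs N
    have h5 := hN0 N hN
    have e1 : gam F s - gam F t = algebraMap (MvPolynomial TI F) (KK F)
        (MvPolynomial.X s - MvPolynomial.X t) := by
      rw [map_sub]; rfl
    have h6 : {ω | v.e N (gam F s - gam F t) ω ∉ U} ⊆
        {ω | ps c N (act ω (s : ℝ)) - ps c N (act ω (t : ℝ)) ∉ U} ∪
        {ω | v.e N (algebraMap (MvPolynomial TI F) (KK F)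
            (MvPolynomial.X s - MvPolynomial.X t)) ω ≠
          MvPolynomial.eval (fun t : TI => ps c N (act ω (t : ℝ)))
            (MvPolynomial.X s - MvPolynomial.X t)} := by
      intro ω hω
      by_cases h : v.e N (algebraMap (MvPolynomial TI F) (KK F)
            (MvPolynomial.X s - MvPolynomial.X t)) ω =
          MvPolynomial.eval (fun t : TI => ps c N (act ω (t : ℝ)))
            (MvPolynomial.X s - MvPolynomial.X t)
      · left
        have h7 : v.e N (gam F s - gam F t) ω ∉ U := hω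
        rw [e1, h] at h7
        simpa using h7
      · right; exact h
    calc mu {ω | v.e N (gam F s - gam F t) ω ∉ U} ≤ _ :=
          (measure_mono h6).trans (measure_union_le _ _)
      _ < ENNReal.ofReal (ε / 2) + ENNReal.ofReal (ε / 2) := ENNReal.add_lt_add h4 h5
      _ = ENNReal.ofReal ε := by
        rw [← ENNReal.ofReal_add (by positivity) (by positivity)]; congr 1; ring

/-- suprema of field topologies which extend -/
theorem conn_of_ext (hINF : StINF) (hCON : StCON) (hCMP : StCMP) (hCTP : StCTP) (hT2 : StT2)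
    (F : Type) [Field F] (tF : TopologicalSpace F) (hT2F : T2Space F) (J : Type)
    (σ : J → TopologicalSpace F) (hσdiv : ∀ j, @IsTopologicalDivisionRing F _ (σ j))
    (hσ : ∀ j, ExtT F (σ j)) (hF : tF = ⨅ j, σ j) :
    ∃ (K : Type) (_ : Field K) (_ : TopologicalSpace K), IsTopologicalDivisionRing K ∧ T2Space K ∧
      ConnectedSpace K ∧ ∃ g : F →+* K, Topology.IsEmbedding g := by
  choose τ hτ hcomap hpath using hσ
  have hdiv : @IsTopologicalDivisionRing (KK F) _ (⨅ j, τ j) := hINF (KK F) J τ hτ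
  have htop : tF = TopologicalSpace.induced (gg F) (⨅ j, τ j) := by
    have h1 := hCMP F (KK F) J (gg F) σ τ hσdiv hτ hcomap
    rw [← h1]; exact hF
  have hγc : @Continuous TI (KK F) _ (⨅ j, τ j) (gam F) :=
    hCTP (KK F) J τ hτ (gam F) (fun j t S hS => hpath j t S hS)
  have hγn : ∃ s t, gam F s ≠ gam F t := by
    refine ⟨⟨1 / 4, by norm_num, by norm_num⟩, ⟨1 / 2, by norm_num, by norm_num⟩, ?_⟩
    intro h
    have h1 := IsFractionRing.injective (MvPolynomial TI F) (KK F) h
    have h2 := MvPolynomial.X_injective h1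
    have h3 := congrArg Subtype.val h2
    norm_num at h3
  have ht2 : @T2Space (KK F) (⨅ j, τ j) := by
    apply @hT2 (KK F) _ (⨅ j, τ j) hdiv
    have h1 : {(1 : F)}ᶜ ∈ 𝓝 (0 : F) := isOpen_compl_singleton.mem_nhds (by simp)
    have h1' : @nhds F tF 0 = Filter.comap (gg F) (@nhds (KK F) (⨅ j, τ j) 0) := by
      have h5 := @nhds_induced (KK F) F (⨅ j, τ j) (gg F) 0
      rw [← htop, map_zero] at h5
      exact h5
    rw [h1'] at h1
    obtain ⟨S, hS, hS1⟩ := h1
    refine ⟨S, hS, fun h => ?_⟩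
    have h2 : (1 : F) ∈ gg F ⁻¹' S := by
      show gg F 1 ∈ S
      rw [map_one]; exact h
    exact hS1 h2 rfl
  refine ⟨KK F, inferInstance, ⨅ j, τ j, hdiv, ht2, @hCON (KK F) _ (⨅ j, τ j) hdiv (gam F) hγc hγn,
    gg F, ?_⟩
  let _ : TopologicalSpace (KK F) := ⨅ j, τ j
  exact ⟨⟨htop⟩, (gg F).injective⟩

theorem t_MAINA (hMET : StMET) (hEAA : StEAA) (hTOA : StTOA) (hPTA : StPTA) (hINF : StINF)
    (hCON : StCON) (hCMP : StCMP) (hCTP : StCTP) (hT2 : StT2) : StMAINA := by
  intro F _ _ tF hdivF hT2F hne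
  classical
  let J : Type := {U : Set F // U ∈ 𝓝 (0 : F) ∧ (1 : F) ∉ U}
  choose σ hσdiv hσfc hσle hσU using fun j : J => hMET F tF hdivF j.1 j.2.1
  have hσT2 : ∀ j, @T2Space F (σ j) := fun j => @hT2 F _ (σ j) (hσdiv j) ⟨j.1, hσU j, j.2.2⟩
  have hσne : ∀ j, (@nhdsWithin F (σ j) 0 {(0 : F)}ᶜ).NeBot := by
    intro j
    exact Filter.NeBot.mono hne (inf_le_inf_right _ (nhds_mono (hσle j)))
  have hext : ∀ j, ExtT F (σ j) := fun j =>
    @ext_of_countable hEAA hTOA hPTA F _ _ (σ j) (hσdiv j) (hσfc j) (hσT2 j) (hσne j)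
  have htF : tF = ⨅ j, σ j := by
    have hd : @IsTopologicalDivisionRing F _ (⨅ j, σ j) := hINF F J σ hσdiv
    have hg1 : @IsTopologicalAddGroup F tF _ := inferInstance
    have hg2 : @IsTopologicalAddGroup F (⨅ j, σ j) _ :=
      @IsTopologicalRing.to_topologicalAddGroup F _ (⨅ j, σ j) (@IsTopologicalDivisionRing.toIsTopologicalRing F _ (⨅ j, σ j) hd)
    refine IsTopologicalAddGroup.ext hg1 hg2 ?_
    apply le_antisymm
    · exact nhds_mono (le_iInf hσle)
    · intro S hS
      have hU : S ∩ {(1 : F)}ᶜ ∈ @nhds F tF 0 :=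
        Filter.inter_mem hS (isOpen_compl_singleton.mem_nhds (by simp))
      have h1 : S ∩ {(1 : F)}ᶜ ∈ @nhds F (σ ⟨S ∩ {(1 : F)}ᶜ, hU, by simp⟩) 0 :=
        hσU ⟨S ∩ {(1 : F)}ᶜ, hU, by simp⟩
      have h2 := nhds_mono (iInf_le σ ⟨S ∩ {(1 : F)}ᶜ, hU, by simp⟩) h1
      exact Filter.mem_of_superset h2 Set.inter_subset_left
  exact conn_of_ext hINF hCON hCMP hCTP hT2 F tF hT2F J σ hσdiv hext htF

end Pool.Agent.H918R5
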