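import Pool.Agent.H918R5.Stubs

/-!
# Countable topological fields: definitions and statements
-/

set_option autoImplicit false

open MeasureTheory Topology Filter

namespace Pool.Agent.H918R5

open Classical in
/-- finite sums of the terms number `i < N` in the set `A` -/
noncomputable def ps {F : Type} [Field F] (c : ℕ → F) (N : ℕ) (A : Set ℕ) : F :=
  ∑ i ∈ (Finset.range N).filter (fun i => i ∈ A), c i

/-- the indices which are active at time `t` -/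
def act (ω : Om) (t : ℝ) : Set ℕ := {i | ω i < t}

/-- coarser first countable field topologies -/
def StMET : Prop := ∀ (F : Type) [Field F] [Countable F] (τ : TopologicalSpace F),
  @IsTopologicalDivisionRing F _ τ → ∀ U ∈ @nhds F τ 0,
  ∃ σ : TopologicalSpace F, @IsTopologicalDivisionRing F _ σ ∧ @FirstCountableTopology F σ ∧
    τ ≤ σ ∧ U ∈ @nhds F σ 0

/-- adapted sequences -/
def StSEQA : Prop := ∀ (F : Type) [Field F] [Countable F] [TopologicalSpace F]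
  [IsTopologicalDivisionRing F] [FirstCountableTopology F] [T2Space F], (𝓝[≠] (0 : F)).NeBot →
  ∃ c : ℕ → F, Good c ∧ ∀ (n : ℕ) (p : MvPolynomial (Fin n) F), ∀ V ∈ 𝓝 (0 : F), ∃ N0 : ℕ,
    ∀ N1 N : ℕ, N0 ≤ N1 → N1 ≤ N → ∀ A : Fin n → Set ℕ,
      MvPolynomial.eval (fun j => ps c N (A j)) p - MvPolynomial.eval (fun j => ps c N1 (A j)) p ∈ V ∧
      (MvPolynomial.eval (fun j => ps c N1 (A j)) p ≠ 0 →
        MvPolynomial.eval (fun j => ps c N (A j)) p ≠ 0 ∧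
        (MvPolynomial.eval (fun j => ps c N (A j)) p)⁻¹ -
          (MvPolynomial.eval (fun j => ps c N1 (A j)) p)⁻¹ ∈ V)

/-- counting lemma, asymptotic version -/
def StCNF : Prop := ∀ (Ω : Type) [MeasurableSpace Ω] (μ : Measure Ω) [IsProbabilityMeasure μ]
  (φ : ℕ → Ω → Ω) (A : ℕ → Set Ω) (E : ℕ → Set Ω) (d : ℕ), (∀ N, MeasurableSet (E N)) →
  (∀ i, MeasurePreserving (φ i) μ μ) → (∀ i, MeasurableSet (A i)) →
  (∀ i ω, φ i ω ∈ A i ↔ ω ∈ A i) → (∀ᵐ ω ∂μ, {i : ℕ | ω ∈ A i}.Infinite) →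
  (∀ (N : ℕ) (ω : Ω) (s : Finset ℕ), (∀ i ∈ s, i < N ∧ ω ∈ A i ∧ φ i ω ∈ E N) → s.card ≤ d) →
  Tendsto (fun N => μ (E N)) atTop (𝓝 0)

/-- nonzero polynomials vanish with small probability (decreasing times) -/
def StNZ1 : Prop := ∀ (F : Type) [Field F] (c : ℕ → F), (∀ i, c i ≠ 0) →
  (∀ i j, i ≠ j → c i ≠ c j ∧ c i ≠ - c j) → ∀ (n : ℕ) (t : Fin n → TI), StrictAnti t →
  ∀ p : MvPolynomial (Fin n) F, p ≠ 0 →
    Tendsto (fun N => mu {ω | MvPolynomial.eval (fun j => ps c N (act ω (t j : ℝ))) p = 0})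
      atTop (𝓝 0)

/-- nonzero polynomials vanish with small probability -/
def StNZ2 : Prop := ∀ (F : Type) [Field F] (c : ℕ → F), (∀ i, c i ≠ 0) →
  (∀ i j, i ≠ j → c i ≠ c j ∧ c i ≠ - c j) → ∀ p : MvPolynomial TI F, p ≠ 0 →
    Tendsto (fun N => mu {ω | MvPolynomial.eval (fun t : TI => ps c N (act ω (t : ℝ))) p = 0})
      atTop (𝓝 0)

/-- the path is continuous in measure -/
def StPTA : Prop := ∀ (F : Type) [Field F] [TopologicalSpace F] [IsTopologicalDivisionRing F]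
  (c : ℕ → F), Good c → ∀ U ∈ 𝓝 (0 : F), ∀ ε : ℝ, 0 < ε → ∀ t : ℝ, ∀ᶠ s in 𝓝 t, ∀ N : ℕ,
    mu {ω | ps c N (act ω s) - ps c N (act ω t) ∉ U} < ENNReal.ofReal ε

/-- asymptotic evaluations of the field `K` in the topological field `F` -/
structure Ea (K F Ω : Type) [Field K] [Field F] [TopologicalSpace F] [MeasurableSpace Ω]
    (μ : Measure Ω) where
  /-- the evaluations -/
  e : ℕ → K → Ω → F
  add : ∀ z w, Tendsto (fun N => μ {ω | e N (z + w) ω ≠ e N z ω + e N w ω}) atTop (𝓝 0)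
  mul : ∀ z w, Tendsto (fun N => μ {ω | e N (z * w) ω ≠ e N z ω * e N w ω}) atTop (𝓝 0)
  one : Tendsto (fun N => μ {ω | e N 1 ω ≠ 1}) atTop (𝓝 0)
  tig : ∀ (z : K), ∀ V ∈ 𝓝 (0 : F), ∀ ε : ℝ, 0 < ε → ∃ U ∈ 𝓝 (0 : F), ∃ N0 : ℕ, ∀ N ≥ N0,
    μ {ω | ¬ ∀ x ∈ U, e N z ω * x ∈ V} < ENNReal.ofReal ε

/-- neighbourhoods of zero -/
def Ea.W {K F Ω : Type} [Field K] [Field F] [TopologicalSpace F] [MeasurableSpace Ω]
    {μ : Measure Ω} (v : Ea K F Ω μ) (U : Set F) (ε : ℝ) : Set K :=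
  {z | ∃ N0 : ℕ, ∀ N ≥ N0, μ {ω | v.e N z ω ∉ U} < ENNReal.ofReal ε}

def StTOA : Prop := ∀ (K F Ω : Type) [Field K] [Field F] [TopologicalSpace F]
  [IsTopologicalDivisionRing F] [T2Space F]
  [MeasurableSpace Ω] (μ : Measure Ω) [IsProbabilityMeasure μ] (v : Ea K F Ω μ),
  ∃ τ : TopologicalSpace K, @IsTopologicalDivisionRing K _ τ ∧
    ∀ S : Set K, S ∈ @nhds K τ 0 ↔ ∃ U ∈ 𝓝 (0 : F), ∃ ε : ℝ, 0 < ε ∧ v.W U ε ⊆ S

/-- existence of the asymptotic evaluations -/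
def StEAA : Prop := ∀ (F : Type) [Field F] [Countable F] [TopologicalSpace F]
  [IsTopologicalDivisionRing F] [FirstCountableTopology F] [T2Space F], (𝓝[≠] (0 : F)).NeBot →
  ∃ c : ℕ → F, Good c ∧ ∃ v : Ea (FractionRing (MvPolynomial TI F)) F Om mu,
    ∀ p : MvPolynomial TI F, Tendsto (fun N => mu {ω |
      v.e N (algebraMap (MvPolynomial TI F) (FractionRing (MvPolynomial TI F)) p) ω ≠
        MvPolynomial.eval (fun t : TI => ps c N (act ω (t : ℝ))) p}) atTop (𝓝 0)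

/-- **the theorem for countable fields** -/
def StMAINA : Prop := ∀ (F : Type) [Field F] [Countable F] [TopologicalSpace F]
  [IsTopologicalDivisionRing F] [T2Space F], (𝓝[≠] (0 : F)).NeBot →
  ∃ (K : Type) (_ : Field K) (_ : TopologicalSpace K), IsTopologicalDivisionRing K ∧ T2Space K ∧
    ConnectedSpace K ∧ ∃ g : F →+* K, Topology.IsEmbedding g

end Pool.Agent.H918R5
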