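import Mathlib
import Pool.Agent.H918R5.StubsA

/-!
# Coarser first countable field topologies
-/

set_option autoImplicit false

open MeasureTheory Topology Filter

namespace Pool.Agent.H918R5

namespace METx

theorem step (F : Type) [Field F] [TopologicalSpace F] [IsTopologicalDivisionRing F] (a : ℕ → F)
    (n : ℕ) (V : Set F) (hV : V ∈ 𝓝 (0 : F)) :
    ∃ V' : Set F, V' ∈ 𝓝 (0 : F) ∧ V' ⊆ V ∧ (∀ x ∈ V', ∀ y ∈ V', x + y ∈ V) ∧
      (∀ x ∈ V', ∀ y ∈ V', x * y ∈ V) ∧ (∀ x ∈ V', -x ∈ V) ∧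
      (∀ k ≤ n, ∀ x ∈ V', a k * x ∈ V) ∧ ∀ x ∈ V', (1 + x)⁻¹ - 1 ∈ V := by
  obtain ⟨V1, h1, h1'⟩ := exists_nhds_zero_half hV
  have hm : (fun p : F × F => p.1 * p.2) ⁻¹' V ∈ 𝓝 ((0 : F), (0 : F)) := by
    apply continuous_mul.continuousAt.preimage_mem_nhds
    rw [mul_zero]
    exact hV
  rw [nhds_prod_eq, mem_prod_self_iff] at hm
  obtain ⟨V2, h2, h2'⟩ := hm
  have h3 : (fun x : F => -x) ⁻¹' V ∈ 𝓝 (0 : F) := by
    apply continuous_neg.continuousAt.preimage_mem_nhds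
    rw [neg_zero]
    exact hV
  have h4 : (⋂ k ∈ Finset.range (n + 1), (fun x : F => a k * x) ⁻¹' V) ∈ 𝓝 (0 : F) := by
    rw [Filter.biInter_finset_mem]
    intro k _
    apply (continuous_const.mul continuous_id).continuousAt.preimage_mem_nhds
    change V ∈ 𝓝 (a k * 0)
    rw [mul_zero]
    exact hV
  have h5 : (fun x : F => (1 + x)⁻¹ - 1) ⁻¹' V ∈ 𝓝 (0 : F) := by
    have hc : ContinuousAt (fun x : F => (1 + x)⁻¹ - 1) 0 := by
      apply ContinuousAt.sub _ continuousAt_const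
      apply ContinuousAt.inv₀
      · exact (continuous_const.add continuous_id).continuousAt
      · simp
    apply hc.preimage_mem_nhds
    simpa using hV
  refine ⟨V ∩ V1 ∩ V2 ∩ (fun x : F => -x) ⁻¹' V ∩
    (⋂ k ∈ Finset.range (n + 1), (fun x : F => a k * x) ⁻¹' V) ∩
    (fun x : F => (1 + x)⁻¹ - 1) ⁻¹' V,
    inter_mem (inter_mem (inter_mem (inter_mem (inter_mem hV h1) h2) h3) h4) h5, ?_, ?_, ?_, ?_,
    ?_, ?_⟩
  · intro x hx
    exact hx.1.1.1.1.1
  · intro x hx y hy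
    exact h1' _ hx.1.1.1.1.2 _ hy.1.1.1.1.2
  · intro x hx y hy
    exact h2' (Set.mk_mem_prod hx.1.1.1.2 hy.1.1.1.2)
  · intro x hx
    exact hx.1.1.2
  · intro k hk x hx
    have := hx.1.2
    rw [Set.mem_iInter₂] at this
    exact this k (Finset.mem_range.2 (by omega))
  · intro x hx
    exact hx.2

/-- the properties of the sequence of neighbourhoods -/
structure Sq {F : Type} [Field F] (a : ℕ → F) (W : ℕ → Set F) : Prop where
  zero : ∀ n, (0 : F) ∈ W n
  sub : ∀ n, W (n + 1) ⊆ W n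
  add : ∀ n, ∀ x ∈ W (n + 1), ∀ y ∈ W (n + 1), x + y ∈ W n
  mul : ∀ n, ∀ x ∈ W (n + 1), ∀ y ∈ W (n + 1), x * y ∈ W n
  neg : ∀ n, ∀ x ∈ W (n + 1), -x ∈ W n
  con : ∀ n, ∀ k ≤ n, ∀ x ∈ W (n + 1), a k * x ∈ W n
  inv : ∀ n, ∀ x ∈ W (n + 1), (1 + x)⁻¹ - 1 ∈ W n

theorem seq (F : Type) [Field F] [TopologicalSpace F] [IsTopologicalDivisionRing F] (a : ℕ → F)
    (U : Set F) (hU : U ∈ 𝓝 (0 : F)) : ∃ W : ℕ → Set F, W 0 = U ∧ (∀ n, W n ∈ 𝓝 (0 : F)) ∧
      Sq a W := by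
  choose! f hf using step F a
  let W : ℕ → Set F := fun n => Nat.rec U (fun n V => f n V) n
  have hW : ∀ n, W n ∈ 𝓝 (0 : F) := by
    intro n
    induction n with
    | zero => exact hU
    | succ n ih => exact (hf n (W n) ih).1
  exact ⟨W, rfl, hW, ⟨fun n => mem_of_mem_nhds (hW n), fun n => (hf n (W n) (hW n)).2.1,
    fun n => (hf n (W n) (hW n)).2.2.1, fun n => (hf n (W n) (hW n)).2.2.2.1,
    fun n => (hf n (W n) (hW n)).2.2.2.2.1, fun n => (hf n (W n) (hW n)).2.2.2.2.2.1,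
    fun n => (hf n (W n) (hW n)).2.2.2.2.2.2⟩⟩

/-- the filter basis -/
def basis {F : Type} [Field F] (a : ℕ → F) (ha : Function.Surjective a) (W : ℕ → Set F)
    (h : Sq a W) : RingFilterBasis F where
  sets := Set.range W
  nonempty := ⟨_, 0, rfl⟩
  inter_sets := by
    rintro _ _ ⟨m, rfl⟩ ⟨n, rfl⟩
    refine ⟨_, ⟨max m n, rfl⟩, Set.subset_inter ?_ ?_⟩
    · exact antitone_nat_of_succ_le h.sub (le_max_left _ _)
    · exact antitone_nat_of_succ_le h.sub (le_max_right _ _)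
  zero' := by
    rintro _ ⟨n, rfl⟩
    exact h.zero n
  add' := by
    rintro _ ⟨n, rfl⟩
    refine ⟨_, ⟨n + 1, rfl⟩, ?_⟩
    intro y hy
    rw [Set.mem_add] at hy
    obtain ⟨z, hz, w, hw, rfl⟩ := hy
    exact h.add n z hz w hw
  neg' := by
    rintro _ ⟨n, rfl⟩
    exact ⟨_, ⟨n + 1, rfl⟩, fun x hx => h.neg n x hx⟩
  conj' := by
    intro x0 U hU
    refine ⟨U, hU, ?_⟩
    intro x hx
    simpa using hx
  mul' := by
    rintro _ ⟨n, rfl⟩
    refine ⟨_, ⟨n + 1, rfl⟩, ?_⟩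
    intro y hy
    rw [Set.mem_mul] at hy
    obtain ⟨z, hz, w, hw, rfl⟩ := hy
    exact h.mul n z hz w hw
  mul_left' := by
    rintro x0 _ ⟨n, rfl⟩
    obtain ⟨k, rfl⟩ := ha x0
    refine ⟨_, ⟨max n k + 1, rfl⟩, fun x hx => ?_⟩
    exact antitone_nat_of_succ_le h.sub (le_max_left n k) (h.con _ k (le_max_right _ _) x hx)
  mul_right' := by
    rintro x0 _ ⟨n, rfl⟩
    obtain ⟨k, rfl⟩ := ha x0
    refine ⟨_, ⟨max n k + 1, rfl⟩, fun x hx => ?_⟩
    change x * a k ∈ W n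
    rw [mul_comm]
    exact antitone_nat_of_succ_le h.sub (le_max_left n k) (h.con _ k (le_max_right _ _) x hx)

theorem nhds_eq {F : Type} [Field F] (τ : TopologicalSpace F) (h : @IsTopologicalRing F τ _)
    (x : F) : @nhds F τ x = comap (fun y => y - x) (@nhds F τ 0) := by
  letI := τ
  haveI := h
  exact (nhds_translation_sub x).symm

end METx

open METx in
theorem t_MET : StMET := by
  intro F _ _ τ hτ U hU
  obtain ⟨a, ha⟩ := exists_surjective_nat F
  obtain ⟨W, hW0, hWn, hW⟩ := @METx.seq F _ τ hτ a U hU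
  set B : RingFilterBasis F := basis a ha W hW with hB
  have hle : ∀ S : Set F, S ∈ @nhds F B.topology 0 ↔ ∃ n, W n ⊆ S := by
    intro S
    letI := B.topology
    rw [AddGroupFilterBasis.nhds_zero_eq, FilterBasis.mem_filter_iff]
    constructor
    · rintro ⟨_, ⟨n, rfl⟩, hS⟩
      exact ⟨n, hS⟩
    · rintro ⟨n, hS⟩
      exact ⟨_, ⟨n, rfl⟩, hS⟩
  have hring : @IsTopologicalRing F B.topology _ := B.isTopologicalRing
  refine ⟨B.topology, ?_, ?_, ?_, ?_⟩
  · letI σ : TopologicalSpace F := B.topology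
    haveI := hring
    have hinv1 : Tendsto (fun x : F => x⁻¹) (𝓝 1) (𝓝 1) := by
      have key : Tendsto (fun x : F => (1 + x)⁻¹ - 1) (𝓝 0) (𝓝 0) := by
        intro S hS
        rw [hle] at hS
        obtain ⟨n, hS⟩ := hS
        rw [mem_map, hle]
        exact ⟨n + 1, fun x hx => hS (hW.inv n x hx)⟩
      have h1 : Tendsto (fun x : F => (1 + (x - 1))⁻¹ - 1 + 1) (𝓝 1) (𝓝 (0 + 1)) := by
        have h2 : Tendsto (fun x : F => x - 1) (𝓝 1) (𝓝 0) := by
          have : Tendsto (fun x : F => x - 1) (𝓝 1) (𝓝 (1 - 1)) :=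
            (continuous_id.sub continuous_const).tendsto 1
          rwa [sub_self] at this
        exact (key.comp h2).add tendsto_const_nhds
      simpa using h1
    refine { toIsTopologicalRing := hring, continuousAt_inv₀ := ?_ }
    intro x hx
    have h1 : Tendsto (fun y : F => x⁻¹ * y) (𝓝 x) (𝓝 1) := by
      have : Tendsto (fun y : F => x⁻¹ * y) (𝓝 x) (𝓝 (x⁻¹ * x)) :=
        (continuous_const.mul continuous_id).tendsto x
      rwa [inv_mul_cancel₀ hx] at this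
    have h2 : Tendsto (fun y : F => (x⁻¹ * y)⁻¹ * x⁻¹) (𝓝 x) (𝓝 (1 * x⁻¹)) :=
      (hinv1.comp h1).mul tendsto_const_nhds
    have h3 : (fun y : F => (x⁻¹ * y)⁻¹ * x⁻¹) = fun y => y⁻¹ := by
      funext y
      rw [mul_inv, inv_inv, mul_comm x, mul_assoc, mul_inv_cancel₀ hx, mul_one]
    rw [h3, one_mul] at h2
    exact h2
  · letI σ : TopologicalSpace F := B.topology
    haveI := hring
    have h0 : (𝓝 (0 : F)).IsCountablyGenerated := by
      have hb : (𝓝 (0 : F)).HasBasis (fun _ : ℕ => True) W := by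
        refine ⟨fun S => ?_⟩
        rw [hle]
        simp
      exact hb.isCountablyGenerated
    refine ⟨fun x => ?_⟩
    rw [METx.nhds_eq σ hring x]
    infer_instance
  · refine le_of_nhds_le_nhds fun x => ?_
    rw [METx.nhds_eq τ (@IsTopologicalDivisionRing.toIsTopologicalRing F _ τ hτ) x,
      METx.nhds_eq B.topology hring x]
    refine comap_mono fun S hS => ?_
    obtain ⟨n, hn⟩ := (hle S).1 hS
    exact mem_of_superset (hWn n) hn
  · exact (hle U).2 ⟨0, by rw [hW0]⟩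

end Pool.Agent.H918R5
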