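import Pool.Agent.H918R5.StubsA

/-! Task NZ1: nonzero polynomials in the partial sums vanish with small probability
(decreasing times). -/

set_option autoImplicit false

open MeasureTheory Topology Filter

namespace Pool.Agent.H918R5

namespace NZ1

/-- the gap below the largest time -/
theorem exists_gap {n : ℕ} (t : Fin (n + 1) → TI) (ht : StrictAnti t) :
    ∃ δ : ℝ, 0 < δ ∧ δ < 1 / 8 ∧ ∀ i : Fin n, ((t i.succ : TI) : ℝ) ≤ (t 0 : ℝ) - δ := by
  cases n with
  | zero => exact ⟨1 / 16, by norm_num, by norm_num, fun i => i.elim0⟩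
  | succ m =>
    have h1 : ((t (Fin.succ 0) : TI) : ℝ) < (t 0 : ℝ) := ht (Fin.succ_pos 0)
    refine ⟨min (1 / 16) ((t 0 : ℝ) - (t (Fin.succ 0) : ℝ)), lt_min (by norm_num) (by linarith),
      lt_of_le_of_lt (min_le_left _ _) (by norm_num), fun i => ?_⟩
    have h2 : ((t i.succ : TI) : ℝ) ≤ (t (Fin.succ 0) : ℝ) :=
      ht.antitone (Fin.succ_le_succ_iff.2 (Fin.zero_le i))
    have h3 : min (1 / 16) ((t 0 : ℝ) - (t (Fin.succ 0) : ℝ)) ≤ (t 0 : ℝ) - (t (Fin.succ 0) : ℝ) :=
      min_le_right _ _
    linarith

open Classical in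
theorem ps_eq {F : Type} [Field F] (c : ℕ → F) (N : ℕ) (A : Set ℕ) :
    ps c N A = ∑ i ∈ Finset.range N, if i ∈ A then c i else 0 := by
  unfold ps
  rw [Finset.sum_filter]

/-- sets defined by the partial sums at finitely many times are measurable -/
theorem meas {F : Type} [Field F] (c : ℕ → F) (N m : ℕ) (t : Fin m → ℝ)
    (g : (Fin m → F) → Prop) :
    MeasurableSet {ω : Om | g (fun j => ps c N (act ω (t j)))} := by
  classical
  set Φ : Om → (Fin N → Fin m → Bool) := fun ω i j => decide (ω i < t j) with hΦ
  have hm : Measurable Φ := by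
    refine measurable_pi_lambda _ fun i => measurable_pi_lambda _ fun j => ?_
    have h1 : MeasurableSet {ω : Om | ω i < t j} :=
      measurableSet_lt (measurable_pi_apply _) measurable_const
    refine measurable_to_bool ?_
    have h2 : (fun ω : Om => decide (ω i < t j)) ⁻¹' {true} = {ω : Om | ω i < t j} := by
      ext ω
      simp
    rw [h2]
    exact h1
  have hS : {ω : Om | g (fun j => ps c N (act ω (t j)))} =
      Φ ⁻¹' {b | g (fun j => ∑ i : Fin N, if b i j then c i else 0)} := by
    ext ω
    have h3 : (fun j => ps c N (act ω (t j))) =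
        fun j => ∑ i : Fin N, if Φ ω i j then c i else 0 := by
      funext j
      rw [ps_eq, Finset.sum_range]
      refine Finset.sum_congr rfl fun i _ => ?_
      by_cases h : ω i < t j
      · rw [if_pos (by exact h), if_pos (by simpa [hΦ] using h)]
      · rw [if_neg (by exact h), if_neg (by simpa [hΦ] using h)]
    simp only [Set.mem_setOf_eq, Set.mem_preimage, h3]
  rw [hS]
  exact hm (Set.Finite.measurableSet (Set.toFinite _))

theorem act_ph {a δ : ℝ} (hδ : 0 < δ) (i : ℕ) (ω : Om) {t : ℝ} (ht : t ≤ a - δ) :
    act (ph a δ i ω) t = act ω t := by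
  ext j
  unfold act ph
  simp only [Set.mem_setOf_eq]
  by_cases hj : j = i
  · subst hj
    rw [Function.update_self]
    unfold sw
    split_ifs with h1 h2
    · constructor
      · intro h; linarith [h1.1, h1.2]
      · intro h; linarith [h1.1, h1.2]
    · constructor
      · intro h; linarith [h2.1, h2.2]
      · intro h; linarith [h2.1, h2.2]
    · rfl
  · rw [Function.update_of_ne hj]

theorem ps_ph {F : Type} [Field F] (c : ℕ → F) {N : ℕ} {a δ : ℝ} (hδ : 0 < δ) {i : ℕ}
    (hi : i < N) {ω : Om} (hω : ω ∈ Hi a δ i) :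
    ps c N (act (ph a δ i ω) a) = ps c N (act ω a) + c i ∨
      ps c N (act (ph a δ i ω) a) = ps c N (act ω a) - c i := by
  classical
  rw [ps_eq, ps_eq]
  have hmem : i ∈ Finset.range N := Finset.mem_range.2 hi
  rw [← Finset.add_sum_erase _ _ hmem, ← Finset.add_sum_erase _ _ hmem]
  have hrest : ∑ j ∈ (Finset.range N).erase i, (if j ∈ act (ph a δ i ω) a then c j else 0) =
      ∑ j ∈ (Finset.range N).erase i, (if j ∈ act ω a then c j else 0) := by
    refine Finset.sum_congr rfl fun j hj => ?_
    have hne : j ≠ i := (Finset.mem_erase.1 hj).1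
    have h1 : (j ∈ act (ph a δ i ω) a) ↔ (j ∈ act ω a) := by
      unfold act ph
      simp only [Set.mem_setOf_eq]
      rw [Function.update_of_ne hne]
    by_cases h : j ∈ act ω a
    · rw [if_pos h, if_pos (h1.2 h)]
    · rw [if_neg h, if_neg (fun h' => h (h1.1 h'))]
  rw [hrest]
  have hph : ph a δ i ω i = sw a δ (ω i) := by
    unfold ph
    rw [Function.update_self]
  obtain ⟨h1, h2⟩ := hω
  by_cases hlt : ω i < a
  · right
    have h3 : i ∈ act ω a := hlt
    have h4 : i ∉ act (ph a δ i ω) a := by
      intro h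
      have h5 : ph a δ i ω i < a := h
      rw [hph] at h5
      unfold sw at h5
      rw [if_pos ⟨h1, hlt⟩] at h5
      linarith
    rw [if_pos h3, if_neg h4]
    ring
  · left
    have h3 : i ∉ act ω a := hlt
    have h4 : i ∈ act (ph a δ i ω) a := by
      show ph a δ i ω i < a
      rw [hph]
      unfold sw
      rw [if_neg (fun h => hlt h.2), if_pos ⟨not_lt.1 hlt, h2⟩]
      linarith
    rw [if_neg h3, if_pos h4]
    ring

end NZ1

theorem t_NZ1 (hP : StSWP) (hH : StHIT) (hC : StCNF) : StNZ1 := by
  intro F _ c hc0 hc n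
  induction n with
  | zero =>
    intro t _ p hp
    have h0 : ∀ N, {ω : Om | MvPolynomial.eval (fun j => ps c N (act ω (t j : ℝ))) p = 0} = ∅ := by
      intro N
      rw [Set.eq_empty_iff_forall_notMem]
      intro ω h2
      have h1 := MvPolynomial.eq_C_of_isEmpty p
      apply hp
      rw [Set.mem_setOf_eq, h1, MvPolynomial.eval_C] at h2
      rw [h1, h2, MvPolynomial.C_0]
    simp only [h0, measure_empty]
    exact tendsto_const_nhds
  | succ n ih =>
    intro t ht p hp
    set P := MvPolynomial.finSuccEquiv F n p with hPdef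
    have hP0 : P ≠ 0 := by
      intro h
      apply hp
      exact (MvPolynomial.finSuccEquiv F n).injective (by rw [map_zero]; exact h)
    set q := P.leadingCoeff with hq
    have hq0 : q ≠ 0 := Polynomial.leadingCoeff_ne_zero.2 hP0
    have htail : StrictAnti (fun i : Fin n => t i.succ) := fun i j hij =>
      ht (Fin.succ_lt_succ_iff.2 hij)
    have hIH := ih (fun i => t i.succ) htail q hq0
    obtain ⟨δ, hδ0, hδ8, hδ⟩ := NZ1.exists_gap t ht
    set a : ℝ := (t 0 : ℝ) with ha
    have ha1 : (1 / 4 : ℝ) ≤ a := (t 0).2.1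
    have ha2 : a ≤ (1 / 2 : ℝ) := (t 0).2.2
    set tl : ℕ → Om → Fin n → F := fun N ω i => ps c N (act ω (t i.succ : ℝ)) with htl
    have hall : ∀ (N : ℕ) (ω : Om), (fun i : Fin (n + 1) => ps c N (act ω (t i : ℝ)))
        = Fin.cons (ps c N (act ω a)) (tl N ω) := by
      intro N ω
      funext i
      refine Fin.cases ?_ (fun j => ?_) i
      · rw [Fin.cons_zero]
      · rw [Fin.cons_succ]
    have hmE : ∀ N, MeasurableSet {ω : Om | MvPolynomial.eval (tl N ω) q ≠ 0 ∧
        MvPolynomial.eval (fun i : Fin (n + 1) => ps c N (act ω (t i : ℝ))) p = 0} := by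
      intro N
      exact NZ1.meas c N (n + 1) (fun i => (t i : ℝ))
        (fun x => MvPolynomial.eval (fun i : Fin n => x i.succ) q ≠ 0 ∧ MvPolynomial.eval x p = 0)
    have hpres := hP a δ hδ0 (by linarith) (by linarith)
    have hinf := hH a δ hδ0 (by linarith) (by linarith)
    have hzero := hC Om mu (fun i => ph a δ i) (fun i => Hi a δ i) _ P.natDegree hmE
      (fun i => (hpres i).1) (fun i => (hpres i).2.1) (fun i ω => (hpres i).2.2 ω) hinf (by
      intro N ω s hs
      rcases s.eq_empty_or_nonempty with rfl | ⟨i0, hi0⟩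
      · simp
      classical
      have htlω : ∀ i, tl N (ph a δ i ω) = tl N ω := by
        intro i
        funext j
        show ps c N (act (ph a δ i ω) (t j.succ : ℝ)) = ps c N (act ω (t j.succ : ℝ))
        rw [NZ1.act_ph hδ0 i ω (hδ j)]
      set Q : Polynomial F := P.map (MvPolynomial.eval (tl N ω)) with hQ
      have hqω : MvPolynomial.eval (tl N ω) q ≠ 0 := by
        have := (hs i0 hi0).2.2.1
        rw [htlω i0] at this
        exact this
      have hQ0 : Q ≠ 0 := by
        intro h
        have h1 : Q.coeff P.natDegree = MvPolynomial.eval (tl N ω) q := by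
          rw [hQ, Polynomial.coeff_map, hq]
          rfl
        rw [h, Polynomial.coeff_zero] at h1
        exact hqω h1.symm
      have hroot : ∀ i ∈ s, ps c N (act (ph a δ i ω) a) ∈ Q.roots.toFinset := by
        intro i hi
        rw [Multiset.mem_toFinset, Polynomial.mem_roots hQ0]
        have h1 := (hs i hi).2.2.2
        rw [hall, MvPolynomial.eval_eq_eval_mv_eval', htlω i] at h1
        exact h1
      have hinj : Set.InjOn (fun i => ps c N (act (ph a δ i ω) a)) (s : Set ℕ) := by
        intro i hi j hj hij
        by_contra hne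
        have hij' : ps c N (act (ph a δ i ω) a) = ps c N (act (ph a δ j ω) a) := hij
        have hcc := hc i j hne
        rcases NZ1.ps_ph c hδ0 (hs i hi).1 (hs i hi).2.1 with h1 | h1 <;>
          rcases NZ1.ps_ph c hδ0 (hs j hj).1 (hs j hj).2.1 with h2 | h2
        · rw [h1, h2] at hij'
          exact hcc.1 (add_left_cancel hij')
        · rw [h1, h2, sub_eq_add_neg] at hij'
          exact hcc.2 (add_left_cancel hij')
        · rw [h1, h2, sub_eq_add_neg] at hij'
          apply hcc.2
          rw [← add_left_cancel hij', neg_neg]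
        · rw [h1, h2, sub_eq_add_neg, sub_eq_add_neg] at hij'
          exact hcc.1 (neg_injective (add_left_cancel hij'))
      calc s.card = (s.image (fun i => ps c N (act (ph a δ i ω) a))).card :=
            (Finset.card_image_of_injOn hinj).symm
        _ ≤ Q.roots.toFinset.card := by
            apply Finset.card_le_card
            intro x hx
            obtain ⟨i, hi, rfl⟩ := Finset.mem_image.1 hx
            exact hroot i hi
        _ ≤ Multiset.card Q.roots := Multiset.toFinset_card_le _
        _ ≤ Q.natDegree := Polynomial.card_roots' Q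
        _ ≤ P.natDegree := Polynomial.natDegree_map_le)
    have hlim := hzero.add hIH
    rw [add_zero] at hlim
    refine tendsto_of_tendsto_of_tendsto_of_le_of_le tendsto_const_nhds hlim
      (fun N => zero_le) (fun N => ?_)
    refine (measure_mono ?_).trans (measure_union_le _ _)
    intro ω hω
    by_cases h : MvPolynomial.eval (tl N ω) q = 0
    · exact Or.inr h
    · exact Or.inl ⟨h, hω⟩

end Pool.Agent.H918R5
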