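import Pool.Agent.H918R5.StubsA

set_option autoImplicit false

open MeasureTheory Topology Filter

namespace Pool.Agent.H918R5

namespace PTAaux

lemma mu_le (i : ℕ) (a b : ℝ) :
    mu ((fun ω : Om => ω i) ⁻¹' Set.Ico a b) ≤ ENNReal.ofReal (b - a) := by
  have h1 : MeasurePreserving (fun ω : Om => ω i) mu nu :=
    measurePreserving_eval_infinitePi (fun _ : ℕ => nu) i
  rw [h1.measure_preimage measurableSet_Ico.nullMeasurableSet]
  calc nu (Set.Ico a b) ≤ volume (Set.Ico a b) := Measure.restrict_apply_le _ _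
    _ = ENNReal.ofReal (b - a) := Real.volume_Ico

lemma exists_sub {F : Type} [Field F] [TopologicalSpace F] [IsTopologicalDivisionRing F]
    {U : Set F} (hU : U ∈ 𝓝 (0 : F)) : ∃ V ∈ 𝓝 (0 : F), ∀ x ∈ V, ∀ y ∈ V, x - y ∈ U := by
  have h : Tendsto (fun p : F × F => p.1 - p.2) (𝓝 ((0 : F), (0 : F))) (𝓝 0) :=
    continuous_sub.tendsto' _ _ (sub_zero 0)
  have h2 := h hU
  rw [Filter.mem_map, nhds_prod_eq, Filter.mem_prod_self_iff] at h2
  obtain ⟨V, hV, hVU⟩ := h2
  exact ⟨V, hV, fun x hx y hy => hVU (Set.mk_mem_prod hx hy)⟩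

end PTAaux

theorem t_PTA : StPTA := by
  intro F _ _ _ c hc U hU ε hε t
  obtain ⟨V, hV, hVU⟩ := PTAaux.exists_sub hU
  obtain ⟨N, hN⟩ := hc.1 V hV
  have hmain : ∀ s, ∀ N' : ℕ, mu {ω | ps c N' (act ω s) - ps c N' (act ω t) ∉ U} ≤
      N * ENNReal.ofReal |s - t| := by
    intro s N'
    have hsub : {ω : Om | ps c N' (act ω s) - ps c N' (act ω t) ∉ U} ⊆
        ⋃ i ∈ Finset.range N, (fun ω : Om => ω i) ⁻¹' Set.Ico (min s t) (max s t) := by
      intro ω hω
      by_contra hcon
      apply hω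
      have key : ∀ i, i < N → (ω i < s ↔ ω i < t) := by
        intro i hi
        have h2 : ¬ (min s t ≤ ω i ∧ ω i < max s t) := by
          intro h3
          apply hcon
          simp only [Set.mem_iUnion]
          exact ⟨i, Finset.mem_range.2 hi, h3⟩
        constructor
        · intro h3
          by_contra h4
          exact h2 ⟨(min_le_right _ _).trans (not_lt.1 h4), h3.trans_le (le_max_left _ _)⟩
        · intro h3
          by_contra h4
          exact h2 ⟨(min_le_left _ _).trans (not_lt.1 h4), h3.trans_le (le_max_right _ _)⟩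
      unfold ps
      rw [← Finset.sum_sdiff_sub_sum_sdiff]
      refine hVU _ (hN _ ?_) _ (hN _ ?_)
      · intro i hi
        simp only [Finset.mem_sdiff, Finset.mem_filter] at hi
        obtain ⟨⟨h1, h2⟩, h3⟩ := hi
        by_contra h4
        exact h3 ⟨h1, (key i (not_le.1 h4)).1 h2⟩
      · intro i hi
        simp only [Finset.mem_sdiff, Finset.mem_filter] at hi
        obtain ⟨⟨h1, h2⟩, h3⟩ := hi
        by_contra h4
        exact h3 ⟨h1, (key i (not_le.1 h4)).2 h2⟩
    calc mu {ω | ps c N' (act ω s) - ps c N' (act ω t) ∉ U}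
        ≤ mu (⋃ i ∈ Finset.range N, (fun ω : Om => ω i) ⁻¹' Set.Ico (min s t) (max s t)) :=
          measure_mono hsub
      _ ≤ ∑ i ∈ Finset.range N, mu ((fun ω : Om => ω i) ⁻¹' Set.Ico (min s t) (max s t)) :=
          measure_biUnion_finset_le _ _
      _ ≤ ∑ _i ∈ Finset.range N, ENNReal.ofReal |s - t| := by
          refine Finset.sum_le_sum fun i _ => ?_
          refine (PTAaux.mu_le i _ _).trans_eq ?_
          rw [max_sub_min_eq_abs']
      _ = N * ENNReal.ofReal |s - t| := by
          rw [Finset.sum_const, Finset.card_range, nsmul_eq_mul]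
  have hη : 0 < ε / (N + 1) := by positivity
  filter_upwards [Metric.ball_mem_nhds t hη] with s hs N'
  rw [Metric.mem_ball, Real.dist_eq] at hs
  refine (hmain s N').trans_lt ?_
  rw [← ENNReal.ofReal_natCast, ← ENNReal.ofReal_mul (Nat.cast_nonneg N)]
  rw [ENNReal.ofReal_lt_ofReal_iff hε]
  have h5 : (0 : ℝ) ≤ N := Nat.cast_nonneg N
  have h6 : |s - t| * (N + 1) < ε := by
    rwa [lt_div_iff₀ (by positivity)] at hs
  nlinarith [abs_nonneg (s - t)]

end Pool.Agent.H918R5
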