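import Pool.Agent.H918R5.StubsA

/-!
# Adapted sequences
-/

set_option autoImplicit false

open MeasureTheory Topology Filter

namespace Pool.Agent.H918R5

namespace SEQA

theorem exists_nhds_seq (M : Type) [Field M] [TopologicalSpace M] [IsTopologicalDivisionRing M]
    [FirstCountableTopology M] : ∃ U : ℕ → Set M, (∀ n, U n ∈ 𝓝 (0 : M)) ∧
      (∀ n, ∀ v ∈ U (n + 1), ∀ w ∈ U (n + 1), v + w ∈ U n) ∧
      ∀ V ∈ 𝓝 (0 : M), ∃ n, U n ⊆ V := by
  obtain ⟨B, hB⟩ := (𝓝 (0 : M)).exists_antitone_basis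
  have hBm : ∀ n, B n ∈ 𝓝 (0 : M) := fun n => hB.toHasBasis.mem_of_mem trivial
  have hstep : ∀ (n : ℕ) (U : {U : Set M // U ∈ 𝓝 (0 : M)}), ∃ V : {U : Set M // U ∈ 𝓝 (0 : M)},
      (∀ v ∈ V.1, ∀ w ∈ V.1, v + w ∈ U.1) ∧ V.1 ⊆ B (n + 1) := by
    intro n U
    obtain ⟨V, hV, hVV⟩ := exists_nhds_zero_half U.2
    exact ⟨⟨V ∩ B (n + 1), inter_mem hV (hBm _)⟩,
      fun v hv w hw => hVV v hv.1 w hw.1, Set.inter_subset_right⟩
  choose f hf1 hf2 using hstep
  let U : ℕ → {U : Set M // U ∈ 𝓝 (0 : M)} := fun n =>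
    Nat.rec (motive := fun _ => {U : Set M // U ∈ 𝓝 (0 : M)}) ⟨B 0, hBm 0⟩ (fun n u => f n u) n
  have hUs : ∀ n, U (n + 1) = f n (U n) := fun n => rfl
  refine ⟨fun n => (U n).1, fun n => (U n).2, ?_, ?_⟩
  · intro n v hv w hw
    have hv' : v ∈ (f n (U n)).1 := by rw [← hUs]; exact hv
    have hw' : w ∈ (f n (U n)).1 := by rw [← hUs]; exact hw
    exact hf1 n (U n) v hv' w hw'
  · intro V hV
    obtain ⟨n, -, hn⟩ := hB.toHasBasis.mem_iff.1 hV
    refine ⟨n + 1, ?_⟩
    intro x hx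
    have hx' : x ∈ (f n (U n)).1 := by rw [← hUs]; exact hx
    exact hn (hB.antitone (Nat.le_succ n) (hf2 n (U n) hx'))

/-- telescoping -/
theorem tele {M : Type} [Field M] (U : ℕ → Set M) (hU0 : ∀ n, (0 : M) ∈ U n)
    (hUU : ∀ n, ∀ v ∈ U (n + 1), ∀ w ∈ U (n + 1), v + w ∈ U n) (G : ℕ → M) :
    ∀ m k : ℕ, (∀ i, k ≤ i → G (i + 1) - G i ∈ U (i + 1)) → G (k + m) - G k ∈ U k := by
  intro m
  induction m with
  | zero => intro k _; simpa using hU0 k
  | succ m ih =>
    intro k hk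
    have h1 := ih (k + 1) (fun i hi => hk i (by omega))
    have h2 := hk k le_rfl
    have h3 := hUU k _ h2 _ h1
    have e1 : k + 1 + m = k + (m + 1) := by omega
    rw [e1] at h3
    have e2 : G (k + 1) - G k + (G (k + (m + 1)) - G (k + 1)) = G (k + (m + 1)) - G k := by ring
    rwa [e2] at h3

/-- the conditions on the next element -/
def Cd {F : Type} [Field F] (U : Set F) (N : ℕ) (s : ℕ → F) {n : ℕ} (p : MvPolynomial (Fin n) F)
    (B : Fin n → Finset ℕ) (ε : Fin n → Bool) (x : F) : Prop :=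
  MvPolynomial.eval (fun j => ∑ i ∈ B j, s i + (if ε j = true then x else 0)) p -
      MvPolynomial.eval (fun j => ∑ i ∈ B j, s i) p ∈ U ∧
  (MvPolynomial.eval (fun j => ∑ i ∈ B j, s i) p ≠ 0 →
    MvPolynomial.eval (fun j => ∑ i ∈ B j, s i + (if ε j = true then x else 0)) p ≠ 0 ∧
    (MvPolynomial.eval (fun j => ∑ i ∈ B j, s i + (if ε j = true then x else 0)) p)⁻¹ -
      (MvPolynomial.eval (fun j => ∑ i ∈ B j, s i) p)⁻¹ ∈ U)

theorem Cd_ev {F : Type} [Field F] [TopologicalSpace F] [IsTopologicalDivisionRing F] [T2Space F]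
    {U : Set F} (hU : U ∈ 𝓝 (0 : F)) (N : ℕ) (s : ℕ → F) {n : ℕ} (p : MvPolynomial (Fin n) F)
    (B : Fin n → Finset ℕ) (ε : Fin n → Bool) : ∀ᶠ x in 𝓝 (0 : F), Cd U N s p B ε x := by
  set g : F → F := fun x =>
    MvPolynomial.eval (fun j => ∑ i ∈ B j, s i + (if ε j = true then x else 0)) p with hg
  have hgc : Continuous g := by
    refine (MvPolynomial.continuous_eval p).comp ?_
    refine continuous_pi fun j => ?_
    refine continuous_const.add ?_
    by_cases h : ε j = true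
    · simp only [h, if_true]
      exact continuous_id
    · simp only [h]
      exact continuous_const
  have hg0 : g 0 = MvPolynomial.eval (fun j => ∑ i ∈ B j, s i) p := by
    simp only [hg, ite_self, add_zero]
  have h1 : ∀ᶠ x in 𝓝 (0 : F), g x - g 0 ∈ U := by
    have h2 : Tendsto (fun x => g x - g 0) (𝓝 0) (𝓝 (g 0 - g 0)) :=
      (hgc.tendsto 0).sub tendsto_const_nhds
    rw [sub_self] at h2
    exact h2 hU
  by_cases h0 : g 0 = 0
  · filter_upwards [h1] with x hx
    refine ⟨by rw [← hg0]; exact hx, fun h => absurd (hg0 ▸ h0) h⟩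
  · have h2 : ∀ᶠ x in 𝓝 (0 : F), g x ≠ 0 := hgc.continuousAt.eventually_ne h0
    have h3 : ∀ᶠ x in 𝓝 (0 : F), (g x)⁻¹ - (g 0)⁻¹ ∈ U := by
      have h4 : Tendsto (fun x => (g x)⁻¹ - (g 0)⁻¹) (𝓝 0) (𝓝 ((g 0)⁻¹ - (g 0)⁻¹)) :=
        ((hgc.tendsto 0).inv₀ h0).sub tendsto_const_nhds
      rw [sub_self] at h4
      exact h4 hU
    filter_upwards [h1, h2, h3] with x hx1 hx2 hx3
    exact ⟨by rw [← hg0]; exact hx1, fun _ => ⟨hx2, by rw [← hg0]; exact hx3⟩⟩

/-- the next element exists -/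
theorem next {F : Type} [Field F] [TopologicalSpace F] [IsTopologicalDivisionRing F] [T2Space F]
    (hne : (𝓝[≠] (0 : F)).NeBot) {U : Set F} (hU : U ∈ 𝓝 (0 : F))
    (e : ℕ → Σ n, MvPolynomial (Fin n) F) (N : ℕ) (s : ℕ → F) :
    ∃ x : F, x ∈ U ∧ x ≠ 0 ∧ (∀ j < N, x ≠ s j ∧ x ≠ - s j) ∧
      ∀ k ≤ N, ∀ (B : Fin (e k).1 → Finset ℕ), (∀ j, B j ⊆ Finset.range N) →
        ∀ ε : Fin (e k).1 → Bool, Cd U N s (e k).2 B ε x := by
  classical
  have h1 : ∀ᶠ x in 𝓝 (0 : F), ∀ k ∈ Finset.range (N + 1),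
      ∀ (B : Fin (e k).1 → {S : Finset ℕ // S ∈ (Finset.range N).powerset}),
        ∀ ε : Fin (e k).1 → Bool, Cd U N s (e k).2 (fun j => (B j).1) ε x := by
    rw [Filter.eventually_all_finset]
    intro k _
    rw [Filter.eventually_all]
    intro B
    rw [Filter.eventually_all]
    intro ε
    exact Cd_ev hU N s (e k).2 (fun j => (B j).1) ε
  have h2 : {x : F | x ∈ U ∧ ∀ k ∈ Finset.range (N + 1),
      ∀ (B : Fin (e k).1 → {S : Finset ℕ // S ∈ (Finset.range N).powerset}),
        ∀ ε : Fin (e k).1 → Bool, Cd U N s (e k).2 (fun j => (B j).1) ε x} ∈ 𝓝 (0 : F) :=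
    (show ∀ᶠ x in 𝓝 (0 : F), x ∈ U from hU).and h1
  obtain ⟨x, hx, hxs⟩ := (infinite_of_mem_nhds (0 : F) h2).exists_notMem_finset
    (insert 0 ((Finset.range N).image s ∪ (Finset.range N).image (fun j => - s j)))
  refine ⟨x, hx.1, ?_, ?_, ?_⟩
  · intro h0
    apply hxs
    rw [h0]
    exact Finset.mem_insert_self _ _
  · intro j hj
    constructor
    · intro h
      apply hxs
      refine Finset.mem_insert_of_mem (Finset.mem_union_left _ ?_)
      exact Finset.mem_image.2 ⟨j, Finset.mem_range.2 hj, h.symm⟩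
    · intro h
      apply hxs
      refine Finset.mem_insert_of_mem (Finset.mem_union_right _ ?_)
      exact Finset.mem_image.2 ⟨j, Finset.mem_range.2 hj, h.symm⟩
  · intro k hk B hB ε
    exact hx.2 k (Finset.mem_range.2 (by omega))
      (fun j => ⟨B j, Finset.mem_powerset.2 (hB j)⟩) ε

end SEQA

theorem t_SEQA : StSEQA := by
  intro F _ _ _ _ _ _ hne
  classical
  obtain ⟨U, hU, hUU, hUb⟩ := SEQA.exists_nhds_seq F
  have hU0 : ∀ n, (0 : F) ∈ U n := fun n => mem_of_mem_nhds (hU n)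
  have hUsub : ∀ n, U (n + 1) ⊆ U n := by
    intro n x hx
    have := hUU n x hx 0 (hU0 _)
    rwa [add_zero] at this
  have hanti : Antitone U := antitone_nat_of_succ_le hUsub
  have hcount : ∀ n : ℕ, Countable (MvPolynomial (Fin n) F) := fun n => by
    rw [← Cardinal.mk_le_aleph0_iff]
    refine MvPolynomial.cardinalMk_le_max.trans ?_
    exact sup_le (sup_le Cardinal.mk_le_aleph0 Cardinal.mk_le_aleph0) le_rfl
  obtain ⟨e, he⟩ := exists_surjective_nat (Σ n, MvPolynomial (Fin n) F)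
  have hnext := fun (N : ℕ) (s : ℕ → F) => SEQA.next hne (hU (N + 1)) e N s
  choose g hg1 hg2 hg3 hg4 using hnext
  -- the recursion
  obtain ⟨S, hS0, hS⟩ : ∃ S : ℕ → ℕ → F, S 0 = (fun _ => 0) ∧
      ∀ N, S (N + 1) = Function.update (S N) N (g N (S N)) :=
    ⟨fun N => Nat.rec (fun _ => 0) (fun N s => Function.update s N (g N s)) N, rfl, fun _ => rfl⟩
  obtain ⟨c, hc⟩ : ∃ c : ℕ → F, ∀ N, c N = g N (S N) := ⟨_, fun _ => rfl⟩
  have hSc : ∀ N i, i < N → S N i = c i := by
    intro N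
    induction N with
    | zero => intro i hi; omega
    | succ N ih =>
      intro i hi
      rw [hS]
      by_cases h : i = N
      · rw [h, Function.update_self, hc]
      · rw [Function.update_of_ne h]
        exact ih i (by omega)
  have hcU : ∀ n, c n ∈ U (n + 1) := fun n => by rw [hc]; exact hg1 n (S n)
  have hc0 : ∀ n, c n ≠ 0 := fun n => by rw [hc]; exact hg2 n (S n)
  have hcne : ∀ j n, j < n → c n ≠ c j ∧ c n ≠ - c j := by
    intro j n h
    have := hg3 n (S n) j h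
    rw [hSc n j h, ← hc] at this
    exact this
  have key : ∀ s : Finset ℕ, ∀ N : ℕ, (∀ i ∈ s, N ≤ i) → ∑ i ∈ s, c i ∈ U N := by
    intro s
    induction s using Finset.induction_on_min with
    | empty => intro N _; simpa using hU0 N
    | insert a s ha ih =>
      intro N hN
      have hnot : a ∉ s := fun h => lt_irrefl _ (ha a h)
      rw [Finset.sum_insert hnot]
      have h1 := hUU a (c a) (hcU a) (∑ i ∈ s, c i) (ih (a + 1) (fun i hi => ha i hi))
      exact hanti (hN a (Finset.mem_insert_self _ _)) h1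
  refine ⟨c, ⟨?_, hc0, ?_⟩, ?_⟩
  · intro V hV
    obtain ⟨N, hN⟩ := hUb V hV
    exact ⟨N, fun s hs => hN (key s N hs)⟩
  · intro i j hij
    rcases lt_or_gt_of_ne hij with h | h
    · have := hcne i j h
      refine ⟨fun e => this.1 e.symm, fun e => this.2 ?_⟩
      rw [e, neg_neg]
    · exact hcne j i h
  · intro n p V hV
    obtain ⟨k, hk⟩ := he ⟨n, p⟩
    obtain ⟨n0, hn0⟩ := hUb V hV
    -- one step
    have hstep : ∀ N, k ≤ N → ∀ A : Fin n → Set ℕ,
        (MvPolynomial.eval (fun j => ps c (N + 1) (A j)) p -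
          MvPolynomial.eval (fun j => ps c N (A j)) p ∈ U (N + 1)) ∧
        (MvPolynomial.eval (fun j => ps c N (A j)) p ≠ 0 →
          MvPolynomial.eval (fun j => ps c (N + 1) (A j)) p ≠ 0 ∧
          (MvPolynomial.eval (fun j => ps c (N + 1) (A j)) p)⁻¹ -
            (MvPolynomial.eval (fun j => ps c N (A j)) p)⁻¹ ∈ U (N + 1)) := by
      intro N hN A
      have h1 := hg4 N (S N) k hN
      rw [hk] at h1
      have h2 := h1 (fun j => (Finset.range N).filter (fun i => i ∈ A j))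
        (fun j => Finset.filter_subset _ _) (fun j => decide (N ∈ A j))
      unfold SEQA.Cd at h2
      have e1 : ∀ j, ∑ i ∈ (Finset.range N).filter (fun i => i ∈ A j), S N i =
          ps c N (A j) := by
        intro j
        unfold ps
        refine Finset.sum_congr rfl fun i hi => ?_
        exact hSc N i (Finset.mem_range.1 (Finset.mem_filter.1 hi).1)
      have e2 : ∀ j, ps c N (A j) + (if decide (N ∈ A j) = true then g N (S N) else 0) =
          ps c (N + 1) (A j) := by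
        intro j
        unfold ps
        rw [Finset.range_add_one, Finset.filter_insert]
        by_cases h : N ∈ A j
        · rw [if_pos (by simpa using h), if_pos h, Finset.sum_insert (by simp), ← hc, add_comm]
        · rw [if_neg (by simpa using h), if_neg h, add_zero]
      simp only [e1, e2] at h2
      exact h2
    refine ⟨max k n0, fun N1 N hN1 hN A => ?_⟩
    have hkN1 : k ≤ N1 := le_trans (le_max_left _ _) hN1
    have hnN1 : U N1 ⊆ V := fun x hx => hn0 (hanti (le_trans (le_max_right _ _) hN1) hx)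
    obtain ⟨m, rfl⟩ := Nat.exists_eq_add_of_le hN
    constructor
    · apply hnN1
      exact SEQA.tele U hU0 hUU (fun N => MvPolynomial.eval (fun j => ps c N (A j)) p) m N1
        (fun i hi => (hstep i (by omega) A).1)
    · intro h0
      have hnz : ∀ i, N1 ≤ i → MvPolynomial.eval (fun j => ps c i (A j)) p ≠ 0 := by
        intro i hi
        induction i, hi using Nat.le_induction with
        | base => exact h0
        | succ i hi ih => exact ((hstep i (by omega) A).2 ih).1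
      refine ⟨hnz _ (by omega), hnN1 ?_⟩
      exact SEQA.tele U hU0 hUU (fun N => (MvPolynomial.eval (fun j => ps c N (A j)) p)⁻¹) m N1
        (fun i hi => ((hstep i (by omega) A).2 (hnz i hi)).2)

end Pool.Agent.H918R5
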