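import Pool.Agent.H918R5.StubsA

/-!
# The topology of asymptotic evaluations is a field topology
-/

set_option autoImplicit false

open MeasureTheory Topology Filter

namespace Pool.Agent.H918R5

namespace TOAx

section AS

variable {Ω : Type} [MeasurableSpace Ω]

/-- with probability tending to one -/
def AS (μ : Measure Ω) (Q : ℕ → Ω → Prop) : Prop :=
  Tendsto (fun N => μ {ω | ¬ Q N ω}) atTop (𝓝 0)

theorem AS.mono {μ : Measure Ω} {Q Q' : ℕ → Ω → Prop} (h : AS μ Q)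
    (hQ : ∀ N ω, Q N ω → Q' N ω) : AS μ Q' := by
  refine tendsto_of_tendsto_of_tendsto_of_le_of_le tendsto_const_nhds h (fun N => zero_le)
    (fun N => measure_mono ?_)
  intro ω hω h'
  exact hω (hQ N ω h')

theorem AS.and {μ : Measure Ω} {Q Q' : ℕ → Ω → Prop} (h : AS μ Q) (h' : AS μ Q') :
    AS μ (fun N ω => Q N ω ∧ Q' N ω) := by
  have h1 : Tendsto (fun N => μ {ω | ¬ Q N ω} + μ {ω | ¬ Q' N ω}) atTop (𝓝 (0 + 0)) := h.add h'
  rw [add_zero] at h1
  refine tendsto_of_tendsto_of_tendsto_of_le_of_le tendsto_const_nhds h1 (fun N => zero_le)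
    (fun N => ?_)
  refine (measure_mono ?_).trans (measure_union_le _ _)
  intro ω hω
  by_contra h2
  rw [Set.mem_union, not_or] at h2
  exact hω ⟨not_not.mp h2.1, not_not.mp h2.2⟩

/-- eventually small -/
def SM (μ : Measure Ω) (A : ℕ → Set Ω) (ε : ℝ) : Prop :=
  ∃ N0 : ℕ, ∀ N ≥ N0, μ (A N) < ENNReal.ofReal ε

theorem AS.small {μ : Measure Ω} {Q : ℕ → Ω → Prop} (h : AS μ Q) {ε : ℝ} (hε : 0 < ε) :
    SM μ (fun N => {ω | ¬ Q N ω}) ε := by
  have h1 := h.eventually (gt_mem_nhds (ENNReal.ofReal_pos.mpr hε))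
  rw [eventually_atTop] at h1
  exact h1

theorem SM.mono {μ : Measure Ω} {A B : ℕ → Set Ω} {ε δ : ℝ} (h : SM μ B ε)
    (hAB : ∀ N, A N ⊆ B N) (hεδ : ε ≤ δ) : SM μ A δ := by
  obtain ⟨N0, h⟩ := h
  refine ⟨N0, fun N hN => ?_⟩
  exact lt_of_le_of_lt (measure_mono (hAB N)) (lt_of_lt_of_le (h N hN)
    (ENNReal.ofReal_le_ofReal hεδ))

theorem SM.empty {μ : Measure Ω} {ε : ℝ} (hε : 0 < ε) : SM μ (fun _ => (∅ : Set Ω)) ε := by
  refine ⟨0, fun N _ => ?_⟩
  rw [measure_empty]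
  exact ENNReal.ofReal_pos.mpr hε

theorem SM.three {μ : Measure Ω} {A B C D : ℕ → Set Ω} {ε : ℝ} (hε : 0 < ε)
    (hA : SM μ A (ε / 3)) (hB : SM μ B (ε / 3)) (hC : SM μ C (ε / 3))
    (h : ∀ N ω, ω ∉ A N → ω ∉ B N → ω ∉ C N → ω ∉ D N) : SM μ D ε := by
  obtain ⟨N1, h1⟩ := hA
  obtain ⟨N2, h2⟩ := hB
  obtain ⟨N3, h3⟩ := hC
  refine ⟨max N1 (max N2 N3), fun N hN => ?_⟩
  have e1 := h1 N (le_trans (le_max_left _ _) hN)
  have e2 := h2 N (le_trans (le_trans (le_max_left _ _) (le_max_right _ _)) hN)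
  have e3 := h3 N (le_trans (le_trans (le_max_right _ _) (le_max_right _ _)) hN)
  have e4 : ENNReal.ofReal (ε / 3) + ENNReal.ofReal (ε / 3) + ENNReal.ofReal (ε / 3) =
      ENNReal.ofReal ε := by
    rw [← ENNReal.ofReal_add (by linarith) (by linarith), ← ENNReal.ofReal_add (by linarith)
      (by linarith)]
    congr 1
    ring
  have e5 : μ (D N) ≤ μ (A N ∪ B N ∪ C N) := by
    apply measure_mono
    intro ω hω
    by_contra hc
    rw [Set.mem_union, Set.mem_union, not_or, not_or] at hc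
    exact h N ω hc.1.1 hc.1.2 hc.2 hω
  calc μ (D N) ≤ μ (A N ∪ B N ∪ C N) := e5
    _ ≤ μ (A N) + μ (B N) + μ (C N) :=
        (measure_union_le _ _).trans (add_le_add_left (measure_union_le _ _) _)
    _ < ENNReal.ofReal (ε / 3) + ENNReal.ofReal (ε / 3) + ENNReal.ofReal (ε / 3) :=
        ENNReal.add_lt_add (ENNReal.add_lt_add e1 e2) e3
    _ = ENNReal.ofReal ε := e4

end AS

section

variable {K F Ω : Type} [Field K] [Field F] [TopologicalSpace F]
  [MeasurableSpace Ω] {μ : Measure Ω}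

theorem W_mono (v : Ea K F Ω μ) {U V : Set F} {ε δ : ℝ} (hU : U ⊆ V) (hε : ε ≤ δ) :
    v.W U ε ⊆ v.W V δ := by
  intro z hz
  exact SM.mono (A := fun N => {ω | v.e N z ω ∉ V}) (B := fun N => {ω | v.e N z ω ∉ U}) hz
    (fun N ω hω h => hω (hU h)) hε

theorem e_add (v : Ea K F Ω μ) (z w : K) :
    AS μ (fun N ω => v.e N (z + w) ω = v.e N z ω + v.e N w ω) := v.add z w

theorem e_mul (v : Ea K F Ω μ) (z w : K) :
    AS μ (fun N ω => v.e N (z * w) ω = v.e N z ω * v.e N w ω) := v.mul z w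

theorem e_one (v : Ea K F Ω μ) : AS μ (fun N ω => v.e N 1 ω = 1) := v.one

theorem e_zero (v : Ea K F Ω μ) : AS μ (fun N ω => v.e N 0 ω = 0) := by
  refine (e_add v 0 0).mono fun N ω h => ?_
  rw [add_zero] at h
  exact left_eq_add.mp h

theorem e_neg (v : Ea K F Ω μ) (z : K) : AS μ (fun N ω => v.e N (-z) ω = - v.e N z ω) := by
  refine ((e_add v z (-z)).and (e_zero v)).mono fun N ω h => ?_
  obtain ⟨h1, h2⟩ := h
  rw [add_neg_cancel, h2] at h1
  exact (neg_eq_of_add_eq_zero_right h1.symm).symm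

theorem e_inv (v : Ea K F Ω μ) (z : K) (hz : z ≠ 0) :
    AS μ (fun N ω => v.e N z ω ≠ 0 ∧ v.e N z⁻¹ ω = (v.e N z ω)⁻¹) := by
  refine ((e_mul v z z⁻¹).and (e_one v)).mono fun N ω h => ?_
  obtain ⟨h1, h2⟩ := h
  rw [mul_inv_cancel₀ hz, h2] at h1
  have h3 : v.e N z ω ≠ 0 := by
    intro h
    rw [h, zero_mul] at h1
    exact one_ne_zero h1
  exact ⟨h3, eq_inv_of_mul_eq_one_right h1.symm⟩

/-- the main tool -/
theorem W3 (v : Ea K F Ω μ) {w : K} {U : Set F} {Q : ℕ → Ω → Prop} {A B : ℕ → Set Ω} {ε : ℝ}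
    (hε : 0 < ε) (hQ : AS μ Q) (hA : SM μ A (ε / 3)) (hB : SM μ B (ε / 3))
    (h : ∀ N ω, Q N ω → ω ∉ A N → ω ∉ B N → v.e N w ω ∈ U) : w ∈ v.W U ε := by
  refine SM.three (D := fun N => {ω | v.e N w ω ∉ U}) hε (hQ.small (by linarith)) hA hB ?_
  intro N ω h1 h2 h3 h4
  exact h4 (h N ω (not_not.mp h1) h2 h3)

end

/-- the filter basis -/
def basis (K F Ω : Type) [Field K] [Field F] [TopologicalSpace F]
    [IsTopologicalDivisionRing F] [T2Space F]
    [MeasurableSpace Ω] (μ : Measure Ω) [IsProbabilityMeasure μ] (v : Ea K F Ω μ) :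
    RingFilterBasis K where
  sets := {S | ∃ U ∈ 𝓝 (0 : F), ∃ ε : ℝ, 0 < ε ∧ S = v.W U ε}
  nonempty := ⟨_, Set.univ, univ_mem, 1, one_pos, rfl⟩
  inter_sets := by
    rintro _ _ ⟨U, hU, ε, hε, rfl⟩ ⟨V, hV, δ, hδ, rfl⟩
    refine ⟨_, ⟨U ∩ V, inter_mem hU hV, min ε δ, lt_min hε hδ, rfl⟩, ?_⟩
    exact Set.subset_inter (W_mono v Set.inter_subset_left (min_le_left _ _))
      (W_mono v Set.inter_subset_right (min_le_right _ _))
  zero' := by
    rintro _ ⟨U, hU, ε, hε, rfl⟩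
    refine W3 v hε (e_zero v) (SM.empty (by linarith)) (SM.empty (by linarith)) ?_
    intro N ω h _ _
    rw [h]
    exact mem_of_mem_nhds hU
  add' := by
    rintro _ ⟨U, hU, ε, hε, rfl⟩
    obtain ⟨V, hV, hVU⟩ := exists_nhds_zero_half hU
    refine ⟨_, ⟨V, hV, ε / 3, by linarith, rfl⟩, ?_⟩
    intro y hy
    rw [Set.mem_add] at hy
    obtain ⟨z, hz, w, hw, rfl⟩ := hy
    refine W3 v hε (e_add v z w) hz hw ?_
    intro N ω h h1 h2
    rw [h]
    exact hVU _ (not_not.mp h1) _ (not_not.mp h2)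
  neg' := by
    rintro _ ⟨U, hU, ε, hε, rfl⟩
    have hU' : (fun x : F => -x) ⁻¹' U ∈ 𝓝 (0 : F) := by
      apply continuous_neg.continuousAt.preimage_mem_nhds
      rw [neg_zero]
      exact hU
    refine ⟨_, ⟨_, hU', ε / 3, by linarith, rfl⟩, ?_⟩
    intro z hz
    refine W3 v hε (e_neg v z) hz (SM.empty (by linarith)) ?_
    intro N ω h h1 _
    rw [h]
    exact not_not.mp h1
  conj' := by
    intro x0 U hU
    refine ⟨U, hU, ?_⟩
    intro x hx
    simpa using hx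
  mul' := by
    rintro _ ⟨U, hU, ε, hε, rfl⟩
    have hm : (fun p : F × F => p.1 * p.2) ⁻¹' U ∈ 𝓝 ((0 : F), (0 : F)) := by
      apply continuous_mul.continuousAt.preimage_mem_nhds
      rw [mul_zero]
      exact hU
    rw [nhds_prod_eq, mem_prod_self_iff] at hm
    obtain ⟨V, hV, hVU⟩ := hm
    refine ⟨_, ⟨V, hV, ε / 3, by linarith, rfl⟩, ?_⟩
    intro y hy
    rw [Set.mem_mul] at hy
    obtain ⟨z, hz, w, hw, rfl⟩ := hy
    refine W3 v hε (e_mul v z w) hz hw ?_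
    intro N ω h h1 h2
    rw [h]
    exact hVU (Set.mk_mem_prod (not_not.mp h1) (not_not.mp h2))
  mul_left' := by
    rintro x0 _ ⟨U, hU, ε, hε, rfl⟩
    obtain ⟨V, hV, hVU⟩ := v.tig x0 U hU (ε / 3) (by linarith)
    refine ⟨_, ⟨V, hV, ε / 3, by linarith, rfl⟩, ?_⟩
    intro z hz
    change x0 * z ∈ v.W U ε
    refine W3 v (A := fun N => {ω | ¬ ∀ x ∈ V, v.e N x0 ω * x ∈ U}) hε (e_mul v x0 z) hVU hz ?_
    intro N ω h h1 h2
    rw [h]
    exact not_not.mp h1 _ (not_not.mp h2)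
  mul_right' := by
    rintro x0 _ ⟨U, hU, ε, hε, rfl⟩
    obtain ⟨V, hV, hVU⟩ := v.tig x0 U hU (ε / 3) (by linarith)
    refine ⟨_, ⟨V, hV, ε / 3, by linarith, rfl⟩, ?_⟩
    intro z hz
    change z * x0 ∈ v.W U ε
    refine W3 v (A := fun N => {ω | ¬ ∀ x ∈ V, v.e N x0 ω * x ∈ U}) hε (e_mul v z x0) hVU hz ?_
    intro N ω h h1 h2
    rw [h, mul_comm]
    exact not_not.mp h1 _ (not_not.mp h2)

/-- `-1` is not a small element -/
theorem neg_one_ne {K F Ω : Type} [Field K] [Field F] [TopologicalSpace F]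
    [MeasurableSpace Ω] {μ : Measure Ω} [IsProbabilityMeasure μ] (v : Ea K F Ω μ) (x : K)
    (hx : x ∈ v.W ({-1}ᶜ : Set F) (1 / 2)) : 1 + x ≠ 0 := by
  intro h
  have hxe : x = -1 := by
    rw [eq_neg_iff_add_eq_zero, add_comm]
    exact h
  have h1 : AS μ (fun N ω => v.e N x ω = -1) := by
    refine ((e_neg v 1).and (e_one v)).mono fun N ω h => ?_
    rw [hxe, h.1, h.2]
  obtain ⟨N1, h2⟩ := h1.small (by norm_num : (0 : ℝ) < 1 / 2)
  obtain ⟨N2, h3⟩ := hx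
  have e1 := h2 (max N1 N2) (le_max_left _ _)
  have e2 := h3 (max N1 N2) (le_max_right _ _)
  have e3 : (1 : ENNReal) ≤ μ {ω | v.e (max N1 N2) x ω ∉ ({-1}ᶜ : Set F)} +
      μ {ω | ¬ v.e (max N1 N2) x ω = -1} := by
    rw [← measure_univ (μ := μ)]
    refine (measure_mono ?_).trans (measure_union_le _ _)
    intro ω _
    by_cases h4 : v.e (max N1 N2) x ω = -1
    · left
      intro h5
      exact h5 h4
    · right
      exact h4
  have e4 : ENNReal.ofReal (1 / 2) + ENNReal.ofReal (1 / 2) = 1 := by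
    rw [← ENNReal.ofReal_add (by norm_num) (by norm_num)]
    norm_num
  have e5 := e3.trans_lt (ENNReal.add_lt_add e2 e1)
  rw [e4] at e5
  exact lt_irrefl _ e5

end TOAx

open TOAx in
theorem t_TOA : StTOA := by
  intro K F Ω _ _ _ _ _ _ μ _ v
  set B : RingFilterBasis K := basis K F Ω μ v with hB
  letI τ : TopologicalSpace K := B.topology
  haveI hring : IsTopologicalRing K := B.isTopologicalRing
  have hnhds : ∀ S : Set K, S ∈ 𝓝 (0 : K) ↔ ∃ U ∈ 𝓝 (0 : F), ∃ ε : ℝ, 0 < ε ∧ v.W U ε ⊆ S := by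
    intro S
    rw [AddGroupFilterBasis.nhds_zero_eq, FilterBasis.mem_filter_iff]
    constructor
    · rintro ⟨_, ⟨U, hU, ε, hε, rfl⟩, hS⟩
      exact ⟨U, hU, ε, hε, hS⟩
    · rintro ⟨U, hU, ε, hε, hS⟩
      exact ⟨_, ⟨U, hU, ε, hε, rfl⟩, hS⟩
  -- inversion at one
  have hinv1 : Tendsto (fun x : K => x⁻¹) (𝓝 1) (𝓝 1) := by
    have key : Tendsto (fun x : K => (1 + x)⁻¹ - 1) (𝓝 0) (𝓝 0) := by
      intro S hS
      rw [hnhds] at hS
      obtain ⟨U, hU, ε, hε, hS⟩ := hS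
      rw [mem_map, hnhds]
      have hc : Tendsto (fun x : F => (1 + x)⁻¹ - 1) (𝓝 0) (𝓝 0) := by
        have h1 : ContinuousAt (fun x : F => (1 + x)⁻¹ - 1) 0 := by
          apply ContinuousAt.sub _ continuousAt_const
          apply ContinuousAt.inv₀
          · exact (continuous_const.add continuous_id).continuousAt
          · simp
        have h2 := h1.tendsto
        simpa using h2
      have hne : ({-1}ᶜ : Set F) ∈ 𝓝 (0 : F) := by
        apply IsOpen.mem_nhds isOpen_compl_singleton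
        rw [Set.mem_compl_iff, Set.mem_singleton_iff]
        intro h
        have : (1 : F) = 0 := by
          rw [← neg_neg (1 : F), ← h, neg_zero]
        exact one_ne_zero this
      refine ⟨_, inter_mem (hc hU) hne, min (ε / 3) (1 / 2), lt_min (by linarith) (by norm_num), ?_⟩
      intro x hx
      apply hS
      have hx1 : 1 + x ≠ 0 :=
        neg_one_ne v x (W_mono v Set.inter_subset_right (min_le_right _ _) hx)
      have hxW : x ∈ v.W ((fun x : F => (1 + x)⁻¹ - 1) ⁻¹' U) (ε / 3) :=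
        W_mono v Set.inter_subset_left (min_le_left _ _) hx
      refine W3 v hε (((((e_neg v 1).and (e_one v)).and (e_add v 1 x)).and (e_inv v _ hx1)).and
        (e_add v (1 + x)⁻¹ (-1))) hxW (SM.empty (by linarith)) ?_
      rintro N ω ⟨⟨⟨⟨h1, h2⟩, h3⟩, h4⟩, h5⟩ h6 _
      show v.e N ((1 + x)⁻¹ - 1) ω ∈ U
      rw [sub_eq_add_neg, h5, h4.2, h3, h1, h2, ← sub_eq_add_neg]
      exact not_not.mp h6
    have h1 : Tendsto (fun x : K => (1 + (x - 1))⁻¹ - 1 + 1) (𝓝 1) (𝓝 (0 + 1)) := by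
      have h2 : Tendsto (fun x : K => x - 1) (𝓝 1) (𝓝 0) := by
        have : Tendsto (fun x : K => x - 1) (𝓝 1) (𝓝 (1 - 1)) :=
          (continuous_id.sub continuous_const).tendsto 1
        rwa [sub_self] at this
      exact (key.comp h2).add tendsto_const_nhds
    simpa using h1
  refine ⟨τ, ?_, hnhds⟩
  refine { toIsTopologicalRing := hring, continuousAt_inv₀ := ?_ }
  intro x hx
  have h1 : Tendsto (fun y : K => x⁻¹ * y) (𝓝 x) (𝓝 1) := by
    have : Tendsto (fun y : K => x⁻¹ * y) (𝓝 x) (𝓝 (x⁻¹ * x)) :=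
      (continuous_const.mul continuous_id).tendsto x
    rwa [inv_mul_cancel₀ hx] at this
  have h2 : Tendsto (fun y : K => (x⁻¹ * y)⁻¹ * x⁻¹) (𝓝 x) (𝓝 (1 * x⁻¹)) :=
    (hinv1.comp h1).mul tendsto_const_nhds
  have h3 : (fun y : K => (x⁻¹ * y)⁻¹ * x⁻¹) = fun y => y⁻¹ := by
    funext y
    rw [mul_inv, inv_inv, mul_comm x, mul_assoc, mul_inv_cancel₀ hx, mul_one]
  rw [h3, one_mul] at h2
  exact h2

end Pool.Agent.H918R5
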