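import Pool.Agent.H918R5.All1
import Pool.Agent.H918R5.TMET
import Pool.Agent.H918R5.TSEQA
import Pool.Agent.H918R5.TCNF
import Pool.Agent.H918R5.TNZ1
import Pool.Agent.H918R5.TNZ2
import Pool.Agent.H918R5.TPTA
import Pool.Agent.H918R5.TTOA
import Pool.Agent.H918R5.TEAA
import Pool.Agent.H918R5.TDIS
import Pool.Agent.H918R5.TMAINA

/-!
# Connected topological fields: countable fields
-/

set_option autoImplicit false

open Topology

namespace Pool.Agent.H918R5

theorem main2 : StMAINA :=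
  t_MAINA t_MET (t_EAA t_SEQA (t_NZ2 (t_NZ1 t_SWP t_HIT t_CNF))) t_TOA t_PTA t_INF t_CON t_CMP
    t_CTP t_T2

end Pool.Agent.H918R5
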