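import Pool.Agent.H918R5.Fin

/-!
# First countable topological fields of cardinality below the bounding number
-/

set_option autoImplicit false

open MeasureTheory Topology Filter

namespace Pool.Agent.H918R5

/-- every family of functions on the natural numbers indexed by `P` has an eventual upper bound -/
def Bd (P : Type) : Prop := ∀ f : P → ℕ → ℕ, ∃ g : ℕ → ℕ, ∀ a, ∀ᶠ n in atTop, f a n ≤ g n

theorem bd_of_surj {P Q : Type} (e : P → Q) (he : Function.Surjective e) (h : Bd P) : Bd Q := by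
  intro f
  obtain ⟨g, hg⟩ := h (fun a => f (e a))
  refine ⟨g, fun b => ?_⟩
  obtain ⟨a, rfl⟩ := he b
  exact hg a

theorem bd_poly {F : Type} [Field F] [Infinite F] (h : Bd F) :
    Bd (Σ n, MvPolynomial (Fin n) F) := by
  have hF : Cardinal.aleph0 ≤ Cardinal.mk F := Cardinal.aleph0_le_mk F
  have h1 : ∀ n : ℕ, Cardinal.mk (MvPolynomial (Fin n) F) ≤ Cardinal.mk F := fun n =>
    MvPolynomial.cardinalMk_le_max.trans
      (sup_le (sup_le le_rfl (Cardinal.mk_le_aleph0.trans hF)) hF)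
  have h2 : Cardinal.mk (Σ n, MvPolynomial (Fin n) F) ≤ Cardinal.mk F := by
    rw [Cardinal.mk_sigma]
    refine (Cardinal.sum_le_sum _ (fun _ : ℕ => Cardinal.mk F) h1).trans ?_
    rw [Cardinal.sum_const']
    rw [Cardinal.mk_nat]
    exact (Cardinal.aleph0_mul_eq hF).le
  obtain ⟨i⟩ := (Cardinal.le_def _ _).1 h2
  exact bd_of_surj (Function.invFun i) (Function.invFun_surjective i.injective) h

theorem adapted {F : Type} [Field F] [TopologicalSpace F] [IsTopologicalDivisionRing F]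
    [FirstCountableTopology F] [T2Space F] (hne : (𝓝[≠] (0 : F)).NeBot) (hb : Bd F) :
    ∃ c : ℕ → F, Good c ∧ ∀ (n : ℕ) (p : MvPolynomial (Fin n) F), ∀ V ∈ 𝓝 (0 : F), ∃ N0 : ℕ,
      ∀ N1 N : ℕ, N0 ≤ N1 → N1 ≤ N → ∀ A : Fin n → Set ℕ,
        MvPolynomial.eval (fun j => ps c N (A j)) p -
          MvPolynomial.eval (fun j => ps c N1 (A j)) p ∈ V ∧
        (MvPolynomial.eval (fun j => ps c N1 (A j)) p ≠ 0 →
          MvPolynomial.eval (fun j => ps c N (A j)) p ≠ 0 ∧
          (MvPolynomial.eval (fun j => ps c N (A j)) p)⁻¹ -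
            (MvPolynomial.eval (fun j => ps c N1 (A j)) p)⁻¹ ∈ V) := by
  classical
  obtain ⟨U, hU, hUU, hUb⟩ := SEQA.exists_nhds_seq F
  have hU0 : ∀ n, (0 : F) ∈ U n := fun n => mem_of_mem_nhds (hU n)
  have hUsub : ∀ n, U (n + 1) ⊆ U n := by
    intro n x hx
    have := hUU n x hx 0 (hU0 _)
    rwa [add_zero] at this
  have hanti : Antitone U := antitone_nat_of_succ_le hUsub
  have hinf : Infinite F := by
    have h1 : (Set.univ : Set F).Infinite := infinite_of_mem_nhds (0 : F) Filter.univ_mem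
    exact Set.infinite_univ_iff.1 h1
  obtain ⟨d, hd⟩ := t_SEQ F hne
  have hd0 : Tendsto d atTop (𝓝 (0 : F)) := by
    intro V hV
    obtain ⟨N, hN⟩ := hd.1 V hV
    rw [Filter.mem_map, Filter.mem_atTop_sets]
    refine ⟨N, fun i hi => ?_⟩
    have h1 := hN {i} (by intro k hk; rw [Finset.mem_singleton] at hk; omega)
    rw [Finset.sum_singleton] at h1
    exact h1
  have hQ : ∀ (a : Σ n, MvPolynomial (Fin n) F) (M : ℕ), ∀ᶠ m in atTop,
      ∀ (B : Fin a.1 → {S : Finset ℕ // S ∈ (Finset.range M).powerset}),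
        ∀ ε : Fin a.1 → Bool, SEQA.Cd (U (M + 1)) M d a.2 (fun j => (B j).1) ε (d m) := by
    intro a M
    rw [Filter.eventually_all]
    intro B
    rw [Filter.eventually_all]
    intro ε
    exact hd0.eventually (SEQA.Cd_ev (hU (M + 1)) M d a.2 (fun j => (B j).1) ε)
  choose f hf using fun a M => Filter.eventually_atTop.1 (hQ a M)
  obtain ⟨h, hh⟩ := bd_poly hb f
  obtain ⟨G, hG0, hG⟩ : ∃ G : ℕ → ℕ, G 0 = 0 ∧ ∀ N, G (N + 1) = max (h (G N)) (G N) + 1 :=
    ⟨fun N => Nat.rec 0 (fun _ x => max (h x) x + 1) N, rfl, fun _ => rfl⟩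
  obtain ⟨g, hg⟩ : ∃ g : ℕ → ℕ, ∀ N, g N = max (h (G N)) (G N) := ⟨_, fun _ => rfl⟩
  have hG1 : ∀ N, G (N + 1) = g N + 1 := fun N => by rw [hG, hg]
  have hG2 : ∀ N, G N ≤ g N := fun N => by rw [hg]; exact le_max_right _ _
  have hG3 : ∀ N, h (G N) ≤ g N := fun N => by rw [hg]; exact le_max_left _ _
  have hGm : StrictMono G := strictMono_nat_of_lt_succ (fun N => by
    have h1 := hG1 N
    have h2 := hG2 N
    omega)
  have hGN : ∀ N, N ≤ G N := fun N => hGm.le_apply
  have hgm : StrictMono g := strictMono_nat_of_lt_succ (fun N => by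
    have h1 := hG1 N
    have h2 := hG2 (N + 1)
    omega)
  have hgN : ∀ N, N ≤ g N := fun N => hgm.le_apply
  have hgG : ∀ i N, i < N → g i < G N := by
    intro i N hi
    have h1 := hG1 i
    have h2 : G (i + 1) ≤ G N := hGm.monotone hi
    omega
  set c : ℕ → F := fun N => d (g N) with hc
  refine ⟨c, ⟨?_, fun i => hd.2.1 _, ?_⟩, ?_⟩
  · intro V hV
    obtain ⟨N, hN⟩ := hd.1 V hV
    refine ⟨N, fun s hs => ?_⟩
    have h1 := hN (s.image g) (by
      intro i hi
      obtain ⟨k, hk, rfl⟩ := Finset.mem_image.1 hi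
      exact le_trans (hs k hk) (hgN k))
    rw [Finset.sum_image (fun x _ y _ hxy => hgm.injective hxy)] at h1
    exact h1
  · intro i j hij
    exact hd.2.2 _ _ (fun he => hij (hgm.injective he))
  · intro n p V hV
    obtain ⟨k, hk⟩ := Filter.eventually_atTop.1 (hh ⟨n, p⟩)
    obtain ⟨n0, hn0⟩ := hUb V hV
    -- one step
    have hstep : ∀ N, k ≤ N → ∀ A : Fin n → Set ℕ,
        (MvPolynomial.eval (fun j => ps c (N + 1) (A j)) p -
          MvPolynomial.eval (fun j => ps c N (A j)) p ∈ U (N + 1)) ∧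
        (MvPolynomial.eval (fun j => ps c N (A j)) p ≠ 0 →
          MvPolynomial.eval (fun j => ps c (N + 1) (A j)) p ≠ 0 ∧
          (MvPolynomial.eval (fun j => ps c (N + 1) (A j)) p)⁻¹ -
            (MvPolynomial.eval (fun j => ps c N (A j)) p)⁻¹ ∈ U (N + 1)) := by
      intro N hN A
      have hle : f ⟨n, p⟩ (G N) ≤ g N := (hk (G N) (le_trans hN (hGN N))).trans (hG3 N)
      have h2 := hf ⟨n, p⟩ (G N) (g N) hle
        (fun j => ⟨((Finset.range N).filter (fun i => i ∈ A j)).image g, by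
          rw [Finset.mem_powerset]
          intro x hx
          obtain ⟨i, hi, rfl⟩ := Finset.mem_image.1 hx
          have hi2 := Finset.mem_range.1 (Finset.mem_filter.1 hi).1
          exact Finset.mem_range.2 (hgG i N hi2)⟩) (fun j => decide (N ∈ A j))
      unfold SEQA.Cd at h2
      have e1 : ∀ j, ∑ i ∈ ((Finset.range N).filter (fun i => i ∈ A j)).image g, d i =
          ps c N (A j) := by
        intro j
        unfold ps
        rw [Finset.sum_image (fun x _ y _ hxy => hgm.injective hxy)]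
      have e2 : ∀ j, ps c N (A j) + (if decide (N ∈ A j) = true then d (g N) else 0) =
          ps c (N + 1) (A j) := by
        intro j
        unfold ps
        rw [Finset.range_add_one, Finset.filter_insert]
        by_cases h : N ∈ A j
        · rw [if_pos (by simpa using h), if_pos h, Finset.sum_insert (by simp), add_comm]
        · rw [if_neg (by simpa using h), if_neg h, add_zero]
      simp only [e1, e2] at h2
      have hsub : U (G N + 1) ⊆ U (N + 1) := hanti (Nat.succ_le_succ (hGN N))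
      exact ⟨hsub h2.1, fun h0 => ⟨(h2.2 h0).1, hsub (h2.2 h0).2⟩⟩
    refine ⟨max k n0, fun N1 N hN1 hN A => ?_⟩
    have hkN1 : k ≤ N1 := le_trans (le_max_left _ _) hN1
    have hnN1 : U N1 ⊆ V := fun x hx => hn0 (hanti (le_trans (le_max_right _ _) hN1) hx)
    obtain ⟨m, rfl⟩ := Nat.exists_eq_add_of_le hN
    constructor
    · apply hnN1
      exact SEQA.tele U hU0 hUU (fun N => MvPolynomial.eval (fun j => ps c N (A j)) p) m N1
        (fun i hi => (hstep i (by omega) A).1)
    · intro h0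
      have hnz : ∀ i, N1 ≤ i → MvPolynomial.eval (fun j => ps c i (A j)) p ≠ 0 := by
        intro i hi
        induction i, hi using Nat.le_induction with
        | base => exact h0
        | succ i hi ih => exact ((hstep i (by omega) A).2 ih).1
      refine ⟨hnz _ (by omega), hnN1 ?_⟩
      exact SEQA.tele U hU0 hUU (fun N => (MvPolynomial.eval (fun j => ps c N (A j)) p)⁻¹) m N1
        (fun i hi => ((hstep i (by omega) A).2 (hnz i hi)).2)

theorem eab (hN : StNZ2) {F : Type} [Field F] [TopologicalSpace F] [IsTopologicalDivisionRing F]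
    [FirstCountableTopology F] [T2Space F] (c : ℕ → F) (hc : Good c)
    (had : ∀ (n : ℕ) (p : MvPolynomial (Fin n) F), ∀ V ∈ 𝓝 (0 : F), ∃ N0 : ℕ,
      ∀ N1 N : ℕ, N0 ≤ N1 → N1 ≤ N → ∀ A : Fin n → Set ℕ,
        MvPolynomial.eval (fun j => ps c N (A j)) p -
          MvPolynomial.eval (fun j => ps c N1 (A j)) p ∈ V ∧
        (MvPolynomial.eval (fun j => ps c N1 (A j)) p ≠ 0 →
          MvPolynomial.eval (fun j => ps c N (A j)) p ≠ 0 ∧
          (MvPolynomial.eval (fun j => ps c N (A j)) p)⁻¹ -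
            (MvPolynomial.eval (fun j => ps c N1 (A j)) p)⁻¹ ∈ V)) :
    ∃ v : Ea (FractionRing (MvPolynomial TI F)) F Om mu,
      ∀ p : MvPolynomial TI F, Tendsto (fun N => mu {ω |
        v.e N (algebraMap (MvPolynomial TI F) (FractionRing (MvPolynomial TI F)) p) ω ≠
          MvPolynomial.eval (fun t : TI => ps c N (act ω (t : ℝ))) p}) atTop (𝓝 0) := by
  have hnz : ∀ p : MvPolynomial TI F, p ≠ 0 →
      Tendsto (fun N => mu {ω | EAA.ev c N ω p = 0}) atTop (𝓝 0) := hN F c hc.2.1 hc.2.2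
  have hd : ∀ z : FractionRing (MvPolynomial TI F),
      Tendsto (fun N => mu {ω | EAA.ev c N ω (EAA.dn z) = 0}) atTop (𝓝 0) :=
    fun z => hnz _ (EAA.dn_ne z)
  have hlin : ∀ p : MvPolynomial TI F, ∀ V ∈ 𝓝 (0 : F), ∃ N0 : ℕ, ∀ N1 N : ℕ, N0 ≤ N1 → N1 ≤ N →
      ∀ ω : Om, EAA.ev c N ω p - EAA.ev c N1 ω p ∈ V ∧ (EAA.ev c N1 ω p ≠ 0 →
        EAA.ev c N ω p ≠ 0 ∧ (EAA.ev c N ω p)⁻¹ - (EAA.ev c N1 ω p)⁻¹ ∈ V) := by
    intro p V hV
    obtain ⟨n, f, -, p', rfl⟩ := MvPolynomial.exists_fin_rename p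
    obtain ⟨N0, hN0⟩ := had n p' V hV
    refine ⟨N0, fun N1 N h1 h2 ω => ?_⟩
    rw [EAA.ev_rename, EAA.ev_rename]
    exact hN0 N1 N h1 h2 (fun j => act ω (f j : ℝ))
  refine ⟨{ e := fun N z ω => EAA.ev c N ω (EAA.nm z) * (EAA.ev c N ω (EAA.dn z))⁻¹
            add := ?_
            mul := ?_
            one := ?_
            tig := ?_ }, ?_⟩
  · intro z w
    refine EAA.tend_sub (fun N ω hω => ?_) (hd z) (hd w) (hd (z + w))
    by_contra hcon
    simp only [Set.mem_union, Set.mem_setOf_eq, not_or] at hcon hω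
    obtain ⟨⟨h1, h2⟩, h3⟩ := hcon
    apply hω
    have h := congrArg (EAA.ev c N ω) (EAA.add_id z w)
    simp only [map_mul, map_add] at h
    field_simp
    linear_combination h
  · intro z w
    refine EAA.tend_sub (fun N ω hω => ?_) (hd z) (hd w) (hd (z * w))
    by_contra hcon
    simp only [Set.mem_union, Set.mem_setOf_eq, not_or] at hcon hω
    obtain ⟨⟨h1, h2⟩, h3⟩ := hcon
    apply hω
    have h := congrArg (EAA.ev c N ω) (EAA.mul_id z w)
    simp only [map_mul] at h
    field_simp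
    linear_combination h
  · refine EAA.tend_sub (fun N ω hω => ?_) (hd 1) (hd 1) (hd 1)
    by_contra hcon
    simp only [Set.mem_union, Set.mem_setOf_eq, not_or] at hcon hω
    apply hω
    rw [EAA.one_id, mul_inv_cancel₀ hcon.2]
  · intro z V hV ε hε
    obtain ⟨V2, hV2, hadd⟩ := EAA.nh_add hV
    obtain ⟨V1, hV1, hm2, hm3⟩ := EAA.nh_mul3 hV2
    obtain ⟨Na, hNa⟩ := hlin (EAA.nm z) V1 hV1
    obtain ⟨Nb, hNb⟩ := hlin (EAA.dn z) V1 hV1
    have hε' : (0 : ENNReal) < ENNReal.ofReal ε := ENNReal.ofReal_pos.2 hε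
    obtain ⟨Nc, hNc⟩ := eventually_atTop.1 ((hd z).eventually (gt_mem_nhds hε'))
    set N1 := max Na (max Nb Nc) with hN1
    have hfa := EAA.fin_range c N1 (EAA.nm z)
    have hfb := EAA.fin_range c N1 (EAA.dn z)
    set RA := Set.range fun ω : Om => EAA.ev c N1 ω (EAA.nm z) with hRA
    set RB := Set.range fun ω : Om => EAA.ev c N1 ω (EAA.dn z) with hRB
    refine ⟨V1 ∩ ⋂ α ∈ RA, ⋂ β ∈ RB, ({x : F | α * x ∈ V1} ∩ {x : F | β⁻¹ * x ∈ V1} ∩
      {x : F | (α * β⁻¹) * x ∈ V2}), ?_, N1, ?_⟩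
    · refine inter_mem hV1 ?_
      rw [Filter.biInter_mem hfa]
      intro α _
      rw [Filter.biInter_mem hfb]
      intro β _
      exact inter_mem (inter_mem (EAA.nh_const hV1 _) (EAA.nh_const hV1 _)) (EAA.nh_const hV2 _)
    · intro N hNN
      have hlt := hNc N1 (le_trans (le_max_right _ _) (le_max_right _ _))
      refine lt_of_le_of_lt (measure_mono ?_) hlt
      intro ω hω
      by_contra hcon
      simp only [Set.mem_setOf_eq] at hcon hω
      apply hω
      intro x hx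
      obtain ⟨hx1, hx2⟩ := hx
      simp only [Set.mem_iInter] at hx2
      obtain ⟨⟨hx3, hx4⟩, hx5⟩ := hx2 (EAA.ev c N1 ω (EAA.nm z)) ⟨ω, rfl⟩
        (EAA.ev c N1 ω (EAA.dn z)) ⟨ω, rfl⟩
      simp only [Set.mem_setOf_eq] at hx3 hx4 hx5
      have hv := (hNa N1 N (le_max_left _ _) hNN ω).1
      obtain ⟨-, hw⟩ := (hNb N1 N (le_trans (le_max_left _ _) (le_max_right _ _)) hNN ω).2 hcon
      set α := EAA.ev c N1 ω (EAA.nm z)
      set β := (EAA.ev c N1 ω (EAA.dn z))⁻¹
      set v := EAA.ev c N ω (EAA.nm z) - α with hvdef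
      set w := (EAA.ev c N ω (EAA.dn z))⁻¹ - β with hwdef
      have e1 : EAA.ev c N ω (EAA.nm z) = α + v := by rw [hvdef]; ring
      have e2 : (EAA.ev c N ω (EAA.dn z))⁻¹ = β + w := by rw [hwdef]; ring
      rw [e1, e2]
      have e3 : (α + v) * (β + w) * x = (α * β) * x + w * (α * x) + v * (β * x) + v * w * x := by
        ring
      rw [e3]
      exact hadd _ hx5 _ (hm2 _ hw _ hx3) _ (hm2 _ hv _ hx4) _ (hm3 _ hv _ hw _ hx1)
  · intro p
    refine EAA.tend_sub (fun N ω hω => ?_) (hd (algebraMap (MvPolynomial TI F) _ p))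
      (hd (algebraMap (MvPolynomial TI F) _ p)) (hd (algebraMap (MvPolynomial TI F) _ p))
    by_contra hcon
    simp only [Set.mem_union, Set.mem_setOf_eq, not_or] at hcon
    apply hω
    show EAA.ev c N ω (EAA.nm _) * (EAA.ev c N ω (EAA.dn _))⁻¹ = EAA.ev c N ω p
    rw [EAA.map_id', map_mul, mul_assoc, mul_inv_cancel₀ hcon.2, mul_one]


theorem ext_of_bd (hN : StNZ2) (hTOA : StTOA) (hPTA : StPTA) (F : Type) [Field F]
    [TopologicalSpace F] [IsTopologicalDivisionRing F] [FirstCountableTopology F]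
    [T2Space F] (hne : (𝓝[≠] (0 : F)).NeBot) (hb : Bd F) : ExtT F inferInstance := by
  obtain ⟨c, hc, had⟩ := adapted hne hb
  obtain ⟨v, hv⟩ := eab hN c hc had
  obtain ⟨τ, hτ, hτ0⟩ := hTOA (KK F) F Om mu v
  have hg : ∀ (a : F), Tendsto (fun N => mu {ω | v.e N (gg F a) ω ≠ a}) atTop (𝓝 0) := by
    intro a
    have h := hv (MvPolynomial.C a)
    simp only [MvPolynomial.eval_C] at h
    exact h
  have hmem : ∀ (a : F) (U : Set F) (ε : ℝ), 0 < ε → a ∈ U → gg F a ∈ v.W U ε := by
    intro a U ε hε ha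
    have h1 := (hg a).eventually (gt_mem_nhds (ENNReal.ofReal_pos.2 hε))
    obtain ⟨N0, hN0⟩ := Filter.eventually_atTop.1 h1
    refine ⟨N0, fun N hN => lt_of_le_of_lt (measure_mono ?_) (hN0 N hN)⟩
    intro ω hω heq
    apply hω
    show v.e N (gg F a) ω ∈ U
    rw [heq]; exact ha
  have hmem1 : ∀ (a : F) (U : Set F), gg F a ∈ v.W U (1 / 2) → a ∈ U := by
    intro a U ha
    by_contra hU
    obtain ⟨N0, hN0⟩ := ha
    have h1 := (hg a).eventually (gt_mem_nhds (ENNReal.ofReal_pos.2 (by norm_num : (0 : ℝ) < 1 / 2)))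
    obtain ⟨N1, hN1⟩ := Filter.eventually_atTop.1 h1
    have h2 := hN0 (max N0 N1) (le_max_left _ _)
    have h3 := hN1 (max N0 N1) (le_max_right _ _)
    have h4 : (Set.univ : Set Om) ⊆ {ω | v.e (max N0 N1) (gg F a) ω ∉ U} ∪
        {ω | v.e (max N0 N1) (gg F a) ω ≠ a} := by
      intro ω _
      by_cases h : v.e (max N0 N1) (gg F a) ω = a
      · left
        show v.e (max N0 N1) (gg F a) ω ∉ U
        rw [h]; exact hU
      · right; exact h
    have h5 : mu (Set.univ : Set Om) < ENNReal.ofReal (1 / 2) + ENNReal.ofReal (1 / 2) :=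
      lt_of_le_of_lt ((measure_mono h4).trans (measure_union_le _ _)) (ENNReal.add_lt_add h2 h3)
    rw [measure_univ, ← ENNReal.ofReal_add (by norm_num) (by norm_num)] at h5
    norm_num at h5
  refine ⟨τ, hτ, ?_, ?_⟩
  · ext S
    constructor
    · intro hS
      refine ⟨v.W S (1 / 2), (hτ0 _).2 ⟨S, hS, 1 / 2, by norm_num, subset_rfl⟩, ?_⟩
      intro a ha
      exact hmem1 a S ha
    · rintro ⟨T, hT, hTS⟩
      obtain ⟨U, hU, ε, hε, hW⟩ := (hτ0 T).1 hT
      refine Filter.mem_of_superset hU ?_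
      intro a ha
      exact hTS (hW (hmem a U ε hε ha))
  · intro t S hS
    obtain ⟨U, hU, ε, hε, hW⟩ := (hτ0 S).1 hS
    have h1 := hPTA F c hc U hU (ε / 2) (by positivity) (t : ℝ)
    have h2 := (continuous_subtype_val.tendsto t).eventually h1
    filter_upwards [h2] with s hs
    apply hW
    have h3 := (hv (MvPolynomial.X s - MvPolynomial.X t)).eventually
      (gt_mem_nhds (ENNReal.ofReal_pos.2 (by positivity : 0 < ε / 2)))
    obtain ⟨N0, hN0⟩ := Filter.eventually_atTop.1 h3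
    refine ⟨N0, fun N hN => ?_⟩
    have h4 := hs N
    have h5 := hN0 N hN
    have e1 : gam F s - gam F t = algebraMap (MvPolynomial TI F) (KK F)
        (MvPolynomial.X s - MvPolynomial.X t) := by
      rw [map_sub]; rfl
    have h6 : {ω | v.e N (gam F s - gam F t) ω ∉ U} ⊆
        {ω | ps c N (act ω (s : ℝ)) - ps c N (act ω (t : ℝ)) ∉ U} ∪
        {ω | v.e N (algebraMap (MvPolynomial TI F) (KK F)
            (MvPolynomial.X s - MvPolynomial.X t)) ω ≠
          MvPolynomial.eval (fun t : TI => ps c N (act ω (t : ℝ)))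
            (MvPolynomial.X s - MvPolynomial.X t)} := by
      intro ω hω
      by_cases h : v.e N (algebraMap (MvPolynomial TI F) (KK F)
            (MvPolynomial.X s - MvPolynomial.X t)) ω =
          MvPolynomial.eval (fun t : TI => ps c N (act ω (t : ℝ)))
            (MvPolynomial.X s - MvPolynomial.X t)
      · left
        have h7 : v.e N (gam F s - gam F t) ω ∉ U := hω
        rw [e1, h] at h7
        simpa using h7
      · right; exact h
    calc mu {ω | v.e N (gam F s - gam F t) ω ∉ U} ≤ _ :=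
          (measure_mono h6).trans (measure_union_le _ _)
      _ < ENNReal.ofReal (ε / 2) + ENNReal.ofReal (ε / 2) := ENNReal.add_lt_add h4 h5
      _ = ENNReal.ofReal ε := by
        rw [← ENNReal.ofReal_add (by positivity) (by positivity)]; congr 1; ring


/-- the number of elements is small and the topology is a supremum of metrizable field
topologies -/
theorem main3 (F : Type) [Field F] [tF : TopologicalSpace F] [hdF : IsTopologicalDivisionRing F]
    [hT : T2Space F] (hb : Bd F) (J : Type) (σ : J → TopologicalSpace F)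
    (h1 : ∀ j, @IsTopologicalDivisionRing F _ (σ j)) (h2 : ∀ j, @T2Space F (σ j))
    (h3 : ∀ j, @FirstCountableTopology F (σ j)) (hF : tF = ⨅ j, σ j) :
    ∃ (K : Type) (_ : Field K) (_ : TopologicalSpace K), IsTopologicalDivisionRing K ∧ T2Space K ∧
      ConnectedSpace K ∧ ∃ g : F →+* K, Topology.IsEmbedding g := by
  by_cases hne : (𝓝[≠] (0 : F)).NeBot
  swap
  · have : DiscreteTopology F := discrete_of_zero (zero_mem_of_not hne)
    exact conn_discrete F
  have hσne : ∀ j, (@nhdsWithin F (σ j) 0 {(0 : F)}ᶜ).NeBot := by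
    intro j
    have hle : tF ≤ σ j := by rw [hF]; exact iInf_le σ j
    exact Filter.NeBot.mono hne (inf_le_inf_right _ (nhds_mono hle))
  have hext : ∀ j, ExtT F (σ j) := fun j =>
    @ext_of_bd (t_NZ2 (t_NZ1 t_SWP t_HIT t_CNF)) t_TOA t_PTA F _ (σ j) (h1 j) (h3 j) (h2 j)
      (hσne j) hb
  exact conn_of_ext t_INF t_CON t_CMP t_CTP t_T2 F tF hT J σ h1 hext hF

end Pool.Agent.H918R5
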