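import Pool.Agent.H918R5.All2

/-!
# Connected topological fields: discrete fields and the combined theorem
-/

set_option autoImplicit false

open Topology Filter

namespace Pool.Agent.H918R5

theorem discrete_of_zero {F : Type} [Field F] [TopologicalSpace F] [IsTopologicalDivisionRing F]
    (h : {(0 : F)} ∈ 𝓝 (0 : F)) : DiscreteTopology F := by
  apply discreteTopology_of_isOpen_singleton_zero
  rw [isOpen_iff_mem_nhds]
  intro x hx
  rw [Set.mem_singleton_iff] at hx
  rw [hx]; exact h

theorem zero_mem_of_not {F : Type} [Field F] [TopologicalSpace F]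
    (h : ¬ (𝓝[≠] (0 : F)).NeBot) : {(0 : F)} ∈ 𝓝 (0 : F) := by
  rw [Filter.not_neBot] at h
  have h1 : ({0}ᶜ : Set F)ᶜ ∈ 𝓝 (0 : F) := by
    have h2 : (∅ : Set F) ∈ 𝓝[≠] (0 : F) := by rw [h]; exact Filter.mem_bot
    rw [mem_nhdsWithin_iff_exists_mem_nhds_inter] at h2
    obtain ⟨U, hU, hU2⟩ := h2
    refine Filter.mem_of_superset hU ?_
    intro x hx hx2
    exact hU2 ⟨hx, hx2⟩
  rwa [compl_compl] at h1

/-- discrete fields -/
theorem conn_discrete (F : Type) [Field F] [tF : TopologicalSpace F] [hd : DiscreteTopology F] :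
    ∃ (K : Type) (_ : Field K) (_ : TopologicalSpace K), IsTopologicalDivisionRing K ∧ T2Space K ∧
      ConnectedSpace K ∧ ∃ g : F →+* K, Topology.IsEmbedding g := by
  obtain ⟨M, iF, iU, i1, i2, i3, i4, i5, hne, f, U, hU, hUf⟩ := t_DIS F
  refine main1 F Unit (fun _ => M) (fun _ => hne) (fun _ => f) ?_
  rw [iInf_const]
  have h1 := t_IND F M f
  have h2 : @DiscreteTopology F (TopologicalSpace.induced f inferInstance) := by
    refine @discrete_of_zero F _ (TopologicalSpace.induced f inferInstance) h1.1 ?_
    rw [h1.2]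
    refine ⟨U, hU, ?_⟩
    intro a ha
    exact hUf a ha
  show tF = _
  rw [@DiscreteTopology.eq_bot F tF hd,
    @DiscreteTopology.eq_bot F (TopologicalSpace.induced f inferInstance) h2]

theorem final (F : Type) [Field F] [tF : TopologicalSpace F] [hdF : IsTopologicalDivisionRing F]
    [hT : T2Space F]
    (h : Countable F ∨
      ∃ (J : Type) (M : J → Type) (_ : ∀ j, Field (M j)) (_ : ∀ j, UniformSpace (M j))
        (_ : ∀ j, IsUniformAddGroup (M j)) (_ : ∀ j, IsTopologicalDivisionRing (M j))
        (_ : ∀ j, CompleteSpace (M j)) (_ : ∀ j, FirstCountableTopology (M j))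
        (_ : ∀ j, T2Space (M j)) (f : ∀ j, F →+* M j),
        (inferInstance : TopologicalSpace F) = ⨅ j, TopologicalSpace.induced (f j) inferInstance) :
    ∃ (K : Type) (_ : Field K) (_ : TopologicalSpace K), IsTopologicalDivisionRing K ∧ T2Space K ∧
      ConnectedSpace K ∧ ∃ g : F →+* K, Topology.IsEmbedding g := by
  by_cases hF : (𝓝[≠] (0 : F)).NeBot
  swap
  · haveI : DiscreteTopology F := discrete_of_zero (zero_mem_of_not hF)
    exact conn_discrete F
  rcases h with h | ⟨J, M, i1, i2, i3, i4, i5, i6, i7, f, hf⟩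
  · exact main2 F hF
  · by_cases hJ : Nonempty J
    · by_cases hM : ∀ j, (𝓝[≠] (0 : M j)).NeBot
      · exact main1 F J M hM f hf
      · exfalso
        push Not at hM
        obtain ⟨j, hj⟩ := hM
        have h1 : {(0 : M j)} ∈ 𝓝 (0 : M j) := zero_mem_of_not (by
          rw [Filter.not_neBot]; exact hj)
        have h2 : {(0 : F)} ∈ @nhds F (TopologicalSpace.induced (f j) inferInstance) 0 := by
          rw [(t_IND F (M j) (f j)).2]
          refine ⟨{0}, h1, ?_⟩
          intro a ha
          have h3 : f j a = 0 := ha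
          rw [map_eq_zero] at h3
          exact h3
        have h4 : tF ≤ TopologicalSpace.induced (f j) inferInstance := by
          have h5 : tF = ⨅ j, TopologicalSpace.induced (f j) inferInstance := hf
          rw [h5]
          exact iInf_le _ j
        have h6 : {(0 : F)} ∈ 𝓝 (0 : F) := nhds_mono h4 h2
        have h7 : 𝓝[≠] (0 : F) = ⊥ := by
          rw [← Filter.empty_mem_iff_bot, mem_nhdsWithin_iff_exists_mem_nhds_inter]
          refine ⟨{0}, h6, ?_⟩
          rintro x ⟨hx1, hx2⟩
          exact hx2 hx1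
        exact hF.ne h7
    · exfalso
      rw [not_nonempty_iff] at hJ
      have h5 : tF = ⨅ j, TopologicalSpace.induced (f j) inferInstance := hf
      rw [iInf_of_empty] at h5
      obtain ⟨U, V, hU, hV, h0, h1, hUV⟩ := t2_separation (zero_ne_one (α := F))
      have h8 : U = Set.univ := by
        have h9 : @IsOpen F ⊤ U := by rw [← h5]; exact hU
        rcases TopologicalSpace.isOpen_top_iff U |>.1 h9 with h | h
        · rw [h] at h0; exact absurd h0 (Set.notMem_empty _)
        · exact h
      have h10 : (1 : F) ∈ U := by rw [h8]; trivial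
      exact Set.disjoint_left.1 hUV h10 h1

end Pool.Agent.H918R5
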