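import Pool.Agent.H918R5.StubsA

set_option autoImplicit false

open MeasureTheory Topology Filter

namespace Pool.Agent.H918R5

/-- discrete fields embed in complete metrizable nondiscrete fields -/
def StDIS : Prop := ∀ (F : Type) [Field F], ∃ (M : Type) (_ : Field M) (_ : UniformSpace M),
  IsUniformAddGroup M ∧ IsTopologicalDivisionRing M ∧ CompleteSpace M ∧ FirstCountableTopology M ∧
    T2Space M ∧ (𝓝[≠] (0 : M)).NeBot ∧ ∃ (f : F →+* M), ∃ U ∈ 𝓝 (0 : M), ∀ a, f a ∈ U → a = 0

end Pool.Agent.H918R5
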