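import Pool.Agent.H918R5.Stubs

set_option autoImplicit false

open MeasureTheory Topology Filter

namespace Pool.Agent.H918R5

theorem t_CON : StCON := by
  intro K _ _ _ γ hγ hst
  obtain ⟨s, t, hst⟩ := hst
  have hne : γ s - γ t ≠ 0 := sub_ne_zero.2 hst
  have : PreconnectedSpace TI := by
    apply Subtype.preconnectedSpace
    exact isPreconnected_Icc
  have hpre : IsPreconnected (Set.univ : Set K) := by
    apply isPreconnected_of_forall (0 : K)
    intro z _
    refine ⟨Set.range (fun u : TI => z * (γ s - γ t)⁻¹ * (γ u - γ t)), Set.subset_univ _,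
      ⟨t, by simp⟩, ⟨s, ?_⟩, ?_⟩
    · show z * (γ s - γ t)⁻¹ * (γ s - γ t) = z
      rw [mul_assoc, inv_mul_cancel₀ hne, mul_one]
    · apply isPreconnected_range
      exact continuous_const.mul (hγ.sub continuous_const)
  exact { toPreconnectedSpace := ⟨hpre⟩, toNonempty := ⟨0⟩ }

end Pool.Agent.H918R5
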