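import Pool.Agent.H918R5.Stubs

/-!
# Good sequences
-/

set_option autoImplicit false

open MeasureTheory Topology Filter

namespace Pool.Agent.H918R5

namespace SEQ

theorem exists_nhds_seq (M : Type) [Field M] [TopologicalSpace M] [IsTopologicalDivisionRing M]
    [FirstCountableTopology M] : ∃ U : ℕ → Set M, (∀ n, U n ∈ 𝓝 (0 : M)) ∧
      (∀ n, ∀ v ∈ U (n + 1), ∀ w ∈ U (n + 1), v + w ∈ U n) ∧
      ∀ V ∈ 𝓝 (0 : M), ∃ n, U n ⊆ V := by
  obtain ⟨B, hB⟩ := (𝓝 (0 : M)).exists_antitone_basis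
  have hBm : ∀ n, B n ∈ 𝓝 (0 : M) := fun n => hB.toHasBasis.mem_of_mem trivial
  have hstep : ∀ (n : ℕ) (U : {U : Set M // U ∈ 𝓝 (0 : M)}), ∃ V : {U : Set M // U ∈ 𝓝 (0 : M)},
      (∀ v ∈ V.1, ∀ w ∈ V.1, v + w ∈ U.1) ∧ V.1 ⊆ B (n + 1) := by
    intro n U
    obtain ⟨V, hV, hVV⟩ := exists_nhds_zero_half U.2
    exact ⟨⟨V ∩ B (n + 1), inter_mem hV (hBm _)⟩,
      fun v hv w hw => hVV v hv.1 w hw.1, Set.inter_subset_right⟩
  choose f hf1 hf2 using hstep
  let U : ℕ → {U : Set M // U ∈ 𝓝 (0 : M)} := fun n =>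
    Nat.rec (motive := fun _ => {U : Set M // U ∈ 𝓝 (0 : M)}) ⟨B 0, hBm 0⟩ (fun n u => f n u) n
  have hUs : ∀ n, U (n + 1) = f n (U n) := fun n => rfl
  refine ⟨fun n => (U n).1, fun n => (U n).2, ?_, ?_⟩
  · intro n v hv w hw
    have hv' : v ∈ (f n (U n)).1 := by rw [← hUs]; exact hv
    have hw' : w ∈ (f n (U n)).1 := by rw [← hUs]; exact hw
    exact hf1 n (U n) v hv' w hw'
  · intro V hV
    obtain ⟨n, -, hn⟩ := hB.toHasBasis.mem_iff.1 hV
    refine ⟨n + 1, ?_⟩
    intro x hx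
    have hx' : x ∈ (f n (U n)).1 := by rw [← hUs]; exact hx
    exact hn (hB.antitone (Nat.le_succ n) (hf2 n (U n) hx'))

end SEQ

theorem t_SEQ : StSEQ := by
  intro M _ _ _ _ _ hne
  classical
  obtain ⟨U, hU, hUU, hUb⟩ := SEQ.exists_nhds_seq M
  have hU0 : ∀ n, (0 : M) ∈ U n := fun n => mem_of_mem_nhds (hU n)
  have hUsub : ∀ n, U (n + 1) ⊆ U n := by
    intro n x hx
    have := hUU n x hx 0 (hU0 _)
    rwa [add_zero] at this
  have hanti : Antitone U := antitone_nat_of_succ_le hUsub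
  obtain ⟨f, hf1, hf2⟩ := exists_seq_of_forall_finset_exists
    (fun p : ℕ × M => p.2 ≠ 0 ∧ p.2 ∈ U (p.1 + 1))
    (fun p q : ℕ × M => p.1 < q.1 ∧ q.2 ≠ p.2 ∧ q.2 ≠ - p.2) (by
      intro s _
      have hinf : (U (s.sup Prod.fst + 1 + 1)).Infinite := infinite_of_mem_nhds (0 : M) (hU _)
      obtain ⟨d, hd, hds⟩ := hinf.exists_notMem_finset
        (insert 0 (s.image Prod.snd ∪ s.image (fun p => - p.2)))
      refine ⟨(s.sup Prod.fst + 1, d), ⟨?_, hd⟩, ?_⟩
      · intro h0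
        apply hds
        simp only at h0
        rw [h0]
        exact Finset.mem_insert_self _ _
      · intro x hx
        refine ⟨Nat.lt_succ_of_le (Finset.le_sup (f := Prod.fst) hx), ?_, ?_⟩
        · intro h
          apply hds
          refine Finset.mem_insert_of_mem (Finset.mem_union_left _ ?_)
          exact Finset.mem_image.2 ⟨x, hx, h.symm⟩
        · intro h
          apply hds
          refine Finset.mem_insert_of_mem (Finset.mem_union_right _ ?_)
          exact Finset.mem_image.2 ⟨x, hx, h.symm⟩)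
  have hmono : StrictMono (fun n => (f n).1) := fun m n h => (hf2 m n h).1
  have hc : ∀ n, (f n).2 ∈ U (n + 1) := by
    intro n
    exact hanti (Nat.succ_le_succ (hmono.id_le n)) (hf1 n).2
  have key : ∀ s : Finset ℕ, ∀ N : ℕ, (∀ i ∈ s, N ≤ i) → ∑ i ∈ s, (f i).2 ∈ U N := by
    intro s
    induction s using Finset.induction_on_min with
    | empty => intro N _; simpa using hU0 N
    | insert a s ha ih =>
      intro N hN
      have hnot : a ∉ s := fun h => lt_irrefl _ (ha a h)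
      rw [Finset.sum_insert hnot]
      have h1 := hUU a (f a).2 (hc a) (∑ i ∈ s, (f i).2) (ih (a + 1) (fun i hi => ha i hi))
      exact hanti (hN a (Finset.mem_insert_self _ _)) h1
  refine ⟨fun n => (f n).2, ?_, fun i => (hf1 i).1, ?_⟩
  · intro V hV
    obtain ⟨N, hN⟩ := hUb V hV
    exact ⟨N, fun s hs => hN (key s N hs)⟩
  · intro i j hij
    rcases lt_or_gt_of_ne hij with h | h
    · have := hf2 i j h
      refine ⟨fun e => this.2.1 e.symm, fun e => this.2.2 ?_⟩
      have e' : (f i).2 = - (f j).2 := e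
      rw [e', neg_neg]
    · have := hf2 j i h
      exact ⟨this.2.1, this.2.2⟩

end Pool.Agent.H918R5
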